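import Pool.Agent.H469R2.NK.ExpSum

set_option autoImplicit false

/-!
A discrete form of the inequality of Erdős and Turán with weak (power saving) constants.
-/

namespace Pool.Agent.TH915.PW

open Finset
open Pool.Agent.H469R2.NK (e norm_e e_add conj_e e_zero e_nat kusmin_landau_anti norm_sum_neg)

lemma e_int (n : ℤ) : e n = 1 := by
  unfold e
  rw [Complex.exp_eq_one_iff]
  exact ⟨n, by push_cast; ring⟩

lemma e_natmul (n : ℕ) (x : ℝ) : e (n * x) = e x ^ n := by
  unfold e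
  rw [← Complex.exp_nat_mul]
  congr 1
  push_cast
  ring

lemma e_eq_one {x : ℝ} (h : e x = 1) : ∃ n : ℤ, x = n := by
  unfold e at h
  rw [Complex.exp_eq_one_iff] at h
  obtain ⟨n, hn⟩ := h
  refine ⟨n, ?_⟩
  have hpi : (2 * Real.pi * Complex.I : ℂ) ≠ 0 := Complex.two_pi_I_ne_zero
  have h2 : ((x : ℝ) : ℂ) * (2 * Real.pi * Complex.I) = (n : ℂ) * (2 * Real.pi * Complex.I) := by
    rw [← hn]; push_cast; ring
  have h3 := mul_right_cancel₀ hpi h2
  exact_mod_cast h3

lemma e_sub (x y : ℝ) : e (x - y) = e x * (starRingEnd ℂ) (e y) := by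
  rw [conj_e, ← e_add]; rfl

/-- sum of the additive characters -/
lemma sum_char (R : ℕ) (hR : 0 < R) (m : ℤ) (hm : ¬ (R : ℤ) ∣ m) :
    ∑ r ∈ range R, e (m * ((r : ℝ) / R)) = 0 := by
  have hR' : (R : ℝ) ≠ 0 := by exact_mod_cast hR.ne'
  set z : ℂ := e ((m : ℝ) / R) with hz
  have h1 : ∀ r ∈ range R, e (m * ((r : ℝ) / R)) = z ^ r := by
    intro r _
    rw [hz, ← e_natmul]
    congr 1
    ring
  rw [sum_congr rfl h1]
  have h2 : z ^ R = 1 := by
    rw [hz, ← e_natmul, mul_div_cancel₀ _ hR']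
    exact e_int m
  have h3 : z ≠ 1 := by
    intro h
    obtain ⟨n, hn⟩ := e_eq_one h
    apply hm
    rw [div_eq_iff hR'] at hn
    refine ⟨n, ?_⟩
    have : (m : ℝ) = ((n * R : ℤ) : ℝ) := by rw [hn]; push_cast; ring
    rw [mul_comm]
    exact_mod_cast this
  have h4 := mul_geom_sum z R
  rw [h2, sub_self] at h4
  rcases mul_eq_zero.mp h4 with h | h
  · exact absurd (sub_eq_zero.mp h) h3
  · exact h

/-- squared modulus of the Dirichlet kernel -/
lemma sq_expand (H : ℕ) (y : ℝ) :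
    ((‖∑ j ∈ range H, e (j * y)‖ ^ 2 : ℝ) : ℂ) =
      ∑ j ∈ range H, ∑ j' ∈ range H, e (((j : ℤ) - (j' : ℤ) : ℤ) * y) := by
  rw [Complex.ofReal_pow, ← Complex.mul_conj', map_sum, sum_mul_sum]
  refine sum_congr rfl fun j _ => sum_congr rfl fun j' _ => ?_
  rw [← e_sub]
  congr 1
  push_cast
  ring

/-- Parseval -/
lemma parseval (H R : ℕ) (hR : 0 < R) (hHR : H ≤ R) (x : ℝ) :
    ∑ r ∈ range R, ‖∑ j ∈ range H, e (j * (x - r / R))‖ ^ 2 = (R : ℝ) * H := by
  have key : ((∑ r ∈ range R, ‖∑ j ∈ range H, e (j * (x - r / R))‖ ^ 2 : ℝ) : ℂ) =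
      ((R : ℝ) * H : ℝ) := by
    rw [Complex.ofReal_sum]
    simp only [sq_expand]
    rw [sum_comm]
    have h1 : ∀ j ∈ range H, ∑ r ∈ range R, ∑ j' ∈ range H,
        e (((j : ℤ) - (j' : ℤ) : ℤ) * (x - r / R)) = R := by
      intro j hj
      rw [sum_comm]
      have h2 : ∀ j' ∈ range H, ∑ r ∈ range R, e (((j : ℤ) - (j' : ℤ) : ℤ) * (x - r / R)) =
          if j' = j then (R : ℂ) else 0 := by
        intro j' hj'
        rw [mem_range] at hj hj'
        split_ifs with h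
        · subst h
          simp [e_zero]
        · have h3 : ∀ r ∈ range R, e (((j : ℤ) - (j' : ℤ) : ℤ) * (x - r / R)) =
              e (((j : ℤ) - (j' : ℤ) : ℤ) * x) * e ((((j' : ℤ) - (j : ℤ) : ℤ) : ℝ) * ((r : ℝ) / R)) := by
            intro r _
            rw [← e_add]
            congr 1
            push_cast
            ring
          rw [sum_congr rfl h3, ← mul_sum, sum_char R hR, mul_zero]
          intro hd
          rcases lt_or_gt_of_ne h with h4 | h4
          · have h5 : (R : ℤ) ∣ (j : ℤ) - j' := by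
              have := (dvd_neg (a := (R : ℤ))).mpr hd
              rwa [neg_sub] at this
            have h6 := Int.le_of_dvd (by omega) h5
            omega
          · have h6 := Int.le_of_dvd (by omega) hd
            omega
      rw [sum_congr rfl h2, sum_ite_eq' , if_pos hj]
    rw [sum_comm] 
    have h1' : ∑ j ∈ range H, ∑ r ∈ range R, ∑ j' ∈ range H,
        e (((j : ℤ) - (j' : ℤ) : ℤ) * (x - r / R)) = ∑ j ∈ range H, (R : ℂ) :=
      sum_congr rfl h1
    rw [sum_comm, h1', sum_const, card_range, nsmul_eq_mul]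
    push_cast
    ring
  exact_mod_cast key

/-- exponential sums for integer frequencies -/
lemma norm_S_le {ι : Type*} (s : Finset ι) (x : ι → ℝ) (H : ℕ) (E : ℝ)
    (hE : ∀ h : ℕ, 1 ≤ h → h < H → ‖∑ i ∈ s, e (h * x i)‖ ≤ E) (m : ℤ) (hm : m ≠ 0)
    (hmH : m.natAbs < H) : ‖∑ i ∈ s, e (m * x i)‖ ≤ E := by
  rcases lt_or_gt_of_ne hm with h | h
  · have h1 := hE m.natAbs (by omega) hmH
    have h2 : ((m.natAbs : ℕ) : ℝ) = -(m : ℝ) := by
      have : ((m.natAbs : ℕ) : ℤ) = -m := by omega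
      rw [← Int.cast_natCast, this]
      push_cast
      ring
    rw [h2] at h1
    have h3 : ∑ i ∈ s, e (m * x i) = (starRingEnd ℂ) (∑ i ∈ s, e (-(m : ℝ) * x i)) := by
      rw [map_sum]
      refine sum_congr rfl fun i _ => ?_
      rw [conj_e]
      congr 1
      ring
    rw [h3, Complex.norm_conj]
    exact h1
  · have h1 := hE m.natAbs (by omega) hmH
    have h2 : ((m.natAbs : ℕ) : ℝ) = (m : ℝ) := by
      have : ((m.natAbs : ℕ) : ℤ) = m := by omega
      rw [← Int.cast_natCast, this]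
    rwa [h2] at h1

/-- the sum of the kernel over the points -/
lemma sum_kernel {ι : Type*} (s : Finset ι) (x : ι → ℝ) (H : ℕ) (E : ℝ) (hE0 : 0 ≤ E)
    (hE : ∀ h : ℕ, 1 ≤ h → h < H → ‖∑ i ∈ s, e (h * x i)‖ ≤ E) (c : ℝ) :
    (H : ℝ) * s.card - (H : ℝ) ^ 2 * E ≤ ∑ i ∈ s, ‖∑ j ∈ range H, e (j * (x i - c))‖ ^ 2 := by
  have h0 : ((∑ i ∈ s, ‖∑ j ∈ range H, e (j * (x i - c))‖ ^ 2 : ℝ) : ℂ) =
      ∑ j ∈ range H, ∑ j' ∈ range H, e (-(((j : ℤ) - (j' : ℤ) : ℤ) * c)) *
        ∑ i ∈ s, e (((j : ℤ) - (j' : ℤ) : ℤ) * x i) := by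
    rw [Complex.ofReal_sum]
    simp only [sq_expand]
    rw [sum_comm]
    refine sum_congr rfl fun j _ => ?_
    rw [sum_comm]
    refine sum_congr rfl fun j' _ => ?_
    rw [mul_sum]
    refine sum_congr rfl fun i _ => ?_
    rw [← e_add]
    congr 1
    ring
  have h1 : ((H : ℝ) * s.card : ℂ) = ∑ j ∈ range H, ∑ j' ∈ range H,
      (if j' = j then (s.card : ℂ) else 0) := by
    have : ∀ j ∈ range H, ∑ j' ∈ range H, (if j' = j then (s.card : ℂ) else 0) = s.card := by
      intro j hj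
      rw [sum_ite_eq', if_pos hj]
    rw [sum_congr rfl this, sum_const, card_range, nsmul_eq_mul]
    push_cast
    ring
  have h2 : ‖((∑ i ∈ s, ‖∑ j ∈ range H, e (j * (x i - c))‖ ^ 2 : ℝ) : ℂ) -
      ((H : ℝ) * s.card : ℂ)‖ ≤ (H : ℝ) ^ 2 * E := by
    rw [h0, h1, ← sum_sub_distrib]
    refine (norm_sum_le _ _).trans ?_
    have h3 : ∀ j ∈ range H, ‖∑ j' ∈ range H, e (-(((j : ℤ) - (j' : ℤ) : ℤ) * c)) *
        ∑ i ∈ s, e (((j : ℤ) - (j' : ℤ) : ℤ) * x i) -
        ∑ j' ∈ range H, (if j' = j then (s.card : ℂ) else 0)‖ ≤ H * E := by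
      intro j hj
      rw [← sum_sub_distrib]
      refine (norm_sum_le _ _).trans ?_
      have h4 : ∀ j' ∈ range H, ‖e (-(((j : ℤ) - (j' : ℤ) : ℤ) * c)) *
          ∑ i ∈ s, e (((j : ℤ) - (j' : ℤ) : ℤ) * x i) -
            (if j' = j then (s.card : ℂ) else 0)‖ ≤ E := by
        intro j' hj'
        rw [mem_range] at hj hj'
        split_ifs with h
        · subst h
          simp [e_zero, hE0]
        · rw [sub_zero, norm_mul, norm_e, one_mul]
          exact norm_S_le s x H E hE _ (by omega) (by omega)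
      refine (sum_le_sum h4).trans ?_
      rw [sum_const, card_range, nsmul_eq_mul]
    refine (sum_le_sum h3).trans ?_
    rw [sum_const, card_range, nsmul_eq_mul]
    apply le_of_eq
    ring
  have h5 : ((∑ i ∈ s, ‖∑ j ∈ range H, e (j * (x i - c))‖ ^ 2 : ℝ) : ℂ) -
      ((H : ℝ) * s.card : ℂ) = (((∑ i ∈ s, ‖∑ j ∈ range H, e (j * (x i - c))‖ ^ 2) -
        (H : ℝ) * s.card : ℝ) : ℂ) := by
    push_cast
    ring
  rw [h5, Complex.norm_real, Real.norm_eq_abs] at h2
  have := (abs_le.mp h2).1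
  linarith

/-- the kernel is small away from the integers -/
lemma kernel_small (H : ℕ) (y δ : ℝ) (hδ : 0 < δ) (h1 : δ ≤ Int.fract y) (h2 : Int.fract y ≤ 1 - δ) :
    ‖∑ j ∈ range H, e (j * y)‖ ^ 2 ≤ 4 / δ ^ 2 := by
  have h3 : ∑ j ∈ range H, e (j * y) = ∑ j ∈ range H, e (j * Int.fract y) := by
    refine sum_congr rfl fun j _ => ?_
    have : (j : ℝ) * y = j * Int.fract y + ((j * ⌊y⌋ : ℤ) : ℝ) := by
      push_cast
      rw [← mul_add, Int.fract_add_floor]
    rw [this, e_add, e_int, mul_one]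
  have h4 := kusmin_landau_anti (fun n => (n : ℝ) * Int.fract y) H hδ
    (fun n _ => by push_cast; linarith)
    (fun n _ => by push_cast; linarith)
    (fun n _ => by push_cast; linarith)
  rw [h3]
  have h5 : (2 / δ) ^ 2 = 4 / δ ^ 2 := by rw [div_pow]; norm_num
  rw [← h5]
  exact pow_le_pow_left₀ (norm_nonneg _) h4 2

/-- lower bound for the number of points in an interval -/
theorem disc_low {ι : Type*} (s : Finset ι) (x : ι → ℝ) (K : ℕ) (hK : 1 ≤ K) (E : ℝ)
    (hE0 : 0 ≤ E) (hE : ∀ h : ℕ, 1 ≤ h → h < K ^ 3 → ‖∑ i ∈ s, e (h * x i)‖ ≤ E) (a b : ℝ)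
    (ha : 0 ≤ a) (hb : b ≤ 1) :
    (s.card : ℝ) * (b - a) - 7 * s.card / K - (K : ℝ) ^ 3 * E ≤
      ((s.filter (fun i => a ≤ Int.fract (x i) ∧ Int.fract (x i) < b)).card : ℝ) := by
  classical
  have hK1 : (1 : ℝ) ≤ K := by exact_mod_cast hK
  have hK0 : (0 : ℝ) < K := by linarith
  set H : ℕ := K ^ 3 with hH
  have hH1 : 1 ≤ H := Nat.one_le_pow _ _ hK
  have hHr : (H : ℝ) = (K : ℝ) ^ 3 := by rw [hH]; push_cast; rfl
  have hH0 : (0 : ℝ) < H := by rw [hHr]; positivity
  set δ : ℝ := 1 / K with hδ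
  have hδ0 : 0 < δ := by positivity
  set N : ℝ := (s.card : ℝ) with hN
  have hN0 : 0 ≤ N := Nat.cast_nonneg _
  set I : Finset ℕ := (range H).filter (fun r => a + δ ≤ (r : ℝ) / H ∧ (r : ℝ) / H ≤ b - δ) with hI
  -- cardinality of `I`
  have hIcard : (H : ℝ) * (b - a - 2 * δ) - 1 ≤ I.card := by
    have h1 : Finset.Icc ⌈H * (a + δ)⌉₊ ⌊H * (b - δ)⌋₊ ⊆ I := by
      intro r hr
      rw [Finset.mem_Icc] at hr
      have hr1 : H * (a + δ) ≤ r := Nat.ceil_le.mp hr.1
      have hr0 : 0 < H * (a + δ) := by positivity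
      have hr2 : (r : ℝ) ≤ H * (b - δ) := by
        have hpos : 1 ≤ r := by
          have : (0 : ℝ) < r := by linarith
          exact_mod_cast this
        have h5 : ⌊H * (b - δ)⌋₊ ≠ 0 := by omega
        have h6 := (Nat.le_floor_iff' (by omega)).mp hr.2
        exact h6
      rw [hI, Finset.mem_filter, Finset.mem_range]
      refine ⟨?_, ?_, ?_⟩
      · have : (r : ℝ) < H := by nlinarith
        exact_mod_cast this
      · rw [le_div_iff₀ hH0]; linarith
      · rw [div_le_iff₀ hH0]; linarith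
    have h2 := Finset.card_le_card h1
    rw [Nat.card_Icc] at h2
    rcases le_or_gt (b - δ) 0 with h3 | h3
    · have : (H : ℝ) * (b - a - 2 * δ) ≤ 0 := by
        apply mul_nonpos_of_nonneg_of_nonpos hH0.le
        linarith
      have h4 : (0 : ℝ) ≤ I.card := Nat.cast_nonneg _
      linarith
    · have h4 : (H : ℝ) * (b - δ) < ⌊H * (b - δ)⌋₊ + 1 := Nat.lt_floor_add_one _
      have h5 : (⌈H * (a + δ)⌉₊ : ℝ) < H * (a + δ) + 1 := Nat.ceil_lt_add_one (by positivity)
      have h6 : (⌊H * (b - δ)⌋₊ : ℝ) + 1 - ⌈H * (a + δ)⌉₊ ≤ I.card := by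
        have : ⌊H * (b - δ)⌋₊ + 1 ≤ I.card + ⌈H * (a + δ)⌉₊ := by omega
        have h7 : ((⌊H * (b - δ)⌋₊ + 1 : ℕ) : ℝ) ≤ ((I.card + ⌈H * (a + δ)⌉₊ : ℕ) : ℝ) := by
          exact_mod_cast this
        push_cast at h7
        linarith
      nlinarith
  have hIle : (I.card : ℝ) ≤ H := by
    have := Finset.card_filter_le (range H) (fun r : ℕ => a + δ ≤ (r : ℝ) / H ∧ (r : ℝ) / H ≤ b - δ)
    rw [card_range] at this
    exact_mod_cast this
  -- the weight
  set W : ℝ → ℝ := fun y => ∑ r ∈ I, ‖∑ j ∈ range H, e (j * (y - r / H))‖ ^ 2 with hW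
  have hW1 : ∀ y, W y ≤ (H : ℝ) * H := by
    intro y
    rw [← parseval H H hH1 le_rfl y]
    apply Finset.sum_le_sum_of_subset_of_nonneg (Finset.filter_subset _ _)
    intro r _ _
    positivity
  have hW2 : ∀ y, ¬ (a ≤ Int.fract y ∧ Int.fract y < b) → W y ≤ H * (4 * (K : ℝ) ^ 2) := by
    intro y hy
    have h1 : ∀ r ∈ I, ‖∑ j ∈ range H, e (j * (y - r / H))‖ ^ 2 ≤ 4 * (K : ℝ) ^ 2 := by
      intro r hr
      rw [hI, Finset.mem_filter, Finset.mem_range] at hr
      obtain ⟨_, h2, h3⟩ := hr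
      have h4 : 4 / δ ^ 2 = 4 * (K : ℝ) ^ 2 := by rw [hδ]; field_simp
      rw [← h4]
      set c : ℝ := (r : ℝ) / H with hc
      have hf0 := Int.fract_nonneg y
      have hf1 := Int.fract_lt_one y
      rcases lt_or_ge (Int.fract y) a with h5 | h5
      · -- below: `fract (y - c) = fract y - c + 1`
        have h6 : Int.fract (y - c) = Int.fract y - c + 1 := by
          rw [Int.fract_eq_iff]
          refine ⟨by linarith, by linarith, ⌊y⌋ - 1, ?_⟩
          have := Int.self_sub_floor y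
          push_cast
          linarith
        apply kernel_small _ _ _ hδ0
        · rw [h6]; linarith
        · rw [h6]; linarith
      · have h5' : b ≤ Int.fract y := by
          by_contra hcon
          exact hy ⟨h5, not_le.mp hcon⟩
        have h6 : Int.fract (y - c) = Int.fract y - c := by
          rw [Int.fract_eq_iff]
          refine ⟨by linarith, by linarith, ⌊y⌋, ?_⟩
          have := Int.self_sub_floor y
          linarith
        apply kernel_small _ _ _ hδ0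
        · rw [h6]; linarith
        · rw [h6]; linarith
    calc W y ≤ ∑ r ∈ I, 4 * (K : ℝ) ^ 2 := Finset.sum_le_sum h1
      _ = I.card * (4 * (K : ℝ) ^ 2) := by rw [sum_const, nsmul_eq_mul]
      _ ≤ _ := by gcongr
  set G := s.filter (fun i => a ≤ Int.fract (x i) ∧ Int.fract (x i) < b) with hG
  have hup : ∑ i ∈ s, W (x i) ≤ G.card * ((H : ℝ) * H) + N * (H * (4 * (K : ℝ) ^ 2)) := by
    rw [← Finset.sum_filter_add_sum_filter_not s
      (fun i => a ≤ Int.fract (x i) ∧ Int.fract (x i) < b)]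
    apply add_le_add
    · calc _ ≤ ∑ i ∈ G, (H : ℝ) * H := Finset.sum_le_sum (fun i _ => hW1 _)
        _ = _ := by rw [sum_const, nsmul_eq_mul]
    · calc _ ≤ ∑ i ∈ s.filter (fun i => ¬ (a ≤ Int.fract (x i) ∧ Int.fract (x i) < b)),
            H * (4 * (K : ℝ) ^ 2) := by
            apply Finset.sum_le_sum
            intro i hi
            rw [Finset.mem_filter] at hi
            exact hW2 _ hi.2
        _ = ((s.filter (fun i => ¬ (a ≤ Int.fract (x i) ∧ Int.fract (x i) < b))).card : ℝ) *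
            (H * (4 * (K : ℝ) ^ 2)) := by rw [sum_const, nsmul_eq_mul]
        _ ≤ _ := by
            apply mul_le_mul_of_nonneg_right _ (by positivity)
            rw [hN]
            exact_mod_cast Finset.card_filter_le _ _
  have hlow : (I.card : ℝ) * ((H : ℝ) * N - (H : ℝ) ^ 2 * E) ≤ ∑ i ∈ s, W (x i) := by
    rw [hW]
    simp only
    rw [sum_comm, ← nsmul_eq_mul, ← sum_const]
    apply Finset.sum_le_sum
    intro r _
    exact sum_kernel s x H E hE0 hE _
  -- combine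
  have h1 : (I.card : ℝ) * ((H : ℝ) * N - (H : ℝ) ^ 2 * E) ≤
      G.card * ((H : ℝ) * H) + N * (H * (4 * (K : ℝ) ^ 2)) := hlow.trans hup
  have h2 : ((H : ℝ) * (b - a - 2 * δ) - 1) * (H * N) ≤ I.card * (H * N) :=
    mul_le_mul_of_nonneg_right hIcard (by positivity)
  have h3 : (I.card : ℝ) * ((H : ℝ) ^ 2 * E) ≤ H * ((H : ℝ) ^ 2 * E) :=
    mul_le_mul_of_nonneg_right hIle (by positivity)
  have h4 : ((H : ℝ) * H) * (N * (b - a) - 7 * N / K - (K : ℝ) ^ 3 * E) ≤
      ((H : ℝ) * H) * G.card := by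
    have e1 : (H : ℝ) * (K : ℝ) ^ 2 * N = H * H * (N / K) := by
      rw [hHr]; field_simp
    have e2 : δ * (H * (H * N)) = H * H * (N / K) := by rw [hδ]; field_simp
    have e3 : H * N ≤ H * H * (N / K) := by
      rw [hHr]
      have : (K : ℝ) ^ 3 * (K : ℝ) ^ 3 * (N / K) = (K : ℝ) ^ 3 * N * (K : ℝ) ^ 2 := by field_simp
      rw [this]
      have h5 : 0 ≤ (K : ℝ) ^ 3 * N := by positivity
      have h6 : (1 : ℝ) ≤ (K : ℝ) ^ 2 := one_le_pow₀ hK1
      nlinarith
    rw [← hHr]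
    have e4 : 7 * N / (K : ℝ) = 7 * (N / K) := by ring
    rw [e4]
    nlinarith
  exact le_of_mul_le_mul_left h4 (by positivity)

/-- the number of points in an interval -/
theorem disc {ι : Type*} (s : Finset ι) (x : ι → ℝ) (K : ℕ) (hK : 1 ≤ K) (E : ℝ)
    (hE0 : 0 ≤ E) (hE : ∀ h : ℕ, 1 ≤ h → h < K ^ 3 → ‖∑ i ∈ s, e (h * x i)‖ ≤ E) (a b : ℝ)
    (ha : 0 ≤ a) (hab : a ≤ b) (hb : b ≤ 1) :
    |((s.filter (fun i => a ≤ Int.fract (x i) ∧ Int.fract (x i) < b)).card : ℝ) -
      (s.card : ℝ) * (b - a)| ≤ 14 * s.card / K + 2 * ((K : ℝ) ^ 3 * E) := by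
  classical
  have h1 := disc_low s x K hK E hE0 hE a b ha hb
  have h2 := disc_low s x K hK E hE0 hE 0 a le_rfl (hab.trans hb)
  have h3 := disc_low s x K hK E hE0 hE b 1 (ha.trans hab) le_rfl
  have hK0 : (0 : ℝ) < K := by exact_mod_cast hK
  have h4 : ((s.filter (fun i => (0 : ℝ) ≤ Int.fract (x i) ∧ Int.fract (x i) < a)).card : ℝ) +
      ((s.filter (fun i => a ≤ Int.fract (x i) ∧ Int.fract (x i) < b)).card : ℝ) +
      ((s.filter (fun i => b ≤ Int.fract (x i) ∧ Int.fract (x i) < 1)).card : ℝ) ≤ s.card := by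
    rw [← Nat.cast_add, ← Nat.cast_add, Nat.cast_le, ← Finset.card_union_of_disjoint,
      ← Finset.card_union_of_disjoint]
    · apply Finset.card_le_card
      intro i hi
      simp only [Finset.mem_union, Finset.mem_filter] at hi
      tauto
    · rw [Finset.disjoint_left]
      intro i hi hi'
      simp only [Finset.mem_union, Finset.mem_filter] at hi hi'
      rcases hi with hi | hi
      · linarith [hi.2.2, hi'.2.1]
      · linarith [hi.2.2, hi'.2.1]
    · rw [Finset.disjoint_left]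
      intro i hi hi'
      simp only [Finset.mem_filter] at hi hi'
      linarith [hi.2.2, hi'.2.1]
  have hN : (0 : ℝ) ≤ 7 * s.card / K := by positivity
  have hE' : 0 ≤ (K : ℝ) ^ 3 * E := by positivity
  have e1 : 14 * (s.card : ℝ) / K = 2 * (7 * s.card / K) := by ring
  rw [e1, abs_le]
  constructor <;> linarith

end Pool.Agent.TH915.PW
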