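import Pool.Agent.Helper923.PNT
import Pool.Agent.W147.PS.Scale

set_option autoImplicit false

/-!
The number of primes of a residue class in `(Z, (1 + ε) Z]`, from the prime number theorem in
arithmetic progressions (Helper923).
-/

namespace Pool.Agent.TH915.PW

open Finset Filter
open Pool.Agent.W147.PS (ev_pow)

lemma card_primes (d : ℕ) (hd : 0 < d) (r : ℕ) (hr : r.Coprime d) (ε ι : ℝ) (hε : 0 < ε)
    (hε1 : ε ≤ 1) (hι : 0 < ι) : ∀ᶠ Z : ℝ in atTop,
    Z ^ (1 - ι) ≤ (((Ioc ⌊Z⌋₊ ⌊(1 + ε) * Z⌋₊).filter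
      (fun p => p.Prime ∧ p ≡ r [MOD d])).card : ℝ) := by
  classical
  have : NeZero d := ⟨hd.ne'⟩
  have hunit : IsUnit (r : ZMod d) := (ZMod.unitOfCoprime r hr).isUnit
  have hpnt := Pool.Agent.Helper923.PNT.pnt_residueClass hunit
  set c : ℝ := ((d.totient : ℝ))⁻¹ with hc
  have hφ : (0 : ℝ) < d.totient := by exact_mod_cast Nat.totient_pos.mpr hd
  have hc0 : 0 < c := by positivity
  set R : ℕ → ℝ := ArithmeticFunction.vonMangoldt.residueClass (r : ZMod d) with hR
  set S : ℝ → ℝ := fun x => ∑ k ∈ Finset.Icc 1 ⌊x⌋₊, R k with hS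
  have h1 : ∀ᶠ x : ℝ in atTop, |S x / x - c| < c * (ε / 8) := by
    have := (Metric.tendsto_nhds.mp hpnt) (c * (ε / 8)) (by positivity)
    filter_upwards [this] with x hx
    exact hx
  have hsc : Tendsto (fun Z : ℝ => (1 + ε) * Z) atTop atTop :=
    tendsto_id.const_mul_atTop (by linarith)
  have hlog : ∀ᶠ Z : ℝ in atTop, Real.log (2 * Z) ≤ Z ^ (ι / 2) ∧ Real.log (2 * Z) ≤ Z ^ (1 / 4 : ℝ) := by
    have hlg : ∀ s : ℝ, 0 < s → ∀ᶠ Z : ℝ in atTop, Real.log (2 * Z) ≤ Z ^ s := by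
      intro s hs
      have e1 := (isLittleO_log_rpow_atTop (show 0 < s / 2 by positivity)).def
        (show (0 : ℝ) < 1 by norm_num)
      have e2 : Tendsto (fun Z : ℝ => 2 * Z) atTop atTop := tendsto_id.const_mul_atTop (by norm_num)
      filter_upwards [e2.eventually e1, eventually_ge_atTop (1 : ℝ),
        ev_pow (s / 2) s (2 ^ (s / 2)) (by linarith)] with Z e3 e4 e5
      rw [Real.norm_eq_abs, Real.norm_eq_abs, abs_of_nonneg (Real.log_nonneg (by linarith)),
        abs_of_nonneg (by positivity), one_mul, Real.mul_rpow (by norm_num) (by linarith)] at e3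
      linarith
    filter_upwards [hlg (ι / 2) (by positivity), hlg (1 / 4) (by norm_num)] with Z a b
    exact ⟨a, b⟩
  filter_upwards [h1, hsc.eventually h1, hlog, eventually_ge_atTop (4 : ℝ),
    ev_pow (3 / 4) 1 (4 / (c * (ε / 8))) (by norm_num),
    ev_pow (1 - ι / 2) 1 (4 / (c * ε)) (by linarith)]
    with Z a1 a2 a3 a4 a5 a6
  rw [Real.rpow_one] at a5 a6
  have hZ0 : 0 < Z := by linarith
  have hZ1 : 1 ≤ Z := by linarith
  set m₀ : ℕ := ⌊Z⌋₊ with hm₀
  set m₁ : ℕ := ⌊(1 + ε) * Z⌋₊ with hm₁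
  have hm01 : m₀ ≤ m₁ := Nat.floor_le_floor (by nlinarith)
  have hm1 : (m₁ : ℝ) ≤ 2 * Z := by
    have := Nat.floor_le (show 0 ≤ (1 + ε) * Z by positivity)
    nlinarith
  have hm1' : 1 ≤ m₁ := Nat.le_floor (by push_cast; nlinarith)
  set Q := (Ioc m₀ m₁).filter (fun p => p.Prime ∧ p ≡ r [MOD d]) with hQ
  -- difference of the sums
  have hdiff : c * (5 / 8 * ε) * Z ≤ S ((1 + ε) * Z) - S Z := by
    have b1 := abs_lt.mp a1
    have b2 := abs_lt.mp a2
    have b3 : S Z ≤ (c + c * (ε / 8)) * Z := by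
      have : S Z / Z < c + c * (ε / 8) := by linarith [b1.2]
      rw [div_lt_iff₀ hZ0] at this
      exact this.le
    have b4 : (c - c * (ε / 8)) * ((1 + ε) * Z) ≤ S ((1 + ε) * Z) := by
      have : c - c * (ε / 8) < S ((1 + ε) * Z) / ((1 + ε) * Z) := by linarith [b2.1]
      rw [lt_div_iff₀ (by positivity)] at this
      exact this.le
    have b5 : c * (5 / 8 * ε) * Z + (c + c * (ε / 8)) * Z ≤ (c - c * (ε / 8)) * ((1 + ε) * Z) := by
      have e1 : (c - c * (ε / 8)) * ((1 + ε) * Z) - (c * (5 / 8 * ε) * Z + (c + c * (ε / 8)) * Z) =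
          c * Z * (ε * (1 - ε) / 8) := by ring
      have e2 : 0 ≤ c * Z * (ε * (1 - ε) / 8) := by
        apply mul_nonneg (by positivity)
        apply div_nonneg _ (by norm_num)
        exact mul_nonneg hε.le (by linarith)
      linarith
    linarith
  have hsum : S ((1 + ε) * Z) - S Z = ∑ k ∈ Ioc m₀ m₁, R k := by
    have e1 : Finset.Icc 1 m₁ = Finset.Icc 1 m₀ ∪ Ioc m₀ m₁ := by
      ext k
      simp only [Finset.mem_union, Finset.mem_Icc, Finset.mem_Ioc]
      omega
    have e2 : Disjoint (Finset.Icc 1 m₀) (Ioc m₀ m₁) := by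
      rw [Finset.disjoint_left]
      intro k hk hk'
      rw [Finset.mem_Icc] at hk
      rw [Finset.mem_Ioc] at hk'
      omega
    rw [hS]
    simp only
    rw [← hm₀, ← hm₁, e1, Finset.sum_union e2]
    ring
  -- the prime powers
  have hRle : ∀ k ∈ Ioc m₀ m₁, R k ≤ (if k ∈ Q then Real.log (2 * Z) else 0) +
      (if ¬ k.Prime then ArithmeticFunction.vonMangoldt k else 0) := by
    intro k hk
    have hk' := Finset.mem_Ioc.mp hk
    by_cases hp : k.Prime
    · have hnp : ¬ ¬ k.Prime := not_not.mpr hp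
      rw [if_neg hnp, add_zero]
      by_cases hkr : k ≡ r [MOD d]
      · rw [if_pos (by rw [hQ, Finset.mem_filter]; exact ⟨hk, hp, hkr⟩)]
        refine (ArithmeticFunction.vonMangoldt.residueClass_le _ _).trans ?_
        rw [ArithmeticFunction.vonMangoldt_apply_prime hp]
        apply Real.log_le_log (by exact_mod_cast hp.pos)
        have : (k : ℝ) ≤ m₁ := by exact_mod_cast hk'.2
        linarith
      · have h0 : R k = 0 := by
          rw [hR]
          apply Set.indicator_of_notMem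
          simp only [Set.mem_ofPred_eq]
          intro hcon
          exact hkr ((ZMod.natCast_eq_natCast_iff _ _ _).mp hcon)
        rw [h0]
        split_ifs
        · exact Real.log_nonneg (by linarith)
        · exact le_rfl
    · rw [if_pos hp]
      have h0 := ArithmeticFunction.vonMangoldt.residueClass_le (r : ZMod d) k
      have h2 : 0 ≤ (if k ∈ Q then Real.log (2 * Z) else 0) := by
        split_ifs
        · exact Real.log_nonneg (by linarith)
        · exact le_rfl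
      linarith
  have hpp : ∑ k ∈ Ioc m₀ m₁, (if ¬ k.Prime then ArithmeticFunction.vonMangoldt k else 0) ≤
      c * (ε / 8) * Z := by
    rw [← Finset.sum_filter]
    have h4 := Chebyshev.psi_sub_theta_eq_sum_not_prime (m₁ : ℝ)
    have h5 := Chebyshev.psi_sub_theta_le (x := (m₁ : ℝ)) (by exact_mod_cast hm1')
    rw [h4, Nat.floor_natCast] at h5
    have h6 : ∑ k ∈ (Ioc m₀ m₁).filter (fun k => ¬ k.Prime), ArithmeticFunction.vonMangoldt k ≤
        ∑ n ∈ (Ioc 0 m₁).filter (fun n => ¬ n.Prime), ArithmeticFunction.vonMangoldt n := by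
      apply Finset.sum_le_sum_of_subset_of_nonneg
      · intro n hn
        rw [mem_filter, mem_Ioc] at hn ⊢
        exact ⟨⟨by omega, hn.1.2⟩, hn.2⟩
      · intro n _ _
        exact ArithmeticFunction.vonMangoldt_nonneg
    refine h6.trans (h5.trans ?_)
    have h7 : √(m₁ : ℝ) ≤ 2 * Z ^ (1 / 2 : ℝ) := by
      rw [← Real.sqrt_eq_rpow]
      calc √(m₁ : ℝ) ≤ √(2 ^ 2 * Z) := Real.sqrt_le_sqrt (by linarith)
        _ = 2 * √Z := by rw [Real.sqrt_mul (by norm_num), Real.sqrt_sq (by norm_num)]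
    have h8 : Real.log (m₁ : ℝ) ≤ Z ^ (1 / 4 : ℝ) := by
      refine le_trans ?_ a3.2
      apply Real.log_le_log _ hm1
      exact_mod_cast hm1'
    have h9 : 0 ≤ Real.log (m₁ : ℝ) := Real.log_nonneg (by exact_mod_cast hm1')
    calc 2 * √(m₁ : ℝ) * Real.log m₁ ≤ 2 * (2 * Z ^ (1 / 2 : ℝ)) * Z ^ (1 / 4 : ℝ) := by gcongr
      _ = 4 * (Z ^ (1 / 2 : ℝ) * Z ^ (1 / 4 : ℝ)) := by ring
      _ = 4 * Z ^ (3 / 4 : ℝ) := by rw [← Real.rpow_add hZ0]; norm_num
      _ = c * (ε / 8) * (4 / (c * (ε / 8)) * Z ^ (3 / 4 : ℝ)) := by field_simp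
      _ ≤ c * (ε / 8) * Z := by gcongr
  have htot : c * (5 / 8 * ε) * Z ≤ Q.card * Real.log (2 * Z) + c * (ε / 8) * Z := by
    rw [hsum] at hdiff
    refine hdiff.trans ((Finset.sum_le_sum hRle).trans ?_)
    rw [Finset.sum_add_distrib]
    apply add_le_add _ hpp
    have hQQ : (Ioc m₀ m₁).filter (fun k => k ∈ Q) = Q := by
      ext k
      rw [Finset.mem_filter, hQ, Finset.mem_filter]
      tauto
    rw [← Finset.sum_filter, Finset.sum_const, nsmul_eq_mul, hQQ]
  have hfin : c * ε / 2 * Z ≤ Q.card * Real.log (2 * Z) := by linarith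
  have hlogpos : 0 ≤ Real.log (2 * Z) := Real.log_nonneg (by linarith)
  have h10 : Z ^ (1 - ι) * Z ^ (ι / 2) ≤ Q.card * Z ^ (ι / 2) := by
    calc Z ^ (1 - ι) * Z ^ (ι / 2) = Z ^ (1 - ι / 2) := by
          rw [← Real.rpow_add hZ0]; congr 1; ring
      _ = c * ε / 4 * (4 / (c * ε) * Z ^ (1 - ι / 2)) := by field_simp
      _ ≤ c * ε / 4 * Z := by gcongr
      _ ≤ c * ε / 2 * Z := by
          have : 0 ≤ c * ε * Z := by positivity
          linarith
      _ ≤ Q.card * Real.log (2 * Z) := hfin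
      _ ≤ Q.card * Z ^ (ι / 2) := by
          apply mul_le_mul_of_nonneg_left a3.1 (Nat.cast_nonneg _)
  exact le_of_mul_le_mul_right h10 (by positivity)

end Pool.Agent.TH915.PW
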