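import Pool.Agent.TH915.PW.Exp
import Pool.Agent.TH915.PW.Disc

set_option autoImplicit false

/-!
Exponential sums with a polynomial phase: the derivative of order `k + 1` is constant.
-/

namespace Pool.Agent.TH915.PW

open Finset
open Pool.Agent.H469R2.NK (e norm_e e_add conj_e vdcH kusmin_landau_anti norm_sum_neg Av Av_le
  Cq Cq_pos iterate)

/-- sums with constant differences -/
lemma norm_linear (x : ℕ → ℝ) (N : ℕ) (c δ : ℝ) (hδ : 0 < δ) (h1 : δ ≤ Int.fract c)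
    (h2 : Int.fract c ≤ 1 - δ) (hx : ∀ n < N, x (n + 1) - x n = c) :
    ‖∑ n ∈ range N, e (x n)‖ ≤ 2 / δ := by
  have h3 : ∀ n ∈ range N, e (x n) = e (x n - n * ⌊c⌋) := by
    intro n _
    have : x n = (x n - n * ⌊c⌋) + ((n * ⌊c⌋ : ℤ) : ℝ) := by push_cast; ring
    conv_lhs => rw [this]
    rw [e_add, e_int, mul_one]
  rw [sum_congr rfl h3]
  have hfl : (⌊c⌋ : ℝ) + Int.fract c = c := Int.floor_add_fract c
  apply kusmin_landau_anti (fun n => x n - n * ⌊c⌋) N hδ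
  · intro n hn
    have := hx n hn
    push_cast
    linarith
  · intro n hn
    have := hx n hn
    push_cast
    linarith
  · intro n hn
    have a1 := hx n (by omega)
    have a2 := hx (n + 1) hn
    rw [show n + 1 + 1 = n + 2 by ring] at a2
    push_cast
    linarith

lemma SD_const {k : ℕ} {A B c : ℝ} {φ : ℕ → ℝ → ℝ} (h : Hy k A B c c φ) (u : ℝ) (L : ℕ)
    (hu : A ≤ u) (huL : u + L ≤ B) (ls : List ℕ) (hk : ls.length = k) (δ : ℝ) (hδ : 0 < δ)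
    (h1 : δ ≤ Int.fract (((ls.prod : ℕ) : ℝ) * c)) (h2 : Int.fract (((ls.prod : ℕ) : ℝ) * c) ≤ 1 - δ) :
    ‖SD φ 1 u L ls‖ ≤ 2 / δ := by
  unfold SD
  apply norm_linear (fun n => 1 * ED φ ls 0 (u + n)) (L - ls.sum) _ δ hδ h1 h2
  intro n hn
  have hn0 : (0 : ℝ) ≤ n := Nat.cast_nonneg n
  have hend : u + (n : ℝ) + ((1 :: ls).sum : ℕ) ≤ B := by
    rw [List.sum_cons]
    have h3 : n + (1 + ls.sum) ≤ L := by omega
    have h4 : ((n + (1 + ls.sum) : ℕ) : ℝ) ≤ L := by exact_mod_cast h3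
    push_cast at h4 ⊢
    linarith
  obtain ⟨ξ, hξ, h3⟩ := ED_mvt h (1 :: ls) 0 (u + (n : ℝ))
    (by rw [List.length_cons]; omega) (by linarith) hend
  have hξ' : ξ ∈ Set.Icc A B := ⟨by linarith [hξ.1], by linarith [hξ.2]⟩
  simp only [List.prod_cons, one_mul, List.length_cons, zero_add, hk] at h3
  have h4 : φ (k + 1) ξ = c := le_antisymm (h.hi ξ hξ') (h.lo ξ hξ')
  rw [h4] at h3
  rw [← h3]
  simp only [ED, one_mul]
  push_cast
  rw [show u + n + 1 = u + (n + 1) by ring]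

/-- The exponential sum bound for polynomial phases. -/
theorem exp_boundC {k : ℕ} {A B c : ℝ} {φ : ℕ → ℝ → ℝ} (h : Hy k A B c c φ) (u : ℝ)
    (N L H : ℕ) (hN : 1 ≤ N) (hL : L ≤ N) (hu : A ≤ u) (huL : u + L ≤ B) (hH : 1 ≤ H)
    (hHN : H ≤ N) (δ : ℝ) (hδ : 0 < δ)
    (hfr : ∀ P : ℕ, 1 ≤ P → P ≤ H ^ k → δ ≤ Int.fract ((P : ℝ) * c) ∧
      Int.fract ((P : ℝ) * c) ≤ 1 - δ) :
    (‖∑ n ∈ range L, e (φ 0 (u + n))‖ / N) ^ (2 ^ k) ≤
      Cq k * (1 / H + 2 * (H : ℝ) ^ k / (δ * N)) := by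
  have hN' : (1 : ℝ) ≤ N := by exact_mod_cast hN
  have hH' : (1 : ℝ) ≤ H := by exact_mod_cast hH
  have hL' : (L : ℝ) ≤ N := by exact_mod_cast hL
  have hHN' : (H : ℝ) ≤ N := by exact_mod_cast hHN
  have hstep : ∀ ls : List ℕ, (‖SD φ 1 u L ls‖ / N) ^ 2 ≤
      2 / H + 4 * ((∑ l ∈ Ico 1 H, ‖SD φ 1 u L (l :: ls)‖ / N) / H) := by
    intro ls
    have h := SD_sq φ 1 u L H ls
    set Sg := ∑ l ∈ Ico 1 H, ‖SD φ 1 u L (l :: ls)‖ with hSg
    have hSg0 : 0 ≤ Sg := sum_nonneg fun _ _ => norm_nonneg _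
    have h2 : (H : ℝ) * ‖SD φ 1 u L ls‖ ^ 2 ≤ (2 * N) * (N + 2 * Sg) := by
      refine h.trans ?_
      have : (L : ℝ) + H ≤ 2 * N := by linarith
      gcongr
    rw [← sum_div, ← hSg]
    have e1 : 2 / (H : ℝ) + 4 * (Sg / N / H) = ((2 * N) * (N + 2 * Sg)) / (H * N ^ 2) := by
      field_simp
      ring
    rw [e1, div_pow, div_le_div_iff₀ (by positivity) (by positivity)]
    calc ‖SD φ 1 u L ls‖ ^ 2 * (H * N ^ 2) = ((H : ℝ) * ‖SD φ 1 u L ls‖ ^ 2) * N ^ 2 := by ring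
      _ ≤ _ := by gcongr
  have hit := iterate hH (fun ls => ‖SD φ 1 u L ls‖ / N) (fun ls => by positivity) hstep k []
  have hSS : ∑ n ∈ range L, e (φ 0 (u + n)) = SD φ 1 u L [] := by
    unfold SD
    simp only [List.sum_nil, Nat.sub_zero, one_mul]
    rfl
  rw [hSS]
  refine hit.trans ?_
  have hC := Cq_pos k
  gcongr
  have h1 := Av_le (H := H) (T := fun ls => ‖SD φ 1 u L ls‖ / N)
    (κ := 2 * (H : ℝ) ^ k / (δ * N)) k (by
      intro ls hlen hent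
      have hpos : 0 < ls.prod := List.prod_pos fun l hl => (hent l hl).1
      have hle : ls.prod ≤ H ^ k := by
        have := List.prod_le_pow_card ls H (fun l hl => (hent l hl).2.le)
        rwa [hlen] at this
      have hle' : ((ls.prod : ℕ) : ℝ) ≤ (H : ℝ) ^ k := by exact_mod_cast hle
      obtain ⟨f1, f2⟩ := hfr ls.prod hpos hle
      have h1 := SD_const h u L hu huL ls hlen δ hδ f1 f2
      have hP : (0 : ℝ) < (ls.prod : ℕ) := by exact_mod_cast hpos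
      rw [le_div_iff₀ hP]
      calc ‖SD φ 1 u L ls‖ / N * (ls.prod : ℕ) ≤ (2 / δ) / N * (H : ℝ) ^ k := by
            gcongr
        _ = _ := by field_simp) k [] (by simp) (by simp)
  have h2 : (∑ l ∈ Ico 1 H, (1 : ℝ) / l) / H ≤ 1 := by
    rw [div_le_one (by linarith)]
    have : ∑ l ∈ Ico 1 H, (1 : ℝ) / l ≤ ∑ l ∈ Ico 1 H, (1 : ℝ) := by
      apply Finset.sum_le_sum
      intro l hl
      rw [mem_Ico] at hl
      rw [div_le_one (by exact_mod_cast hl.1)]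
      exact_mod_cast hl.1
    refine this.trans ?_
    rw [sum_const, nsmul_eq_mul, mul_one, Nat.card_Ico]
    exact_mod_cast Nat.sub_le _ _
  have h3 : ((∑ l ∈ Ico 1 H, (1 : ℝ) / l) / H) ^ k ≤ 1 := by
    apply pow_le_one₀ _ h2
    positivity
  have h4 : 0 ≤ 2 * (H : ℝ) ^ k / (δ * N) := by positivity
  calc Av H (fun ls => ‖SD φ 1 u L ls‖ / N) k [] ≤
        2 * (H : ℝ) ^ k / (δ * N) * ((∑ l ∈ Ico 1 H, (1 : ℝ) / l) / H) ^ k /
          (([] : List ℕ).prod : ℕ) := h1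
    _ = 2 * (H : ℝ) ^ k / (δ * N) * ((∑ l ∈ Ico 1 H, (1 : ℝ) / l) / H) ^ k := by simp
    _ ≤ 2 * (H : ℝ) ^ k / (δ * N) * 1 := by gcongr
    _ = _ := by ring

end Pool.Agent.TH915.PW
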