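import Pool.Agent.TH915.PW.IntCrit
import Pool.Agent.TH915.PW.ExpC

set_option autoImplicit false

/-! Record gaps around integers `n` with `α n` very close to `β` modulo one. -/

namespace Pool.Agent.TH915.PW

open Finset Filter
open Pool.Agent.H469R2.NK (e norm_e e_add)
open Pool.Agent.W147.PS (ff ff_compare ev_pow)

/-- distance to the nearest integer -/
noncomputable def nrm (x : ℝ) : ℝ := |x - round x|

lemma nrm_le (x : ℝ) (p : ℤ) : nrm x ≤ |x - p| := round_le x p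

/-- two independent good approximations -/
lemma pair (α : ℝ) (N : ℕ) (hN : 1 ≤ N) (δ : ℝ) (hδ0 : 0 < δ)
    (hδ : ∀ q : ℕ, 1 ≤ q → q ≤ N → ∀ p : ℤ, δ ≤ |(q : ℝ) * α - p|) :
    ∃ (s₁ s₂ : ℕ) (p₁ p₂ : ℤ), 1 ≤ s₁ ∧ (s₁ : ℝ) ≤ 1 / δ ∧ 1 ≤ s₂ ∧ (s₂ : ℝ) ≤ 1 / δ ∧
      |(s₁ : ℝ) * α - p₁| ≤ 1 / N ∧ |(s₂ : ℝ) * α - p₂| ≤ 1 / N ∧
      ((s₁ : ℤ) * p₂ - s₂ * p₁ = 1 ∨ (s₁ : ℤ) * p₂ - s₂ * p₁ = -1) := by
  have hN0 : (0 : ℝ) < N := by exact_mod_cast hN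
  obtain ⟨s₁, hs₁, hmin⟩ := exists_min_image (Icc 1 N) (fun q : ℕ => nrm (q * α))
    ⟨1, mem_Icc.2 ⟨le_rfl, hN⟩⟩
  rw [mem_Icc] at hs₁
  set p₁ : ℤ := round ((s₁ : ℝ) * α) with hp₁
  set η₁ : ℝ := |(s₁ : ℝ) * α - p₁| with hη₁
  have hη₁δ : δ ≤ η₁ := hδ s₁ hs₁.1 hs₁.2 p₁
  have hη₁0 : 0 < η₁ := hδ0.trans_le hη₁δ
  have hmin' : ∀ q : ℕ, 1 ≤ q → q ≤ N → ∀ p : ℤ, η₁ ≤ |(q : ℝ) * α - p| := by
    intro q h1 h2 p
    exact (hmin q (mem_Icc.2 ⟨h1, h2⟩)).trans (nrm_le _ _)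
  have hη₁N : η₁ ≤ 1 / (N + 1) := by
    obtain ⟨j, k, hk0, hkN, hjk⟩ := Real.exists_int_int_abs_mul_sub_le α (n := N) hN
    have hk : ((k.toNat : ℕ) : ℤ) = k := Int.toNat_of_nonneg hk0.le
    have := hmin' k.toNat (by omega) (by omega) j
    have hk' : ((k.toNat : ℕ) : ℝ) = (k : ℝ) := by exact_mod_cast hk
    rw [hk'] at this
    exact this.trans hjk
  have hη₁N' : η₁ ≤ 1 / N := by
    refine hη₁N.trans ?_
    gcongr
    linarith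
  set N' : ℕ := ⌊1 / η₁⌋₊ with hN'
  have hN'1 : (N' : ℝ) ≤ 1 / η₁ := Nat.floor_le (by positivity)
  have hN'2 : 1 / η₁ < N' + 1 := Nat.lt_floor_add_one _
  have hNN' : (N : ℝ) + 1 ≤ 1 / η₁ := by
    rw [le_div_iff₀ hη₁0]
    rw [le_div_iff₀ (by positivity)] at hη₁N
    linarith
  have hNN'' : N < N' := by
    have : (N : ℝ) < N' := by linarith
    exact_mod_cast this
  obtain ⟨p₂, k, hk0, hkN, hjk⟩ := Real.exists_int_int_abs_mul_sub_le α (n := N') (by omega)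
  have hk : ((k.toNat : ℕ) : ℤ) = k := Int.toNat_of_nonneg hk0.le
  have hk' : ((k.toNat : ℕ) : ℝ) = (k : ℝ) := by exact_mod_cast hk
  set s₂ : ℕ := k.toNat with hs₂
  rw [← hk'] at hjk
  have hs₂1 : 1 ≤ s₂ := by omega
  have hs₂N : s₂ ≤ N' := by omega
  have hs₂N' : (s₂ : ℝ) ≤ N' := by exact_mod_cast hs₂N
  have hη₂ : |(s₂ : ℝ) * α - p₂| < η₁ := by
    refine hjk.trans_lt ?_
    rw [div_lt_iff₀ (by positivity)]
    rw [div_lt_iff₀ hη₁0] at hN'2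
    linarith
  have h1δ : 1 / η₁ ≤ 1 / δ := by gcongr
  have hs₁N : (s₁ : ℝ) ≤ N := by exact_mod_cast hs₁.2
  have hs₁0 : (0 : ℝ) < s₁ := by exact_mod_cast hs₁.1
  have hs₂0 : (0 : ℝ) < s₂ := by exact_mod_cast hs₂1
  refine ⟨s₁, s₂, p₁, p₂, hs₁.1, by linarith, hs₂1, by linarith, hη₁N', (hη₂.le.trans hη₁N'), ?_⟩
  -- the determinant
  have hdet : (((s₁ : ℤ) * p₂ - s₂ * p₁ : ℤ) : ℝ) =
      s₂ * ((s₁ : ℝ) * α - p₁) - s₁ * ((s₂ : ℝ) * α - p₂) := by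
    push_cast; ring
  have hlt : |(((s₁ : ℤ) * p₂ - s₂ * p₁ : ℤ) : ℝ)| < 2 := by
    rw [hdet]
    have e1 : |(s₂ : ℝ) * ((s₁ : ℝ) * α - p₁)| ≤ 1 := by
      rw [abs_mul, abs_of_pos hs₂0, ← hη₁]
      calc (s₂ : ℝ) * η₁ ≤ 1 / η₁ * η₁ := by gcongr; linarith
        _ = 1 := by field_simp
    have e2 : |(s₁ : ℝ) * ((s₂ : ℝ) * α - p₂)| < 1 := by
      rw [abs_mul, abs_of_pos hs₁0]
      calc (s₁ : ℝ) * |(s₂ : ℝ) * α - p₂| < s₁ * η₁ := by gcongr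
        _ ≤ N * (1 / N) := by gcongr
        _ = 1 := by field_simp
    have := abs_sub ((s₂ : ℝ) * ((s₁ : ℝ) * α - p₁)) ((s₁ : ℝ) * ((s₂ : ℝ) * α - p₂))
    linarith
  have hne : (s₁ : ℤ) * p₂ - s₂ * p₁ ≠ 0 := by
    intro h0
    rw [h0] at hdet
    have e1 : (s₂ : ℝ) * η₁ = s₁ * |(s₂ : ℝ) * α - p₂| := by
      rw [hη₁, ← abs_of_pos hs₂0, ← abs_of_pos hs₁0, ← abs_mul, ← abs_mul, abs_of_pos hs₂0,
        abs_of_pos hs₁0]
      congr 1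
      push_cast at hdet
      linarith
    have e2 : (s₂ : ℝ) < s₁ := by
      by_contra hcon
      push Not at hcon
      have : (s₁ : ℝ) * |(s₂ : ℝ) * α - p₂| < s₂ * η₁ := by
        calc (s₁ : ℝ) * |(s₂ : ℝ) * α - p₂| < s₁ * η₁ := by gcongr
          _ ≤ s₂ * η₁ := by gcongr
      linarith
    have e3 : s₂ < s₁ := by exact_mod_cast e2
    have := hmin' s₂ hs₂1 (by omega) p₂
    linarith
  have h3 : |(s₁ : ℤ) * p₂ - s₂ * p₁| < 2 := by exact_mod_cast hlt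
  rw [abs_lt] at h3
  omega

lemma geom_le (q : ℕ) (hq : 1 ≤ q) (a : ℤ) (ha : ¬ (q : ℤ) ∣ a) (T : ℕ) :
    ‖∑ t ∈ range T, e ((t : ℝ) * ((a : ℝ) / q))‖ ≤ 2 * q := by
  have hq0 : (0 : ℝ) < q := by exact_mod_cast hq
  have hqi : (0 : ℤ) < q := by exact_mod_cast hq
  set m : ℤ := a / q with hm
  set r : ℤ := a % q with hr
  have hr0 : 0 ≤ r := Int.emod_nonneg _ hqi.ne'
  have hr1 : r < q := Int.emod_lt_of_pos _ hqi
  have hrne : r ≠ 0 := fun h => ha (Int.dvd_of_emod_eq_zero h)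
  have hr2 : (1 : ℝ) ≤ r := by
    have : 1 ≤ r := by omega
    exact_mod_cast this
  have hr3 : (r : ℝ) + 1 ≤ q := by
    have : r + 1 ≤ q := by omega
    exact_mod_cast this
  have hdm : (q : ℤ) * m + r = a := Int.mul_ediv_add_emod _ _
  have hfr : Int.fract ((a : ℝ) / q) = (r : ℝ) / q := by
    rw [Int.fract_eq_iff]
    refine ⟨by positivity, (div_lt_one hq0).2 (by linarith), m, ?_⟩
    rw [← hdm]
    push_cast
    field_simp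
    ring
  have := norm_linear (fun t => t * ((a : ℝ) / q)) T ((a : ℝ) / q) (1 / q) (by positivity)
    (by rw [hfr]; gcongr) (by
      rw [hfr, le_sub_iff_add_le, ← add_div, div_le_one hq0]
      exact hr3) (fun n _ => by push_cast; ring)
  refine this.trans (le_of_eq ?_)
  field_simp

set_option maxHeartbeats 4000000 in
/-- the uniform theorem -/
theorem bohr_uniform (ε : ℝ) (hε : 0 < ε) (hε1 : ε ≤ 1) : ∃ κ : ℝ, 0 < κ ∧ ∀ᶠ Z : ℝ in atTop,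
    ∀ (α : ℝ) (N : ℕ), 1 ≤ N →
    (∀ q : ℕ, 1 ≤ q → q ≤ N → ∀ p : ℤ, Z ^ (-(1 - ε)) ≤ |(q : ℝ) * α - p|) →
    ∀ M : ℝ, Z ≤ M → ∀ β : ℝ, ∃ n : ℕ, M < n ∧ (n : ℝ) ≤ M + Z ∧
      (∃ m : ℤ, |α * n - β - m| ≤ Z ^ ε / N) ∧ ∀ q : ℕ, q.Prime → κ * ff Z < |(q : ℝ) - n| := by
  classical
  set η : ℝ := ε / 8 with hη
  have hη0 : 0 < η := by positivity
  obtain ⟨κ, hκ, hcrit⟩ := crit_int η hη0 (by linarith)
  refine ⟨κ, hκ, ?_⟩
  filter_upwards [hcrit, eventually_ge_atTop (1 : ℝ), ev_pow (1 - ε + ε / 2) 1 2 (by linarith),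
    ev_pow (ε / 2) ε 2 (by linarith), ev_pow (2 * η) (ε / 2) 4 (by rw [hη]; linarith)]
    with Z hcr hZ1 hZ2 hZ3 hZ4
  intro α N hN hq M hM β
  have hZ0 : 0 < Z := by linarith
  have hN0 : (0 : ℝ) < N := by exact_mod_cast hN
  obtain ⟨s₁, s₂, p₁, p₂, hs₁, hs₁', hs₂, hs₂', hd₁, hd₂, hdet⟩ :=
    pair α N hN (Z ^ (-(1 - ε))) (Real.rpow_pos_of_pos hZ0 _) hq
  have h1d : 1 / Z ^ (-(1 - ε)) = Z ^ (1 - ε) := by
    rw [Real.rpow_neg hZ0.le, one_div, inv_inv]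
  rw [h1d] at hs₁' hs₂'
  set δ₁ : ℝ := (s₁ : ℝ) * α - p₁ with hδ₁
  set δ₂ : ℝ := (s₂ : ℝ) * α - p₂ with hδ₂
  -- the determinant
  obtain ⟨D, hD, hDp⟩ : ∃ D : ℤ, (D = 1 ∨ D = -1) ∧ (s₁ : ℤ) * p₂ - s₂ * p₁ = D := ⟨_, hdet, rfl⟩
  have hDR : (D : ℝ) = s₂ * δ₁ - s₁ * δ₂ := by
    rw [← hDp, hδ₁, hδ₂]; push_cast; ring
  have hD2 : (D : ℝ) * D = 1 := by rcases hD with h | h <;> rw [h] <;> norm_num
  -- the length
  set T : ℕ := ⌊Z ^ (ε / 2)⌋₊ with hT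
  have hTZ : (T : ℝ) ≤ Z ^ (ε / 2) := Nat.floor_le (by positivity)
  have hTZ2 : Z ^ (ε / 2) < T + 1 := Nat.lt_floor_add_one _
  have hZη : 1 ≤ Z ^ (2 * η) := Real.one_le_rpow hZ1 (by positivity)
  have hT1 : 1 ≤ T := by
    have : (1 : ℝ) < T + 1 := by linarith
    have : (0 : ℝ) < T := by linarith
    exact_mod_cast this
  have hT1' : (1 : ℝ) ≤ T := by exact_mod_cast hT1
  have hTη : 2 * Z ^ (2 * η) ≤ T := by linarith
  -- the base point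
  set x₁ : ℝ := D * (β * s₂ - M * δ₂) with hx₁
  set x₂ : ℝ := D * (M * δ₁ - β * s₁) with hx₂
  have hxs : x₁ * s₁ + x₂ * s₂ = M := by
    have : x₁ * s₁ + x₂ * s₂ = D * (s₂ * δ₁ - s₁ * δ₂) * M := by rw [hx₁, hx₂]; ring
    rw [this, ← hDR, hD2, one_mul]
  have hxd : x₁ * δ₁ + x₂ * δ₂ = β := by
    have : x₁ * δ₁ + x₂ * δ₂ = D * (s₂ * δ₁ - s₁ * δ₂) * β := by rw [hx₁, hx₂]; ring
    rw [this, ← hDR, hD2, one_mul]
  set y₁ : ℤ := ⌊x₁⌋ + 1 with hy₁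
  set y₂ : ℤ := ⌊x₂⌋ + 1 with hy₂
  have hy₁a : x₁ < y₁ := by rw [hy₁]; push_cast; exact Int.lt_floor_add_one _
  have hy₁b : (y₁ : ℝ) ≤ x₁ + 1 := by
    have := Int.floor_le x₁
    rw [hy₁]; push_cast; linarith
  have hy₂a : x₂ < y₂ := by rw [hy₂]; push_cast; exact Int.lt_floor_add_one _
  have hy₂b : (y₂ : ℝ) ≤ x₂ + 1 := by
    have := Int.floor_le x₂
    rw [hy₂]; push_cast; linarith
  have hs₁0 : (0 : ℝ) < s₁ := by exact_mod_cast hs₁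
  have hs₂0 : (0 : ℝ) < s₂ := by exact_mod_cast hs₂
  set v : ℕ × ℕ → ℤ := fun t => (y₁ + t.1) * s₁ + (y₂ + t.2) * s₂ with hv
  have hvR : ∀ t : ℕ × ℕ, ((v t : ℤ) : ℝ) = ((y₁ : ℝ) + t.1) * s₁ + ((y₂ : ℝ) + t.2) * s₂ := by
    intro t; rw [hv]; push_cast; ring
  have hvlow : ∀ t : ℕ × ℕ, M < v t := by
    intro t
    rw [hvR, ← hxs]
    have h1 : (0 : ℝ) ≤ t.1 := Nat.cast_nonneg _
    have h2 : (0 : ℝ) ≤ t.2 := Nat.cast_nonneg _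
    have h3 : x₁ * s₁ < ((y₁ : ℝ) + t.1) * s₁ := by
      apply mul_lt_mul_of_pos_right _ hs₁0
      linarith
    have h4 : x₂ * s₂ < ((y₂ : ℝ) + t.2) * s₂ := by
      apply mul_lt_mul_of_pos_right _ hs₂0
      linarith
    linarith
  set S : Finset (ℕ × ℕ) := range T ×ˢ range T with hS
  have hScard : (S.card : ℝ) = T * T := by
    rw [hS, card_product, card_range]; push_cast; ring
  obtain ⟨t, ht, ht2⟩ := hcr (ℕ × ℕ) S v ⟨(0, 0), by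
    rw [hS, mem_product, mem_range]; exact ⟨hT1, hT1⟩⟩ (fun t _ => hM.trans (hvlow t).le) (by
    intro q h hqZ hh1 hhq
    have hq1 : 1 ≤ q := by omega
    have hq0 : (0 : ℝ) < q := by exact_mod_cast hq1
    have e1 : ∑ t ∈ S, e ((h : ℝ) / q * v t) =
        e ((h : ℝ) / q * (y₁ * s₁ + y₂ * s₂)) *
          ((∑ t ∈ range T, e ((t : ℝ) * (((h * s₁ : ℤ) : ℝ) / q))) *
            ∑ t ∈ range T, e ((t : ℝ) * (((h * s₂ : ℤ) : ℝ) / q))) := by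
      rw [hS, sum_product, sum_mul_sum, mul_sum]
      refine sum_congr rfl fun a _ => ?_
      rw [mul_sum]
      refine sum_congr rfl fun b _ => ?_
      rw [← e_add, ← e_add, hvR]
      congr 1
      push_cast
      ring
    have hnd : ¬ (q : ℤ) ∣ (h : ℤ) * s₁ ∨ ¬ (q : ℤ) ∣ (h : ℤ) * s₂ := by
      by_contra hcon
      push Not at hcon
      have h1 : (q : ℤ) ∣ h * D := by
        have : (h : ℤ) * D = (h * s₁) * p₂ - (h * s₂) * p₁ := by rw [← hDp]; ring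
        rw [this]
        exact dvd_sub (Dvd.dvd.mul_right hcon.1 _) (Dvd.dvd.mul_right hcon.2 _)
      have h2 : (q : ℤ) ∣ h := by
        rcases hD with h3 | h3
        · rw [h3, mul_one] at h1; exact h1
        · rw [h3, mul_neg_one, dvd_neg] at h1; exact h1
      have h3 : q ∣ h := by exact_mod_cast h2
      exact absurd (Nat.le_of_dvd (by omega) h3) (by omega)
    have htriv : ∀ a : ℤ, ‖∑ t ∈ range T, e ((t : ℝ) * ((a : ℝ) / q))‖ ≤ T := by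
      intro a
      refine (norm_sum_le _ _).trans ?_
      simp [norm_e]
    have e2 : ‖∑ t ∈ S, e ((h : ℝ) / q * v t)‖ ≤ 2 * q * T := by
      rw [e1, norm_mul, norm_e, one_mul, norm_mul]
      rcases hnd with h1 | h1
      · calc _ ≤ (2 * q) * (T : ℝ) := mul_le_mul (geom_le q hq1 _ h1 T) (htriv _) (norm_nonneg _)
              (by positivity)
          _ = _ := by ring
      · calc _ ≤ (T : ℝ) * (2 * q) := mul_le_mul (htriv _) (geom_le q hq1 _ h1 T) (norm_nonneg _)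
              (by positivity)
          _ = _ := by ring
    refine e2.trans ?_
    have hZη0 : 0 < Z ^ η := Real.rpow_pos_of_pos hZ0 _
    rw [hScard, Real.rpow_neg hZ0.le, ← div_eq_mul_inv, le_div_iff₀ hZη0]
    have e3 : Z ^ η * Z ^ η = Z ^ (2 * η) := by rw [← Real.rpow_add hZ0]; congr 1; ring
    calc 2 * (q : ℝ) * T * Z ^ η ≤ 2 * Z ^ η * T * Z ^ η := by gcongr
      _ = (2 * (Z ^ η * Z ^ η)) * T := by ring
      _ = (2 * Z ^ (2 * η)) * T := by rw [e3]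
      _ ≤ T * T := by gcongr)
  rw [hS, mem_product, mem_range, mem_range] at ht
  have hvpos : 0 < v t := by
    have := hvlow t
    have : (0 : ℝ) < v t := by linarith
    exact_mod_cast this
  have hvn : (((v t).toNat : ℕ) : ℤ) = v t := Int.toNat_of_nonneg hvpos.le
  have hvn' : (((v t).toNat : ℕ) : ℝ) = ((v t : ℤ) : ℝ) := by exact_mod_cast hvn
  have g1 : 0 < (y₁ : ℝ) + t.1 - x₁ ∧ (y₁ : ℝ) + t.1 - x₁ ≤ T := by
    have h1 : (0 : ℝ) ≤ t.1 := Nat.cast_nonneg _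
    have h2 : (t.1 : ℝ) + 1 ≤ T := by exact_mod_cast ht.1
    constructor <;> linarith
  have g2 : 0 < (y₂ : ℝ) + t.2 - x₂ ∧ (y₂ : ℝ) + t.2 - x₂ ≤ T := by
    have h1 : (0 : ℝ) ≤ t.2 := Nat.cast_nonneg _
    have h2 : (t.2 : ℝ) + 1 ≤ T := by exact_mod_cast ht.2
    constructor <;> linarith
  refine ⟨(v t).toNat, ?_, ?_, ⟨(y₁ + t.1) * p₁ + (y₂ + t.2) * p₂, ?_⟩, ?_⟩
  · rw [hvn']; exact hvlow t
  · rw [hvn', hvR]
    have h1 : ((y₁ : ℝ) + t.1) * s₁ + ((y₂ : ℝ) + t.2) * s₂ - M =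
        ((y₁ : ℝ) + t.1 - x₁) * s₁ + ((y₂ : ℝ) + t.2 - x₂) * s₂ := by rw [← hxs]; ring
    have h2 : ((y₁ : ℝ) + t.1 - x₁) * s₁ ≤ Z ^ (ε / 2) * Z ^ (1 - ε) :=
      mul_le_mul (g1.2.trans hTZ) hs₁' hs₁0.le (by positivity)
    have h3 : ((y₂ : ℝ) + t.2 - x₂) * s₂ ≤ Z ^ (ε / 2) * Z ^ (1 - ε) :=
      mul_le_mul (g2.2.trans hTZ) hs₂' hs₂0.le (by positivity)
    have h4 : Z ^ (ε / 2) * Z ^ (1 - ε) = Z ^ (1 - ε + ε / 2) := by
      rw [← Real.rpow_add hZ0]; congr 1; ring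
    rw [Real.rpow_one] at hZ2
    linarith
  · rw [hvn', hvR]
    have h1 : α * (((y₁ : ℝ) + t.1) * s₁ + ((y₂ : ℝ) + t.2) * s₂) - β -
        (((y₁ + t.1) * p₁ + (y₂ + t.2) * p₂ : ℤ) : ℝ) =
        ((y₁ : ℝ) + t.1 - x₁) * δ₁ + ((y₂ : ℝ) + t.2 - x₂) * δ₂ := by
      rw [← hxd, hδ₁, hδ₂]; push_cast; ring
    rw [h1]
    refine (abs_add_le _ _).trans ?_
    rw [abs_mul, abs_mul, abs_of_pos g1.1, abs_of_pos g2.1]
    calc _ ≤ (T : ℝ) * (1 / N) + T * (1 / N) := by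
          gcongr
          · exact g1.2
          · exact g2.2
      _ = 2 * T / N := by ring
      _ ≤ Z ^ ε / N := by
          gcongr
          linarith
  · intro q hq
    rw [hvn']
    exact ht2 q hq

end Pool.Agent.TH915.PW
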