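import Pool.Agent.TH915.PW.Bohr

set_option autoImplicit false

/-! Choice of the parameters in `bohr_uniform`. -/

namespace Pool.Agent.TH915.PW

open Finset Filter
open Pool.Agent.W147.PS (ff ff_compare ev_pow)

/-- arbitrarily large `N` with `‖q α‖ ≥ 1 / (4 N)` for all `q ≤ N` -/
lemma bad_N (α : ℝ) (hα : Irrational α) (N₁ : ℕ) (hN₁ : 1 ≤ N₁) :
    ∃ N : ℕ, N₁ ≤ N ∧ ∀ q : ℕ, 1 ≤ q → q ≤ N → ∀ p : ℤ, 1 / (4 * N : ℝ) ≤ |(q : ℝ) * α - p| := by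
  classical
  obtain ⟨s₁, hs₁, hmin⟩ := exists_min_image (Icc 1 N₁) (fun q : ℕ => nrm (q * α))
    ⟨1, mem_Icc.2 ⟨le_rfl, hN₁⟩⟩
  rw [mem_Icc] at hs₁
  set p₁ : ℤ := round ((s₁ : ℝ) * α) with hp₁
  set η₁ : ℝ := |(s₁ : ℝ) * α - p₁| with hη₁
  have hs₁0 : (0 : ℝ) < s₁ := by exact_mod_cast hs₁.1
  have hη₁0 : 0 < η₁ := by
    rw [hη₁, abs_pos, sub_ne_zero]
    have := hα.natCast_mul (m := s₁) (by omega)
    exact this.ne_int p₁
  have hmin' : ∀ q : ℕ, 1 ≤ q → q ≤ N₁ → ∀ p : ℤ, η₁ ≤ |(q : ℝ) * α - p| := by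
    intro q h1 h2 p
    exact (hmin q (mem_Icc.2 ⟨h1, h2⟩)).trans (nrm_le _ _)
  -- the least `q` with `‖q α‖ < η₁`
  have hex : ∃ q : ℕ, 1 ≤ q ∧ ∃ p : ℤ, |(q : ℝ) * α - p| < η₁ := by
    set N' : ℕ := ⌊1 / η₁⌋₊ with hN'
    have hN'2 : 1 / η₁ < N' + 1 := Nat.lt_floor_add_one _
    have hη₁1 : η₁ ≤ 1 / 2 := by
      rw [hη₁, hp₁]; exact abs_sub_round _
    have hN'1 : 1 ≤ N' := by
      rw [hN']
      apply Nat.le_floor
      rw [Nat.cast_one, le_div_iff₀ hη₁0]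
      linarith
    obtain ⟨p₂, k, hk0, hkN, hjk⟩ := Real.exists_int_int_abs_mul_sub_le α (n := N') (by omega)
    have hk : ((k.toNat : ℕ) : ℤ) = k := Int.toNat_of_nonneg hk0.le
    have hk' : ((k.toNat : ℕ) : ℝ) = (k : ℝ) := by exact_mod_cast hk
    refine ⟨k.toNat, by omega, p₂, ?_⟩
    rw [hk']
    refine hjk.trans_lt ?_
    rw [div_lt_iff₀ (by positivity)]
    rw [div_lt_iff₀ hη₁0] at hN'2
    linarith
  set Q : ℕ := Nat.find hex with hQ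
  obtain ⟨hQ1, p₂, hp₂⟩ := Nat.find_spec hex
  rw [← hQ] at hQ1 hp₂
  have hQmin : ∀ q : ℕ, 1 ≤ q → q < Q → ∀ p : ℤ, η₁ ≤ |(q : ℝ) * α - p| := by
    intro q h1 h2 p
    by_contra hcon
    push Not at hcon
    exact Nat.find_min hex h2 ⟨h1, p, hcon⟩
  have hQN : N₁ < Q := by
    by_contra hcon
    push Not at hcon
    have := hmin' Q hQ1 hcon p₂
    linarith
  have hQN' : (N₁ : ℝ) + 1 ≤ Q := by exact_mod_cast hQN
  have hs₁N : (s₁ : ℝ) ≤ N₁ := by exact_mod_cast hs₁.2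
  have hQ0 : (0 : ℝ) < Q := by linarith
  -- the determinant
  have hdet : (((s₁ : ℤ) * p₂ - Q * p₁ : ℤ) : ℝ) =
      Q * ((s₁ : ℝ) * α - p₁) - s₁ * ((Q : ℝ) * α - p₂) := by
    push_cast; ring
  have hne : (s₁ : ℤ) * p₂ - Q * p₁ ≠ 0 := by
    intro h0
    rw [h0] at hdet
    have e1 : (Q : ℝ) * η₁ = s₁ * |(Q : ℝ) * α - p₂| := by
      rw [hη₁, ← abs_of_pos hQ0, ← abs_of_pos hs₁0, ← abs_mul, ← abs_mul, abs_of_pos hQ0,
        abs_of_pos hs₁0]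
      congr 1
      push_cast at hdet
      linarith
    have : (s₁ : ℝ) * |(Q : ℝ) * α - p₂| < Q * η₁ := by
      calc (s₁ : ℝ) * |(Q : ℝ) * α - p₂| < s₁ * η₁ := by gcongr
        _ ≤ Q * η₁ := by gcongr; linarith
    linarith
  have h1 : (1 : ℝ) ≤ |(((s₁ : ℤ) * p₂ - Q * p₁ : ℤ) : ℝ)| := by
    have : 1 ≤ |(s₁ : ℤ) * p₂ - Q * p₁| := Int.one_le_abs hne
    exact_mod_cast this
  have h2 : 1 ≤ 2 * Q * η₁ := by
    rw [hdet] at h1
    have := abs_sub ((Q : ℝ) * ((s₁ : ℝ) * α - p₁)) (s₁ * ((Q : ℝ) * α - p₂))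
    rw [abs_mul (Q : ℝ), abs_mul (s₁ : ℝ), abs_of_pos hQ0, abs_of_pos hs₁0, ← hη₁] at this
    have e2 : (s₁ : ℝ) * |(Q : ℝ) * α - p₂| ≤ Q * η₁ := by
      gcongr
      linarith
    linarith
  refine ⟨Q - 1, by omega, fun q hq1 hq2 p => ?_⟩
  have h3 := hQmin q hq1 (by omega) p
  refine le_trans ?_ h3
  have h4 : ((Q - 1 : ℕ) : ℝ) = Q - 1 := by
    rw [Nat.cast_sub (by omega), Nat.cast_one]
  have h5 : (1 : ℝ) ≤ N₁ := by exact_mod_cast hN₁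
  rw [h4, div_le_iff₀ (by linarith)]
  nlinarith

/-- `n` with `α n` close to `β` modulo one and no prime close to `n` -/
def Close (κ α ρ Z : ℝ) : Prop :=
  ∀ M : ℝ, Z ≤ M → ∀ β : ℝ, ∃ n : ℕ, M < n ∧ (n : ℝ) ≤ M + Z ∧
      (∃ m : ℤ, |α * n - β - m| ≤ Z ^ (-ρ)) ∧ ∀ q : ℕ, q.Prime → κ * ff Z < |(q : ℝ) - n|

lemma close_of_le (κ α ρ Z : ℝ) (h : ∀ M : ℝ, Z ≤ M → ∀ β : ℝ, ∃ n : ℕ, M < n ∧ (n : ℝ) ≤ M + Z ∧
      (∃ m : ℤ, |α * n - β - m| ≤ ρ) ∧ ∀ q : ℕ, q.Prime → κ * ff Z < |(q : ℝ) - n|)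
    (ρ' : ℝ) (hρ : ρ ≤ Z ^ (-ρ')) : Close κ α ρ' Z := by
  intro M hM β
  obtain ⟨n, h1, h2, ⟨m, h3⟩, h4⟩ := h M hM β
  exact ⟨n, h1, h2, ⟨m, h3.trans hρ⟩, h4⟩

theorem bohr_main (ε : ℝ) (hε : 0 < ε) (hε1 : ε ≤ 1) : ∃ κ : ℝ, 0 < κ ∧
    (∀ α : ℝ, Irrational α → ∃ᶠ Z : ℝ in atTop, Close κ α (1 - ε) Z) ∧
    ∀ α μ C : ℝ, 1 ≤ μ → 0 < C →
      (∀ q : ℕ, 1 ≤ q → ∀ p : ℤ, C * (q : ℝ) ^ (-μ) ≤ |(q : ℝ) * α - p|) →
      ∀ᶠ Z : ℝ in atTop, Close κ α (1 / μ - ε) Z := by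
  classical
  set δ : ℝ := ε / 4 with hδ
  have hδ0 : 0 < δ := by positivity
  obtain ⟨κ, hκ, hB⟩ := bohr_uniform δ hδ0 (by linarith)
  refine ⟨κ, hκ, ?_, ?_⟩
  · intro α hα
    rw [frequently_atTop]
    intro Z₀
    -- all large `Z` are fine
    obtain ⟨Z₁, hZ₁⟩ := eventually_atTop.1 (hB.and ((eventually_ge_atTop (1 : ℝ)).and
      (ev_pow 0 δ 4 (by linarith))))
    obtain ⟨N₁, hN₁⟩ := exists_nat_ge (max Z₀ (max Z₁ 1))
    have hN₁1 : 1 ≤ N₁ := by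
      have : (1 : ℝ) ≤ N₁ := ((le_max_right _ _).trans (le_max_right _ _)).trans hN₁
      exact_mod_cast this
    obtain ⟨N, hNN, hN⟩ := bad_N α hα N₁ hN₁1
    have hNN' : (N₁ : ℝ) ≤ N := by exact_mod_cast hNN
    have hN1 : (1 : ℝ) ≤ N := by
      have : (1 : ℝ) ≤ N₁ := by exact_mod_cast hN₁1
      linarith
    set Z : ℝ := (4 * N : ℝ) ^ (1 / (1 - δ)) with hZ
    have hδ1 : 0 < 1 - δ := by linarith
    have hZN : (4 * N : ℝ) ≤ Z := by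
      conv_lhs => rw [← Real.rpow_one (4 * N : ℝ)]
      rw [hZ]
      apply Real.rpow_le_rpow_of_exponent_le (by linarith)
      rw [le_div_iff₀ hδ1]
      linarith
    have hZpow : Z ^ (1 - δ) = 4 * N := by
      rw [hZ, ← Real.rpow_mul (by positivity)]
      rw [one_div, inv_mul_cancel₀ hδ1.ne', Real.rpow_one]
    have hZ0 : 0 < Z := by linarith
    have hZge : N₁ ≤ Z := by linarith
    obtain ⟨hcl, hZ1, hZ4⟩ := hZ₁ Z
      ((((le_max_left _ _).trans (le_max_right _ _)).trans hN₁).trans hZge)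
    refine ⟨Z, ((le_max_left _ _).trans hN₁).trans hZge, ?_⟩
    refine close_of_le κ α (Z ^ δ / N) Z (hcl α N (by omega) ?_) _ ?_
    · intro q h1 h2 p
      refine le_trans (le_of_eq ?_) (hN q h1 h2 p)
      rw [Real.rpow_neg hZ0.le, hZpow, one_div]
    · have h1 : (N : ℝ) = Z ^ (1 - δ) / 4 := by rw [hZpow]; ring
      rw [h1, div_div_eq_mul_div, div_le_iff₀ (by positivity), ← Real.rpow_add hZ0]
      rw [Real.rpow_zero] at hZ4
      calc Z ^ δ * 4 ≤ Z ^ δ * Z ^ δ := by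
            have := Real.rpow_pos_of_pos hZ0 δ
            nlinarith
        _ = Z ^ (δ + δ) := by rw [← Real.rpow_add hZ0]
        _ ≤ Z ^ (-(1 - ε) + (1 - δ)) := by
            apply Real.rpow_le_rpow_of_exponent_le hZ1
            rw [hδ]; linarith
  · intro α μ C hμ hC hq
    have hμ0 : 0 < μ := by linarith
    have hδ1 : 0 < 1 - δ := by linarith
    -- the eventual inequalities
    have hlim : Tendsto (fun Z : ℝ => (C * Z ^ (1 - δ)) ^ (1 / μ)) atTop atTop :=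
      (tendsto_rpow_atTop (by positivity)).comp
        (Tendsto.const_mul_atTop hC (tendsto_rpow_atTop hδ1))
    filter_upwards [hB, eventually_ge_atTop (1 : ℝ), hlim.eventually_ge_atTop 1,
      ev_pow 0 δ (2 * (1 / C) ^ (1 / μ)) (by linarith)] with Z hcl hZ1 hX hZ4
    have hZ0 : 0 < Z := by linarith
    set X : ℝ := (C * Z ^ (1 - δ)) ^ (1 / μ) with hXdef
    set N : ℕ := ⌊X⌋₊ with hN
    have hN1 : 1 ≤ N := Nat.le_floor (by simpa using hX)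
    have hN0 : (0 : ℝ) < N := by exact_mod_cast hN1
    have hNX : (N : ℝ) ≤ X := Nat.floor_le (by linarith)
    have hXN : X ≤ 2 * N := by
      have := Nat.lt_floor_add_one X
      have h1 : (1 : ℝ) ≤ N := by exact_mod_cast hN1
      linarith
    refine close_of_le κ α (Z ^ δ / N) Z (hcl α N hN1 ?_) _ ?_
    · intro q h1 h2 p
      refine le_trans ?_ (hq q h1 p)
      have hq0 : (0 : ℝ) < q := by exact_mod_cast h1
      have hqX : (q : ℝ) ≤ X := by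
        have : (q : ℝ) ≤ N := by exact_mod_cast h2
        linarith
      have h3 : (q : ℝ) ^ μ ≤ C * Z ^ (1 - δ) := by
        calc (q : ℝ) ^ μ ≤ X ^ μ := by gcongr
          _ = C * Z ^ (1 - δ) := by
            rw [hXdef, ← Real.rpow_mul (by positivity)]
            rw [one_div, inv_mul_cancel₀ hμ0.ne', Real.rpow_one]
      rw [Real.rpow_neg hZ0.le, Real.rpow_neg hq0.le, ← div_eq_mul_inv, le_div_iff₀ (by positivity),
        inv_mul_le_iff₀ (by positivity)]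
      linarith
    · rw [div_le_iff₀ hN0]
      have hXeq : X = C ^ (1 / μ) * Z ^ ((1 - δ) / μ) := by
        rw [hXdef, Real.mul_rpow hC.le (by positivity), ← Real.rpow_mul hZ0.le]
        congr 2
        ring
      rw [Real.rpow_zero, mul_one, one_div C, Real.inv_rpow hC.le] at hZ4
      have hCp : 0 < C ^ (1 / μ) := Real.rpow_pos_of_pos hC _
      have h5 : 2 ≤ Z ^ δ * C ^ (1 / μ) := by
        have := mul_le_mul_of_nonneg_right hZ4 hCp.le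
        have h6 : 2 * (C ^ (1 / μ))⁻¹ * C ^ (1 / μ) = 2 := by field_simp
        linarith
      have h7 : 1 / μ ≤ 1 := by
        rw [div_le_one hμ0]; exact hμ
      have h8 : Z ^ δ ≤ Z ^ (-(1 / μ - ε)) * Z ^ (-δ) * Z ^ ((1 - δ) / μ) := by
        rw [← Real.rpow_add hZ0, ← Real.rpow_add hZ0]
        apply Real.rpow_le_rpow_of_exponent_le hZ1
        have : (1 - δ) / μ = 1 / μ - δ * (1 / μ) := by ring
        rw [this]
        have h9 : δ * (1 / μ) ≤ δ := by nlinarith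
        rw [hδ] at h9 ⊢
        linarith
      have h10 : Z ^ (-δ) * Z ^ δ = 1 := by
        rw [← Real.rpow_add hZ0]; simp
      calc Z ^ δ ≤ Z ^ (-(1 / μ - ε)) * Z ^ (-δ) * Z ^ ((1 - δ) / μ) * 1 := by
            rw [mul_one]; exact h8
        _ ≤ Z ^ (-(1 / μ - ε)) * Z ^ (-δ) * Z ^ ((1 - δ) / μ) * (Z ^ δ * C ^ (1 / μ) / 2) := by
            gcongr
            linarith
        _ = Z ^ (-(1 / μ - ε)) * (Z ^ (-δ) * Z ^ δ) * (C ^ (1 / μ) * Z ^ ((1 - δ) / μ) / 2) := by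
            ring
        _ = Z ^ (-(1 / μ - ε)) * (X / 2) := by rw [h10, mul_one, ← hXeq]
        _ ≤ Z ^ (-(1 / μ - ε)) * N := by
            gcongr
            linarith

end Pool.Agent.TH915.PW
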