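import Pool.Agent.TH915.PW.Cov
import Pool.Agent.TH915.PW.Disc
import Pool.Agent.H256R2.SC.R
import Pool.Agent.H256R2.SC.Par

set_option autoImplicit false

/-!
Record prime-free neighbourhoods of the members of a well distributed family of integers, and of
real numbers with small exponential sums.
-/

namespace Pool.Agent.TH915.PW

open Finset Filter
open Pool.Agent.H256R2.SC (ff params survivors)
open Pool.Agent.H469R2.NK (e norm_e e_add)

open scoped Classical

/-- small residues -/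
lemma crt_small (S : Finset ℕ) (hS : ∀ p ∈ S, p.Prime) (f : ℕ → ℕ) :
    ∃ b0 : ℕ, ∀ p ∈ S, p ∣ b0 + f p := by
  obtain ⟨k, hk⟩ := Nat.chineseRemainderOfFinset (fun p => (p - 1) * f p) (fun p => p) S
    (fun p hp => (hS p hp).ne_zero) (by
      intro p hp q hq hpq
      exact (Nat.coprime_primes (hS p hp) (hS q hq)).2 hpq)
  refine ⟨k, ?_⟩
  intro p hp
  have h2 : k + f p ≡ (p - 1) * f p + f p [MOD p] := (hk p hp).add_right _
  have h3 : (p - 1) * f p + f p = p * f p := by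
    have := (hS p hp).pos
    obtain ⟨r, rfl⟩ : ∃ r, p = r + 1 := ⟨p - 1, by omega⟩
    simp; ring
  rw [h3] at h2
  exact (Nat.modEq_zero_iff_dvd.1 (h2.trans (Nat.modEq_zero_iff_dvd.2 (Dvd.intro _ rfl))))

lemma primorial_eq (n : ℕ) : primorial n = ∏ p ∈ (Finset.range (n + 1)).filter Nat.Prime, p := rfl

/-- integers: the criterion -/
theorem crit : ∃ κ : ℝ, 0 < κ ∧ ∃ X₀ : ℝ, ∀ X : ℝ, X₀ ≤ X → κ * ff X + 1 ≤ (Real.log X) ^ 2 ∧
    ∀ (ι : Type) (s : Finset ι) (v : ι → ℤ), s.Nonempty → 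
    (∀ q : ℕ, 1 ≤ q → (q : ℝ) ≤ X ^ (2 / 5 : ℝ) →
      ∀ r : ℤ, |((s.filter (fun i => (q : ℤ) ∣ v i - r)).card : ℝ) - s.card / q| ≤
        s.card * X ^ (-(3 / 5) : ℝ)) →
    ∃ i ∈ s, ∀ m : ℤ, |(m : ℝ) - v i| ≤ κ * ff X + 1 →
      ∃ p : ℕ, p.Prime ∧ (p : ℝ) ≤ X ^ (1 / 10 : ℝ) ∧ (p : ℤ) ∣ m := by
  obtain ⟨c₁, hc₁, X₁, hcov⟩ := coveringG
  obtain ⟨c, hc, X₂, hpar⟩ := params survivors c₁ hc₁
  have hlogx : ∀ᶠ X : ℝ in atTop, Real.log X / 10 ≤ X ^ (1 / 10 : ℝ) := by
    have h := (isLittleO_log_rpow_atTop (show (0 : ℝ) < 1 / 10 by norm_num)).def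
      (show (0 : ℝ) < 1 by norm_num)
    filter_upwards [h, eventually_ge_atTop (1 : ℝ)] with X hX hX1
    rw [Real.norm_eq_abs, abs_of_nonneg (Real.log_nonneg hX1), Real.norm_eq_abs,
      abs_of_nonneg (Real.rpow_nonneg (by linarith) _)] at hX
    have := Real.log_nonneg hX1
    linarith
  obtain ⟨X₃, hX₃⟩ := eventually_atTop.mp hlogx
  have hL16 : ∀ᶠ X : ℝ in atTop, 160 ≤ Real.log X := Real.tendsto_log_atTop.eventually_ge_atTop _
  obtain ⟨X₄, hX₄⟩ := eventually_atTop.mp hL16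
  refine ⟨c / 4, by positivity, max (max X₁ X₂) (max X₃ (max X₄ 1)), ?_⟩
  intro X hX
  have hXX1 : X₁ ≤ X := ((le_max_left _ _).trans (le_max_left _ _)).trans hX
  have hXX2 : X₂ ≤ X := ((le_max_right _ _).trans (le_max_left _ _)).trans hX
  have hXX3 : X₃ ≤ X := ((le_max_left _ _).trans (le_max_right _ _)).trans hX
  have hXX4 : X₄ ≤ X := (((le_max_left _ _).trans (le_max_right _ _)).trans
    (le_max_right _ _)).trans hX
  have hX1 : 1 ≤ X := (((le_max_right _ _).trans (le_max_right _ _)).trans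
    (le_max_right _ _)).trans hX
  have hX0 : 0 < X := by linarith
  obtain ⟨hX1000, hLlog, hLge, hprim, b, hb1, hb2⟩ := hpar X hXX2
  have h3 := hX₃ X hXX3
  have h4 := hX₄ X hXX4
  set l : ℝ := Real.log X with hl
  set L : ℕ := ⌊c * ff X⌋₊ with hL
  set Ny : ℕ := ⌊l / 10⌋₊ with hNy
  set P : ℕ := primorial Ny with hP
  set S : Finset ℕ := (Finset.range (Ny + 1)).filter Nat.Prime with hS
  have hPS : P = ∏ p ∈ S, p := rfl
  have hSp : ∀ p ∈ S, p.Prime := fun p hp => (Finset.mem_filter.mp hp).2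
  have hSle : ∀ p ∈ S, (p : ℝ) ≤ l / 10 := by
    intro p hp
    have h5 := Finset.mem_range.mp (Finset.mem_filter.mp hp).1
    have h6 : (p : ℝ) ≤ Ny := by exact_mod_cast Nat.lt_succ_iff.mp h5
    exact h6.trans (Nat.floor_le (by linarith))
  have hSmem : ∀ p : ℕ, p.Prime → (p : ℝ) ≤ l / 10 → p ∈ S := by
    intro p hp hpl
    rw [hS, Finset.mem_filter, Finset.mem_range]
    exact ⟨Nat.lt_succ_of_le (Nat.le_floor hpl), hp⟩
  have hPpos : 0 < P := primorial_pos _
  have hPr : (0 : ℝ) < P := by exact_mod_cast hPpos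
  have hff : c * ff X < L + 1 := Nat.lt_floor_add_one _
  refine ⟨by nlinarith, ?_⟩
  intro ι s v hs hcount
  set h : ℕ := L / 2 with hh
  obtain ⟨r0, hr0⟩ := crt_small S hSp (fun p => b p + (p - 1) * h)
  -- the candidates
  set 𝒜 : Finset ι := s.filter (fun i => (P : ℤ) ∣ v i - r0) with h𝒜
  set U : Finset ℕ := (Finset.Icc 1 L).filter (fun k => ∀ p : ℕ, p.Prime →
          (p : ℝ) ≤ l / 10 → ¬ k ≡ b p [MOD p]) with hU
  have hcard : (Fintype.card {k // k ∈ U} : ℝ) ≤ c₁ * l := by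
    rw [Fintype.card_coe]
    exact hb2
  set res : ℕ → {k // k ∈ U} → ℤ := fun _ k => (h : ℤ) - (k.1 : ℤ) with hres
  have hinj : ∀ p : ℕ, p.Prime → l ^ 2 < p → (p : ℝ) ≤ X ^ (1 / 10 : ℝ) →
      p ∉ (∅ : Finset ℕ) → ∀ k k' : {k // k ∈ U}, k ≠ k' → ¬ ((p : ℤ) ∣ res p k - res p k') := by
    intro p hp hpl _ _ k k' hkk hd
    have h5 : res p k - res p k' = (k'.1 : ℤ) - (k.1 : ℤ) := by rw [hres]; ring
    rw [h5] at hd
    have hk := Finset.mem_Icc.mp (Finset.mem_filter.mp k.2).1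
    have hk' := Finset.mem_Icc.mp (Finset.mem_filter.mp k'.2).1
    have hLp : L < p := by
      have : (L : ℝ) < p := by linarith
      exact_mod_cast this
    have hne : k.1 ≠ k'.1 := fun h => hkk (Subtype.ext h)
    rcases lt_or_gt_of_ne hne with h6 | h6
    · have := Int.le_of_dvd (by omega) hd
      omega
    · have h7 : (p : ℤ) ∣ (k.1 : ℤ) - (k'.1 : ℤ) := by
        have := (dvd_neg (a := (p : ℤ))).mpr hd
        rwa [neg_sub] at this
      have := Int.le_of_dvd (by omega) h7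
      omega
  have hscard : (0 : ℝ) < s.card := by exact_mod_cast hs.card_pos
  obtain ⟨i, hi, hcovi⟩ := hcov X hXX1 ∅ (by simp; linarith) {k // k ∈ U} hcard res hinj ι 𝒜 v
    (s.card / P) (s.card * X ^ (-(3 / 5) : ℝ)) (by positivity) (by positivity) (by
      have h5 : (P : ℝ) * X ^ (-(3 / 5) : ℝ) ≤ X ^ (-(2 / 5) : ℝ) := by
        calc (P : ℝ) * X ^ (-(3 / 5) : ℝ) ≤ X ^ (3 / 20 : ℝ) * X ^ (-(3 / 5) : ℝ) := by gcongr
          _ = X ^ (3 / 20 + -(3 / 5) : ℝ) := by rw [Real.rpow_add hX0]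
          _ ≤ _ := Real.rpow_le_rpow_of_exponent_le hX1 (by norm_num)
      rw [div_mul_eq_mul_div, le_div_iff₀ hPr]
      calc (s.card : ℝ) * X ^ (-(3 / 5) : ℝ) * P = s.card * (P * X ^ (-(3 / 5) : ℝ)) := by ring
        _ ≤ _ := by gcongr) (by
      intro q hq hqX hqp r
      have hcop : Nat.Coprime P q := by
        rw [Nat.coprime_comm, hPS]
        apply Nat.Coprime.prod_right
        intro p hp
        rw [Nat.coprime_comm, Nat.Prime.coprime_iff_not_dvd (hSp p hp)]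
        intro hd
        have h5 : p ∈ q.primeFactors := Nat.mem_primeFactors.mpr ⟨hSp p hp, hd, hq.ne_zero⟩
        have h6 := (hqp p h5).1
        have h7 := hSle p hp
        have h8 : l ≤ l ^ 2 := by nlinarith
        linarith
      have hq1 : 1 ≤ q := Nat.one_le_iff_ne_zero.mpr hq.ne_zero
      obtain ⟨u, w, huw⟩ := Nat.isCoprime_iff_coprime.2 hcop
      -- huw : u * P + w * q = 1
      set r' : ℤ := r0 * (w * q) + r * (u * P) with hr'
      have hiff : ∀ x : ℤ, ((P : ℤ) ∣ x - r0 ∧ (q : ℤ) ∣ x - r) ↔ ((P * q : ℕ) : ℤ) ∣ x - r' := by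
        intro x
        have e1 : r0 - r' = (r0 - r) * u * P := by
          rw [hr']
          linear_combination (-(r0 : ℤ)) * huw
        have e2 : r - r' = (r - r0) * w * q := by
          rw [hr']
          linear_combination (-(r : ℤ)) * huw
        constructor
        · rintro ⟨h5, h6⟩
          have h7 : (P : ℤ) ∣ x - r' := by
            have : x - r' = (x - r0) + (r0 - r) * u * P := by rw [← e1]; ring
            rw [this]
            exact dvd_add h5 (Dvd.intro_left _ rfl)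
          have h8 : (q : ℤ) ∣ x - r' := by
            have : x - r' = (x - r) + (r - r0) * w * q := by rw [← e2]; ring
            rw [this]
            exact dvd_add h6 (Dvd.intro_left _ rfl)
          push_cast
          exact IsCoprime.mul_dvd (Nat.isCoprime_iff_coprime.2 hcop) h7 h8
        · intro h5
          push_cast at h5
          constructor
          · have h6 : (P : ℤ) ∣ x - r' := (dvd_mul_right _ _).trans h5
            have : x - r0 = (x - r') - (r0 - r) * u * P := by rw [← e1]; ring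
            rw [this]
            exact dvd_sub h6 (Dvd.intro_left _ rfl)
          · have h6 : (q : ℤ) ∣ x - r' := (dvd_mul_left _ _).trans h5
            have : x - r = (x - r') - (r - r0) * w * q := by rw [← e2]; ring
            rw [this]
            exact dvd_sub h6 (Dvd.intro_left _ rfl)
      have h5 : 𝒜.filter (fun x => (q : ℤ) ∣ v x - r) =
          s.filter (fun x => ((P * q : ℕ) : ℤ) ∣ v x - r') := by
        rw [h𝒜, Finset.filter_filter]
        apply Finset.filter_congr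
        intro x _
        exact hiff (v x)
      rw [h5]
      have h6 : (s.card : ℝ) / P / q = s.card / ((P * q : ℕ) : ℝ) := by
        push_cast
        rw [div_div]
      rw [h6]
      apply hcount (P * q) (Nat.mul_pos hPpos hq1)
      push_cast
      calc (P : ℝ) * q ≤ X ^ (3 / 20 : ℝ) * X ^ (1 / 4 : ℝ) := by gcongr
        _ = X ^ (3 / 20 + 1 / 4 : ℝ) := by rw [Real.rpow_add hX0]
        _ = _ := by norm_num)
  rw [h𝒜, Finset.mem_filter] at hi
  refine ⟨i, hi.1, ?_⟩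
  intro m hm
  have hL16 : (16 : ℝ) ≤ L := by linarith
  have hLh : (L : ℝ) ≤ 2 * h + 1 := by
    have : L ≤ 2 * h + 1 := by omega
    exact_mod_cast this
  have hLh' : 2 * (h : ℝ) ≤ L := by
    have : 2 * h ≤ L := by omega
    exact_mod_cast this
  have hm' := abs_le.mp hm
  have hk1 : (1 : ℤ) ≤ m - v i + h := by
    have : (0 : ℝ) < ((m - v i + h : ℤ) : ℝ) := by
      push_cast
      linarith [hm'.1]
    have : (0 : ℤ) < m - v i + h := by exact_mod_cast this
    omega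
  have hk2 : m - v i + h ≤ L := by
    have : ((m - v i + h : ℤ) : ℝ) ≤ ((L : ℤ) : ℝ) := by
      push_cast
      linarith [hm'.2]
    exact_mod_cast this
  obtain ⟨k, hk⟩ : ∃ k : ℕ, (k : ℤ) = m - v i + h := ⟨(m - v i + h).toNat, by omega⟩
  have hkIcc : k ∈ Finset.Icc 1 L := by
    rw [Finset.mem_Icc]
    omega
  by_cases hkU : k ∈ U
  · obtain ⟨p, hp, _, hpX, _, hd⟩ := hcovi ⟨k, hkU⟩
    refine ⟨p, hp, hpX, ?_⟩
    have : v i - res p ⟨k, hkU⟩ = m := by
      rw [hres]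
      simp only
      omega
    rwa [this] at hd
  · have h5 : ∃ p : ℕ, p.Prime ∧ (p : ℝ) ≤ l / 10 ∧ k ≡ b p [MOD p] := by
      by_contra hcon
      push Not at hcon
      exact hkU (Finset.mem_filter.mpr ⟨hkIcc, hcon⟩)
    obtain ⟨p, hp, hpl, hkb⟩ := h5
    refine ⟨p, hp, hpl.trans h3, ?_⟩
    have hpS := hSmem p hp hpl
    have h6 : (p : ℤ) ∣ (r0 : ℤ) + ((b p : ℤ) + ((p : ℤ) - 1) * h) := by
      have h7 := Int.natCast_dvd_natCast.mpr (hr0 p hpS)
      push_cast [Nat.cast_sub hp.one_le] at h7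
      exact h7
    have h7 : (p : ℤ) ∣ v i - r0 := by
      refine dvd_trans ?_ hi.2
      rw [hPS]
      exact Int.natCast_dvd_natCast.mpr (Finset.dvd_prod_of_mem _ hpS)
    have h8 : (p : ℤ) ∣ (k : ℤ) - b p := by
      have := (Nat.modEq_iff_dvd.mp hkb)
      rw [← neg_sub]
      exact (dvd_neg).mpr this
    have h9 : m = (v i - r0) + ((r0 : ℤ) + ((b p : ℤ) + ((p : ℤ) - 1) * h)) +
        ((k : ℤ) - b p) - p * h := by
      rw [hk]; ring
    rw [h9]
    exact dvd_sub (dvd_add (dvd_add h7 h6) h8) (Dvd.intro _ rfl)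

/-- real numbers with small exponential sums: the criterion -/
theorem crit_exp : ∃ κ : ℝ, 0 < κ ∧ ∃ X₀ : ℝ, ∀ X : ℝ, X₀ ≤ X →
    ∀ (ι : Type) (s : Finset ι) (a : ι → ℝ), s.Nonempty → (∀ i ∈ s, X ≤ a i) →
    (∀ q h : ℕ, 1 ≤ q → (q : ℝ) ≤ X ^ (2 / 5 : ℝ) → 1 ≤ h → (h : ℝ) ≤ X ^ 4 →
      ‖∑ i ∈ s, e ((h : ℝ) / q * a i)‖ ≤ s.card * X ^ (-4 : ℝ)) →
    ∃ i ∈ s, ∀ q : ℕ, q.Prime → κ * ff X < |(q : ℝ) - a i| := by
  obtain ⟨κ, hκ, X₁, h1⟩ := crit
  have hev : ∀ᶠ X : ℝ in atTop, (X + 1) ^ 3 ≤ X ^ 4 ∧ 30 * X ^ (-1 : ℝ) ≤ X ^ (-(3 / 5) : ℝ) ∧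
      (Real.log X) ^ 2 ≤ X / 2 ∧ X ^ (1 / 10 : ℝ) < X / 2 ∧ 1 ≤ X := by
    have e1 : ∀ᶠ X : ℝ in atTop, (X + 1) ^ 3 ≤ X ^ 4 := by
      filter_upwards [eventually_ge_atTop (8 : ℝ)] with X hX
      have h2 : (X + 1) ^ 3 ≤ (2 * X) ^ 3 := pow_le_pow_left₀ (by linarith) (by linarith) 3
      have h3 : (0 : ℝ) ≤ X ^ 3 := by positivity
      nlinarith
    have e2 : ∀ᶠ X : ℝ in atTop, 30 * X ^ (-1 : ℝ) ≤ X ^ (-(3 / 5) : ℝ) := by
      have := (tendsto_rpow_atTop (show (0 : ℝ) < 2 / 5 by norm_num)).eventually_ge_atTop 30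
      filter_upwards [this, eventually_ge_atTop (1 : ℝ)] with X hX hX1
      have h0 : 0 < X := by linarith
      have h2 : X ^ (-(3 / 5) : ℝ) = X ^ (2 / 5 : ℝ) * X ^ (-1 : ℝ) := by
        rw [← Real.rpow_add h0]; norm_num
      rw [h2]
      exact mul_le_mul_of_nonneg_right hX (Real.rpow_nonneg h0.le _)
    have e3 : ∀ᶠ X : ℝ in atTop, (Real.log X) ^ 2 ≤ X / 2 := Pool.Agent.H256R2.SC.ev_log_sq
    have e4 : ∀ᶠ X : ℝ in atTop, X ^ (1 / 10 : ℝ) < X / 2 := by
      have := (tendsto_rpow_atTop (show (0 : ℝ) < 9 / 10 by norm_num)).eventually_gt_atTop 2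
      filter_upwards [this, eventually_ge_atTop (1 : ℝ)] with X hX hX1
      have h0 : 0 < X := by linarith
      have h2 : X = X ^ (9 / 10 : ℝ) * X ^ (1 / 10 : ℝ) := by
        rw [← Real.rpow_add h0]; norm_num
      have h3 : 0 < X ^ (1 / 10 : ℝ) := Real.rpow_pos_of_pos h0 _
      have h4 : 2 * X ^ (1 / 10 : ℝ) < X ^ (9 / 10 : ℝ) * X ^ (1 / 10 : ℝ) :=
        mul_lt_mul_of_pos_right hX h3
      rw [← h2] at h4
      linarith
    filter_upwards [e1, e2, e3, e4, eventually_ge_atTop (1 : ℝ)] with X a1 a2 a3 a4 a5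
    exact ⟨a1, a2, a3, a4, a5⟩
  obtain ⟨X₂, h2⟩ := eventually_atTop.mp hev
  refine ⟨κ, hκ, max X₁ X₂, ?_⟩
  intro X hX ι s a hs ha hE
  obtain ⟨b1, b2, b3, b4, b5⟩ := h2 X ((le_max_right _ _).trans hX)
  obtain ⟨hfl, hcr⟩ := h1 X ((le_max_left _ _).trans hX)
  have hX0 : 0 < X := by linarith
  have hN : (0 : ℝ) < s.card := by exact_mod_cast hs.card_pos
  obtain ⟨i, hi, hi2⟩ := hcr ι s (fun i => ⌊a i⌋) hs (by
    intro q hq hqX r
    have hq0 : (0 : ℝ) < q := by exact_mod_cast hq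
    have hqi : (0 : ℤ) < q := by exact_mod_cast hq
    set K : ℕ := ⌈X⌉₊ with hK
    have hK1 : 1 ≤ K := Nat.one_le_ceil_iff.mpr hX0
    have hKX : X ≤ K := Nat.le_ceil _
    have hKX2 : (K : ℝ) ≤ X + 1 := (Nat.ceil_lt_add_one hX0.le).le
    have hK3 : (K : ℝ) ^ 3 ≤ X ^ 4 := (pow_le_pow_left₀ (Nat.cast_nonneg _) hKX2 3).trans b1
    set r' : ℤ := r % q with hr'
    have hr0 : 0 ≤ r' := Int.emod_nonneg _ hqi.ne'
    have hr1 : r' < q := Int.emod_lt_of_pos _ hqi
    have hr1' : (r' : ℝ) + 1 ≤ q := by exact_mod_cast hr1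
    have hr0' : (0 : ℝ) ≤ r' := by exact_mod_cast hr0
    have hd := disc s (fun i => a i / q) K hK1 (s.card * X ^ (-4 : ℝ)) (by positivity) (by
      intro h hh1 hh2
      have := hE q h hq hqX hh1 (by
        have : (h : ℝ) ≤ (K : ℝ) ^ 3 := by exact_mod_cast hh2.le
        exact this.trans hK3)
      refine le_trans (le_of_eq ?_) this
      congr 1
      refine sum_congr rfl fun i _ => ?_
      congr 1
      ring) (r' / q) ((r' + 1) / q) (by positivity)
      (by gcongr; linarith) (by rw [div_le_one hq0]; exact hr1')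
    have hfil : s.filter (fun i => (q : ℤ) ∣ ⌊a i⌋ - r) =
        s.filter (fun i => (r' : ℝ) / q ≤ Int.fract (a i / q) ∧ Int.fract (a i / q) < (r' + 1) / q) := by
      apply Finset.filter_congr
      intro i _
      have hiff : (q : ℤ) ∣ ⌊a i⌋ - r ↔ ⌊a i⌋ % q = r' := by
        rw [hr', ← Int.emod_emod_of_dvd (⌊a i⌋) (dvd_refl (q : ℤ))]
        constructor
        · intro h
          have h2 := Int.emod_emod_of_dvd (⌊a i⌋) (dvd_refl (q : ℤ))
          rw [h2]
          exact Int.emod_eq_emod_iff_emod_sub_eq_zero.mpr (Int.emod_eq_zero_of_dvd h)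
        · intro h
          have h2 := Int.emod_emod_of_dvd (⌊a i⌋) (dvd_refl (q : ℤ))
          rw [h2] at h
          exact Int.dvd_of_emod_eq_zero (Int.emod_eq_emod_iff_emod_sub_eq_zero.mp h)
      rw [hiff]
      set m : ℤ := ⌊a i⌋ / q with hm
      have hdm : (q : ℤ) * m + ⌊a i⌋ % q = ⌊a i⌋ := Int.mul_ediv_add_emod _ _
      set t : ℤ := ⌊a i⌋ % q with ht
      have ht0 : 0 ≤ t := Int.emod_nonneg _ hqi.ne'
      have ht1 : t < q := Int.emod_lt_of_pos _ hqi
      have hfa0 := Int.fract_nonneg (a i)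
      have hfa1 := Int.fract_lt_one (a i)
      have hafl : a i = q * m + t + Int.fract (a i) := by
        have h5 : (⌊a i⌋ : ℝ) + Int.fract (a i) = a i := Int.floor_add_fract _
        have h6 : (⌊a i⌋ : ℝ) = q * m + t := by
          rw [← hdm]; push_cast; ring
        linarith
      have ht1' : (t : ℝ) + 1 ≤ q := by exact_mod_cast ht1
      have ht0' : (0 : ℝ) ≤ t := by exact_mod_cast ht0
      have hfr : Int.fract (a i / q) = (t + Int.fract (a i)) / q := by
        rw [Int.fract_eq_iff]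
        refine ⟨by positivity, ?_, m, ?_⟩
        · rw [div_lt_one hq0]; linarith
        · have : a i / q - (t + Int.fract (a i)) / q = (a i - (t + Int.fract (a i))) / q := by ring
          rw [this, div_eq_iff hq0.ne']
          linarith
      rw [hfr, div_le_div_iff_of_pos_right hq0, div_lt_div_iff_of_pos_right hq0]
      constructor
      · intro h5
        rw [← h5]
        constructor <;> linarith
      · rintro ⟨h5, h6⟩
        have h7 : (r' : ℝ) < t + 1 := by linarith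
        have h8 : (t : ℝ) < r' + 1 := by linarith
        have h7' : r' < t + 1 := by exact_mod_cast h7
        have h8' : t < r' + 1 := by exact_mod_cast h8
        omega
    rw [hfil]
    have e1 : (s.card : ℝ) / q = s.card * ((r' + 1) / q - r' / q) := by
      field_simp
      ring
    rw [e1]
    refine hd.trans ?_
    have e2 : 14 * (s.card : ℝ) / K ≤ 14 * (s.card * X ^ (-1 : ℝ)) := by
      rw [Real.rpow_neg_one, mul_div_assoc]
      apply mul_le_mul_of_nonneg_left _ (by norm_num)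
      rw [div_eq_mul_inv]
      gcongr
    have e3 : (K : ℝ) ^ 3 * (s.card * X ^ (-4 : ℝ)) ≤ 8 * (s.card * X ^ (-1 : ℝ)) := by
      have h5 : (K : ℝ) ^ 3 ≤ 8 * X ^ 3 := by
        calc (K : ℝ) ^ 3 ≤ (2 * X) ^ 3 := pow_le_pow_left₀ (Nat.cast_nonneg _) (by linarith) 3
          _ = _ := by ring
      have h6 : X ^ 3 * X ^ (-4 : ℝ) = X ^ (-1 : ℝ) := by
        rw [← Real.rpow_natCast, ← Real.rpow_add hX0]; norm_num
      calc (K : ℝ) ^ 3 * (s.card * X ^ (-4 : ℝ)) ≤ (8 * X ^ 3) * (s.card * X ^ (-4 : ℝ)) := by gcongr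
        _ = 8 * (s.card * (X ^ 3 * X ^ (-4 : ℝ))) := by ring
        _ = _ := by rw [h6]
    calc _ ≤ 14 * (s.card * X ^ (-1 : ℝ)) + 2 * (8 * (s.card * X ^ (-1 : ℝ))) := by gcongr
      _ = s.card * (30 * X ^ (-1 : ℝ)) := by ring
      _ ≤ _ := by gcongr)
  refine ⟨i, hi, ?_⟩
  intro q hq
  by_contra hcon
  push Not at hcon
  have h5 : |((q : ℤ) : ℝ) - ⌊a i⌋| ≤ κ * ff X + 1 := by
    have h6 := Int.fract_nonneg (a i)
    have h7 := Int.fract_lt_one (a i)
    have h8 : (⌊a i⌋ : ℝ) + Int.fract (a i) = a i := Int.floor_add_fract _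
    have h9 := abs_le.mp hcon
    push_cast
    rw [abs_le]
    constructor <;> linarith [h9.1, h9.2]
  obtain ⟨p, hp, hpX, hpd⟩ := hi2 q h5
  have h6 : p = q := (Nat.prime_dvd_prime_iff_eq hp hq).mp (by exact_mod_cast hpd)
  rw [h6] at hpX
  have h7 := ha i hi
  have h8 := abs_le.mp hcon
  linarith [h8.1]

end Pool.Agent.TH915.PW
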