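import Pool.Agent.TH915.PW.IntCrit
import Pool.Agent.TH915.PW.ExpC

set_option autoImplicit false

/-! Record gaps and strongly `b`-additive functions with values in a finite abelian group. -/

namespace Pool.Agent.TH915.PW

open Finset Filter
open Pool.Agent.H469R2.NK (e norm_e e_add)
open Pool.Agent.W147.PS (ff ff_compare ev_pow)

/-- the local factor -/
noncomputable def Fd (b : ℕ) (c : ℕ → ℂ) (x : ℝ) : ℝ := ‖∑ d ∈ range b, c d * e (d * x)‖

lemma eq_one_of_norm (z : ℂ) (hz : ‖z‖ = 1) (h : 2 ≤ ‖1 + z‖) : z = 1 := by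
  have h1 : ‖1 + z‖ ^ 2 = 2 + 2 * z.re := by
    have e1 : ‖z‖ ^ 2 = 1 := by rw [hz]; norm_num
    rw [← Complex.normSq_eq_norm_sq, Complex.normSq_apply] at e1 ⊢
    simp only [Complex.add_re, Complex.add_im, Complex.one_re, Complex.one_im]
    nlinarith
  have h2 : (4 : ℝ) ≤ ‖1 + z‖ ^ 2 := by nlinarith
  have h3 : 1 ≤ z.re := by linarith
  have e1 : ‖z‖ ^ 2 = 1 := by rw [hz]; norm_num
  rw [← Complex.normSq_eq_norm_sq, Complex.normSq_apply] at e1
  have h4 : z.im = 0 := by nlinarith [mul_self_nonneg z.im]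
  have h5 : z.re = 1 := by
    rw [h4] at e1
    nlinarith
  exact Complex.ext (by simpa using h5) (by simpa using h4)

lemma unit_all (b : ℕ) (z : ℕ → ℂ) (hz : ∀ d < b, ‖z d‖ = 1) (h0 : z 0 = 1)
    (h : (b : ℝ) ≤ ‖∑ d ∈ range b, z d‖) : ∀ d < b, z d = 1 := by
  intro d hd
  rcases Nat.eq_zero_or_pos d with rfl | hd0
  · exact h0
  have hb0 : 0 < b := by omega
  have e1 : ∑ d ∈ range b, z d = z 0 + (z d + ∑ i ∈ ((range b).erase 0).erase d, z i) := by
    rw [add_sum_erase _ _ (mem_erase.2 ⟨by omega, mem_range.2 hd⟩),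
      add_sum_erase _ _ (mem_range.2 hb0)]
  have e2 : ‖∑ i ∈ ((range b).erase 0).erase d, z i‖ ≤ (b : ℝ) - 2 := by
    refine (norm_sum_le _ _).trans ?_
    have : ∑ i ∈ ((range b).erase 0).erase d, ‖z i‖ = ∑ i ∈ ((range b).erase 0).erase d, (1 : ℝ) := by
      refine sum_congr rfl fun i hi => hz i ?_
      exact mem_range.1 (mem_of_mem_erase (mem_of_mem_erase hi))
    rw [this, sum_const, nsmul_eq_mul, mul_one,
      card_erase_of_mem (mem_erase.2 ⟨by omega, mem_range.2 hd⟩),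
      card_erase_of_mem (mem_range.2 hb0), card_range, Nat.cast_sub (by omega),
      Nat.cast_sub (by omega)]
    push_cast
    linarith
  apply eq_one_of_norm _ (hz d hd)
  rw [e1, h0, ← add_assoc] at h
  have e3 := norm_add_le (1 + z d) (∑ i ∈ ((range b).erase 0).erase d, z i)
  linarith

lemma continuous_e : Continuous e := by
  unfold Pool.Agent.H469R2.NK.e
  fun_prop

lemma Fd_le (b : ℕ) (c : ℕ → ℂ) (hc : ∀ d < b, ‖c d‖ = 1) (x : ℝ) : Fd b c x ≤ b := by
  unfold Fd
  refine (norm_sum_le _ _).trans ?_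
  have : ∑ d ∈ range b, ‖c d * e (d * x)‖ = ∑ d ∈ range b, (1 : ℝ) := by
    refine sum_congr rfl fun i hi => ?_
    rw [norm_mul, norm_e, mul_one, hc i (mem_range.1 hi)]
  rw [this]
  simp

lemma Fd_add_int (b : ℕ) (c : ℕ → ℂ) (x : ℝ) (m : ℤ) : Fd b c (x + m) = Fd b c x := by
  unfold Fd
  congr 1
  refine sum_congr rfl fun d _ => ?_
  congr 1
  have : (d : ℝ) * (x + m) = d * x + ((d * m : ℤ) : ℝ) := by push_cast; ring
  rw [this, e_add, e_int, mul_one]

/-- two consecutive local factors -/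
lemma local_bound (b : ℕ) (hb : 2 ≤ b) (c : ℕ → ℂ) (hc : ∀ d < b, ‖c d‖ = 1) (h0 : c 0 = 1)
    (hn : ¬ (c 1 ^ (b - 1) = 1 ∧ ∀ d < b, c d = c 1 ^ d)) :
    ∃ ρ : ℝ, ρ < (b : ℝ) ^ 2 ∧ ∀ x, Fd b c x * Fd b c (b * x) ≤ ρ := by
  have hcont : Continuous (fun x : ℝ => Fd b c x * Fd b c (b * x)) := by
    have h1 : Continuous (Fd b c) := by
      unfold Fd
      have := continuous_e
      fun_prop
    exact h1.mul (h1.comp (continuous_const.mul continuous_id))
  obtain ⟨x₀, -, hx₀⟩ := (isCompact_Icc (a := (0 : ℝ)) (b := 1)).exists_isMaxOn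
    ⟨0, by simp⟩ hcont.continuousOn
  refine ⟨Fd b c x₀ * Fd b c (b * x₀), ?_, ?_⟩
  · by_contra hcon
    push Not at hcon
    have hb0 : (0 : ℝ) < b := by exact_mod_cast (by omega : 0 < b)
    have f1 := Fd_le b c hc x₀
    have f2 := Fd_le b c hc (b * x₀)
    have f3 : 0 ≤ Fd b c x₀ := norm_nonneg _
    have f4 : 0 ≤ Fd b c (b * x₀) := norm_nonneg _
    have g1 : (b : ℝ) ≤ Fd b c x₀ := by
      by_contra hlt
      push Not at hlt
      nlinarith
    have g2 : (b : ℝ) ≤ Fd b c (b * x₀) := by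
      by_contra hlt
      push Not at hlt
      nlinarith
    have k1 := unit_all b (fun d => c d * e (d * x₀)) (by
      intro d hd
      rw [norm_mul, norm_e, mul_one, hc d hd]) (by simp [h0, Pool.Agent.H469R2.NK.e_zero]) g1
    have k2 := unit_all b (fun d => c d * e (d * (b * x₀))) (by
      intro d hd
      rw [norm_mul, norm_e, mul_one, hc d hd]) (by simp [h0, Pool.Agent.H469R2.NK.e_zero]) g2
    have inv : ∀ (a : ℂ) (y : ℝ), a * e y = 1 → a = e (-y) := by
      intro a y h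
      have : e y * e (-y) = 1 := by
        rw [← e_add, add_neg_cancel, Pool.Agent.H469R2.NK.e_zero]
      calc a = a * (e y * e (-y)) := by rw [this, mul_one]
        _ = (a * e y) * e (-y) := by ring
        _ = _ := by rw [h, one_mul]
    have l1 := inv _ _ (k1 1 (by omega))
    have l2 := inv _ _ (k2 1 (by omega))
    simp only [Nat.cast_one, one_mul] at l1 l2
    apply hn
    constructor
    · have e1 : e (-(b * x₀)) = (e (-x₀)) ^ b := by
        rw [← e_natmul]
        congr 1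
        ring
      have e2 : c 1 ^ b = c 1 := by
        conv_rhs => rw [l2, e1, ← l1]
      have e3 : c 1 ≠ 0 := by
        intro h
        have := hc 1 (by omega)
        rw [h] at this
        simp at this
      have e4 : c 1 ^ (b - 1) * c 1 = 1 * c 1 := by
        rw [one_mul, ← pow_succ, Nat.sub_add_cancel (by omega)]
        exact e2
      exact mul_right_cancel₀ e3 e4
    · intro d hd
      rw [inv _ _ (k1 d hd), l1, ← e_natmul]
      congr 1
      ring
  · intro x
    have h1 : (⌊x⌋ : ℝ) + Int.fract x = x := Int.floor_add_fract x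
    have h2 : Fd b c x = Fd b c (Int.fract x) := by
      conv_lhs => rw [show x = Int.fract x + (⌊x⌋ : ℤ) by linarith]
      exact Fd_add_int b c _ _
    have h3 : Fd b c (b * x) = Fd b c (b * Int.fract x) := by
      conv_lhs => rw [show (b : ℝ) * x = b * Int.fract x + ((b * ⌊x⌋ : ℤ) : ℝ) by
        push_cast; rw [← mul_add, add_comm, h1]]
      exact Fd_add_int b c _ _
    rw [h2, h3]
    exact hx₀ (Set.mem_Icc.2 ⟨Int.fract_nonneg x, (Int.fract_lt_one x).le⟩)

lemma sum_blocks {R : Type*} [AddCommMonoid R] (b N : ℕ) (f : ℕ → R) :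
    ∑ n ∈ range (b * N), f n = ∑ m ∈ range N, ∑ d ∈ range b, f (b * m + d) := by
  induction N with
  | zero => simp
  | succ N ih => rw [Nat.mul_succ, sum_range_add, ih, sum_range_succ]

lemma T_step (b : ℕ) (c : ℕ → ℂ) (hcm : ∀ n d, d < b → c (b * n + d) = c n * c d) (N : ℕ) (x : ℝ) :
    ‖∑ n ∈ range (b * N), c n * e (n * x)‖ =
      ‖∑ n ∈ range N, c n * e (n * (b * x))‖ * Fd b c x := by
  unfold Fd
  rw [← norm_mul]
  congr 1
  rw [sum_blocks, sum_mul]
  refine sum_congr rfl fun m _ => ?_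
  rw [mul_sum]
  refine sum_congr rfl fun d hd => ?_
  rw [hcm m d (mem_range.1 hd)]
  have : ((b * m + d : ℕ) : ℝ) * x = m * (b * x) + d * x := by push_cast; ring
  rw [this, e_add]
  ring

lemma T_bound (b : ℕ) (c : ℕ → ℂ) (hcm : ∀ n d, d < b → c (b * n + d) = c n * c d)
    (hc0 : ‖c 0‖ ≤ 1) (ρ : ℝ) (hρ0 : 0 ≤ ρ) (hρ : ∀ x, Fd b c x * Fd b c (b * x) ≤ ρ) (L : ℕ) :
    ∀ x : ℝ, ‖∑ n ∈ range ((b ^ 2) ^ L), c n * e (n * x)‖ ≤ ρ ^ L := by
  induction L with
  | zero =>
    intro x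
    simpa [Pool.Agent.H469R2.NK.e_zero] using hc0
  | succ L ih =>
    intro x
    have e1 : (b ^ 2) ^ (L + 1) = b * (b * (b ^ 2) ^ L) := by ring
    rw [e1, T_step b c hcm, T_step b c hcm]
    calc ‖∑ n ∈ range ((b ^ 2) ^ L), c n * e (n * (b * (b * x)))‖ * Fd b c (b * x) * Fd b c x
        = ‖∑ n ∈ range ((b ^ 2) ^ L), c n * e (n * (b * (b * x)))‖ *
            (Fd b c x * Fd b c (b * x)) := by ring
      _ ≤ ρ ^ L * ρ := mul_le_mul (ih _) (hρ x)
          (mul_nonneg (norm_nonneg _) (norm_nonneg _)) (pow_nonneg hρ0 L)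
      _ = _ := by ring

/-- splitting off the last digits -/
lemma S_split {G : Type} [AddCommGroup G] (b : ℕ) (hb : 2 ≤ b) (S : ℕ → G)
    (hS : ∀ n d, d < b → S (b * n + d) = S n + S d) (K : ℕ) :
    ∀ m n : ℕ, n < b ^ K → S (b ^ K * m + n) = S m + S n := by
  have hS0 : S 0 = 0 := by
    have := hS 0 0 (by omega)
    simpa using this
  induction K with
  | zero =>
    intro m n hn
    rw [pow_zero, Nat.lt_one_iff] at hn
    subst hn
    simp [hS0]
  | succ K ih =>
    intro m n hn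
    have hd : n % b < b := Nat.mod_lt _ (by omega)
    have hq : n / b < b ^ K := by
      rw [Nat.div_lt_iff_lt_mul (by omega), ← pow_succ]
      exact hn
    have h1 : b ^ (K + 1) * m + n = b * (b ^ K * m + n / b) + n % b := by
      have := Nat.div_add_mod n b
      calc b ^ (K + 1) * m + n = b ^ (K + 1) * m + (b * (n / b) + n % b) := by rw [this]
        _ = _ := by ring
    have h2 : S n = S (n / b) + S (n % b) := by
      conv_lhs => rw [← Nat.div_add_mod n b]
      exact hS _ _ hd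
    rw [h1, hS _ _ hd, ih m (n / b) hq, h2, add_assoc]

end Pool.Agent.TH915.PW
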