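import Pool.Agent.TH915.PW.Digits

set_option autoImplicit false

/-! Record gaps and strongly `b`-additive functions: the theorem. -/

namespace Pool.Agent.TH915.PW

open Finset Filter
open Pool.Agent.H469R2.NK (e norm_e e_add)
open Pool.Agent.W147.PS (ff ff_compare ev_pow)

variable {G : Type} [AddCommGroup G] [Fintype G]

/-- uniform bound over the nontrivial characters -/
lemma uniform_rho (b : ℕ) (hb : 2 ≤ b) (S : ℕ → G) (hS0 : S 0 = 0)
    (hN : ∀ χ : AddChar G ℂ, χ ≠ 0 → ¬ (χ (S 1) ^ (b - 1) = 1 ∧ ∀ d < b, χ (S d) = χ (S 1) ^ d)) :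
    ∃ ρ : ℝ, 1 ≤ ρ ∧ ρ < (b : ℝ) ^ 2 ∧ ∀ χ : AddChar G ℂ, χ ≠ 0 → ∀ x : ℝ,
      Fd b (fun n => χ (S n)) x * Fd b (fun n => χ (S n)) (b * x) ≤ ρ := by
  classical
  have hb2 : (1 : ℝ) < (b : ℝ) ^ 2 := by
    have : (2 : ℝ) ≤ b := by exact_mod_cast hb
    nlinarith
  have h : ∀ χ : AddChar G ℂ, ∃ ρ : ℝ, ρ < (b : ℝ) ^ 2 ∧ (χ ≠ 0 → ∀ x : ℝ,
      Fd b (fun n => χ (S n)) x * Fd b (fun n => χ (S n)) (b * x) ≤ ρ) := by
    intro χ
    by_cases hχ : χ = 0
    · exact ⟨0, by linarith, fun h => absurd hχ h⟩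
    · obtain ⟨ρ, h1, h2⟩ := local_bound b hb (fun n => χ (S n)) (fun d _ => χ.norm_apply _)
        (by simp [hS0]) (hN χ hχ)
      exact ⟨ρ, h1, fun _ => h2⟩
  choose ρ h1 h2 using h
  have hne : (univ : Finset (AddChar G ℂ)).Nonempty := ⟨0, mem_univ _⟩
  refine ⟨max 1 (univ.sup' hne ρ), le_max_left _ _, max_lt hb2 ?_, ?_⟩
  · rw [sup'_lt_iff]
    exact fun χ _ => h1 χ
  · intro χ hχ x
    exact (h2 χ hχ x).trans ((le_sup' ρ (mem_univ χ)).trans (le_max_right _ _))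

/-- the number of `n < N` with `S n = g` weighted by a character -/
lemma char_count (S : ℕ → G) [DecidableEq G] (g : G) (N : ℕ) (x : ℝ) :
    (Fintype.card G : ℂ) * ∑ n ∈ (range N).filter (fun n => S n = g), e (x * n) =
      ∑ χ : AddChar G ℂ, χ (-g) * ∑ n ∈ range N, χ (S n) * e (n * x) := by
  have h1 : ∀ n, (if S n = g then (Fintype.card G : ℂ) else 0) = ∑ χ : AddChar G ℂ, χ (S n - g) := by
    intro n
    rw [AddChar.sum_apply_eq_ite]
    simp only [sub_eq_zero]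
  simp only [mul_sum]
  rw [sum_comm, sum_filter]
  refine sum_congr rfl fun n _ => ?_
  have h2 : ∑ χ : AddChar G ℂ, χ (-g) * (χ (S n) * e (n * x)) =
      (∑ χ : AddChar G ℂ, χ (S n - g)) * e (x * n) := by
    rw [sum_mul]
    refine sum_congr rfl fun χ _ => ?_
    rw [sub_eq_add_neg, AddChar.map_add_eq_mul, mul_comm (n : ℝ) x]
    ring
  rw [h2, ← h1 n]
  split_ifs <;> simp

lemma filter_bound (b : ℕ) (hb : 2 ≤ b) (S : ℕ → G) [DecidableEq G]
    (hS : ∀ n d, d < b → S (b * n + d) = S n + S d) (ρ : ℝ) (hρ1 : 1 ≤ ρ)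
    (hρ : ∀ χ : AddChar G ℂ, χ ≠ 0 → ∀ x : ℝ,
      Fd b (fun n => χ (S n)) x * Fd b (fun n => χ (S n)) (b * x) ≤ ρ) (L : ℕ) (g : G) (x : ℝ) :
    ‖(Fintype.card G : ℂ) * (∑ n ∈ (range ((b ^ 2) ^ L)).filter (fun n => S n = g), e (x * n)) -
      ∑ n ∈ range ((b ^ 2) ^ L), e (n * x)‖ ≤ Fintype.card G * ρ ^ L := by
  have hS0 : S 0 = 0 := by
    have := hS 0 0 (by omega)
    simpa using this
  have h0 : (0 : AddChar G ℂ) ∈ (univ : Finset (AddChar G ℂ)) := mem_univ _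
  rw [char_count, ← add_sum_erase _ _ h0]
  have h1 : ((0 : AddChar G ℂ) (-g) * ∑ n ∈ range ((b ^ 2) ^ L), (0 : AddChar G ℂ) (S n) * e (n * x)) =
      ∑ n ∈ range ((b ^ 2) ^ L), e (n * x) := by
    simp
  rw [h1, add_sub_cancel_left]
  refine (norm_sum_le _ _).trans ?_
  have h2 : ∀ χ ∈ (univ : Finset (AddChar G ℂ)).erase 0,
      ‖χ (-g) * ∑ n ∈ range ((b ^ 2) ^ L), χ (S n) * e (n * x)‖ ≤ ρ ^ L := by
    intro χ hχ
    rw [norm_mul, χ.norm_apply, one_mul]
    apply T_bound b (fun n => χ (S n)) _ _ ρ (by linarith) (hρ χ (ne_of_mem_erase hχ))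
    · intro n d hd
      rw [hS n d hd, AddChar.map_add_eq_mul]
    · rw [χ.norm_apply]
  refine (sum_le_card_nsmul _ _ _ h2).trans ?_
  rw [nsmul_eq_mul]
  apply mul_le_mul_of_nonneg_right _ (by positivity)
  have h3 : ((univ : Finset (AddChar G ℂ)).erase 0).card ≤ Fintype.card (AddChar G ℂ) :=
    (card_le_card (erase_subset _ _)).trans (by rw [card_univ])
  rw [AddChar.card_eq] at h3
  exact_mod_cast h3

set_option maxHeartbeats 4000000 in
theorem digits_main (b : ℕ) (hb : 2 ≤ b) (S : ℕ → G)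
    (hS : ∀ n d, d < b → S (b * n + d) = S n + S d)
    (hN : ∀ χ : AddChar G ℂ, χ ≠ 0 → ¬ (χ (S 1) ^ (b - 1) = 1 ∧ ∀ d < b, χ (S d) = χ (S 1) ^ d))
    (ε : ℝ) (hε : 0 < ε) (hε1 : ε ≤ 1) :
    ∃ κ : ℝ, 0 < κ ∧ ∀ᶠ M : ℝ in atTop, ∀ g : G, ∃ n : ℕ, M < n ∧ (n : ℝ) ≤ M + M ^ ε ∧ S n = g ∧
      ∀ q : ℕ, q.Prime → κ * ff M < |(q : ℝ) - n| := by
  classical
  have hS0 : S 0 = 0 := by
    have := hS 0 0 (by omega)
    simpa using this
  have hbR : (2 : ℝ) ≤ b := by exact_mod_cast hb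
  obtain ⟨ρ, hρ1, hρ2, hρ⟩ := uniform_rho b hb S hS0 hN
  set b2 : ℝ := (b : ℝ) ^ 2 with hb2
  have hb24 : (4 : ℝ) ≤ b2 := by rw [hb2]; nlinarith
  have hlb : 0 < Real.log b2 := Real.log_pos (by linarith)
  set lam : ℝ := Real.log ρ / Real.log b2 with hlam
  have hlam0 : 0 ≤ lam := div_nonneg (Real.log_nonneg hρ1) hlb.le
  have hlam1 : lam < 1 := by
    rw [hlam, div_lt_one hlb]
    exact Real.log_lt_log (by linarith) hρ2
  have hρlam : b2 ^ lam = ρ := by
    rw [Real.rpow_def_of_pos (by linarith), hlam, mul_div_cancel₀ _ hlb.ne',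
      Real.exp_log (by linarith)]
  set η : ℝ := (1 - lam) * ε / 8 with hη
  have hη0 : 0 < η := by
    rw [hη]
    have : 0 < 1 - lam := by linarith
    positivity
  have hη1 : η ≤ 1 := by
    rw [hη]
    nlinarith
  set c : ℝ := (Fintype.card G : ℝ) with hc
  have hc1 : 1 ≤ c := by
    rw [hc]
    exact_mod_cast Fintype.card_pos
  obtain ⟨κ, hκ, hcrit⟩ := crit_int η hη0 hη1
  refine ⟨κ, hκ, ?_⟩
  filter_upwards [hcrit, (tendsto_rpow_atTop hη0).eventually_ge_atTop (8 * b2 * c),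
    eventually_ge_atTop (1 : ℝ), ev_pow (ε / 2) ε 2 (by linarith)] with M hcr hMη hM1 hM2
  intro g
  have hM0 : 0 < M := by linarith
  set a : ℝ := M ^ η with ha
  have ha1 : 1 ≤ a := by nlinarith
  have hMe : 1 ≤ M ^ (ε / 2) := Real.one_le_rpow hM1 (by linarith)
  -- a ^ 4 = (M ^ (ε / 2)) ^ (1 - lam)
  have ha4 : a ^ 4 = (M ^ (ε / 2)) ^ (1 - lam) := by
    rw [ha, ← Real.rpow_natCast, ← Real.rpow_mul hM0.le, ← Real.rpow_mul hM0.le]
    congr 1
    rw [hη]
    push_cast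
    ring
  obtain ⟨L, hL1, hL2⟩ := exists_nat_pow_near hMe (show (1 : ℝ) < b2 by linarith)
  set B : ℕ := (b ^ 2) ^ L with hB
  have hBR : (B : ℝ) = b2 ^ L := by rw [hB, hb2]; push_cast; ring
  rw [← hBR] at hL1
  have hL2' : M ^ (ε / 2) < B * b2 := by rw [hBR, ← pow_succ]; exact hL2
  have hB0 : 0 < B := by rw [hB]; positivity
  have hB0' : (0 : ℝ) < B := by exact_mod_cast hB0
  -- powers
  set R : ℝ := ρ ^ L with hR
  have hR0 : 0 ≤ R := by rw [hR]; positivity
  have hRB : R = (B : ℝ) ^ lam := by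
    rw [hR, hBR, ← hρlam, ← Real.rpow_natCast, ← Real.rpow_natCast, ← Real.rpow_mul (by linarith),
      ← Real.rpow_mul (by linarith), mul_comm]
  have hBa : a ^ 4 ≤ (B : ℝ) ^ (1 - lam) * b2 := by
    rw [ha4]
    calc (M ^ (ε / 2)) ^ (1 - lam) ≤ (B * b2) ^ (1 - lam) :=
          Real.rpow_le_rpow (by positivity) hL2'.le (by linarith)
      _ = (B : ℝ) ^ (1 - lam) * b2 ^ (1 - lam) := Real.mul_rpow hB0'.le (by linarith)
      _ ≤ (B : ℝ) ^ (1 - lam) * b2 := by
          apply mul_le_mul_of_nonneg_left _ (by positivity)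
          calc b2 ^ (1 - lam) ≤ b2 ^ (1 : ℝ) :=
                Real.rpow_le_rpow_of_exponent_le (by linarith) (by linarith)
            _ = b2 := Real.rpow_one _
  have hRa : R * a ^ 4 ≤ B * b2 := by
    calc R * a ^ 4 ≤ R * ((B : ℝ) ^ (1 - lam) * b2) := mul_le_mul_of_nonneg_left hBa hR0
      _ = ((B : ℝ) ^ lam * (B : ℝ) ^ (1 - lam)) * b2 := by rw [hRB]; ring
      _ = B * b2 := by
          rw [← Real.rpow_add hB0', show lam + (1 - lam) = 1 by ring, Real.rpow_one]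
  have hBa' : a ^ 4 ≤ B * b2 := by
    refine hBa.trans ?_
    apply mul_le_mul_of_nonneg_right _ (by linarith)
    have hB1 : (1 : ℝ) ≤ B := by exact_mod_cast hB0
    calc (B : ℝ) ^ (1 - lam) ≤ (B : ℝ) ^ (1 : ℝ) :=
          Real.rpow_le_rpow_of_exponent_le hB1 (by linarith)
      _ = B := Real.rpow_one _
  -- the block
  set m₀ : ℕ := ⌊M / B⌋₊ + 1 with hm₀
  have hN1 : M < (B : ℝ) * m₀ := by
    have := Nat.lt_floor_add_one (M / B)
    rw [div_lt_iff₀ hB0'] at this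
    rw [hm₀]
    push_cast
    linarith
  have hN2 : (B : ℝ) * m₀ ≤ M + B := by
    have := Nat.floor_le (show 0 ≤ M / B by positivity)
    rw [le_div_iff₀ hB0'] at this
    rw [hm₀]
    push_cast
    linarith
  set s : Finset ℕ := (range B).filter (fun n => S n = g - S m₀) with hs
  -- the number of elements
  have hfb := filter_bound b hb S hS ρ hρ1 hρ L (g - S m₀)
  rw [← hB, ← hs, ← hR, ← hc] at hfb
  have hcard : (B : ℝ) ≤ c * s.card + c * R := by
    have h1 := hfb 0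
    simp only [zero_mul, mul_zero, Pool.Agent.H469R2.NK.e_zero, sum_const, nsmul_eq_mul, mul_one,
      card_range] at h1
    have h2 : ((Fintype.card G : ℂ) * (s.card : ℂ) - (B : ℂ)) = ((c * s.card - B : ℝ) : ℂ) := by
      rw [hc]; push_cast; ring
    rw [h2, Complex.norm_real, Real.norm_eq_abs] at h1
    have := (abs_le.mp h1).1
    linarith
  -- numerical facts
  have hkey : (2 * a + R) * a ≤ s.card := by
    -- c * ((2 a + R) a + R) ≤ B
    have h1 : c * ((2 * a + R) * a + R) ≤ B := by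
      have ha2 : 0 < a ^ 2 := by positivity
      have h2 : R * a ≤ R * a ^ 2 / a := by
        rw [le_div_iff₀ (by linarith)]
        nlinarith
      -- multiply by a ^ 2
      have h3 : c * ((2 * a + R) * a + R) * a ^ 2 ≤ B * a ^ 2 := by
        have h4 : (2 * a + R) * a + R ≤ 2 * a ^ 2 + 2 * (R * a) := by nlinarith
        have h5 : (2 * a ^ 2 + 2 * (R * a)) * a ^ 2 ≤ 2 * (B * b2) + 2 * (B * b2) := by
          have h6 : R * a * a ^ 2 ≤ R * a ^ 4 := by
            have : R * a ^ 4 = R * a * a ^ 2 * a := by ring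
            rw [this]
            exact le_mul_of_one_le_right (by positivity) ha1
          nlinarith
        have h7 : 4 * b2 * c ≤ a ^ 2 := by nlinarith
        calc c * ((2 * a + R) * a + R) * a ^ 2 = c * (((2 * a + R) * a + R) * a ^ 2) := by ring
          _ ≤ c * ((2 * a ^ 2 + 2 * (R * a)) * a ^ 2) := by gcongr
          _ ≤ c * (2 * (B * b2) + 2 * (B * b2)) := by gcongr
          _ = B * (4 * b2 * c) := by ring
          _ ≤ B * a ^ 2 := by gcongr
      exact le_of_mul_le_mul_right h3 ha2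
    have h8 : c * ((2 * a + R) * a) ≤ c * s.card := by nlinarith
    exact le_of_mul_le_mul_left h8 (by linarith)
  have hspos : (0 : ℝ) < s.card := by nlinarith
  have hsne : s.Nonempty := by
    rw [← card_pos]
    exact_mod_cast hspos
  obtain ⟨i, hi, hi2⟩ := hcr ℕ s (fun n => ((B * m₀ + n : ℕ) : ℤ)) hsne (by
    intro i _
    push_cast
    have : (0 : ℝ) ≤ i := Nat.cast_nonneg i
    linarith) (by
    intro q h hq hh1 hhq
    have hq0 : 0 < q := by omega
    have hq' : (0 : ℝ) < q := by exact_mod_cast hq0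
    have e1 : ∑ i ∈ s, e ((h : ℝ) / q * (((B * m₀ + i : ℕ) : ℤ) : ℝ)) =
        e ((h : ℝ) / q * (B * m₀)) * ∑ i ∈ s, e ((h : ℝ) / q * i) := by
      rw [mul_sum]
      refine sum_congr rfl fun i _ => ?_
      rw [← e_add]
      congr 1
      push_cast
      ring
    rw [e1, norm_mul, norm_e, one_mul]
    have e2 := hfb ((h : ℝ) / q)
    have e3 : ‖∑ n ∈ range B, e (n * ((h : ℝ) / q))‖ ≤ 2 * q := by
      have hfr : Int.fract ((h : ℝ) / q) = (h : ℝ) / q := by
        rw [Int.fract_eq_self]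
        exact ⟨by positivity, (div_lt_one hq').2 (by exact_mod_cast hhq)⟩
      have := norm_linear (fun n => n * ((h : ℝ) / q)) B ((h : ℝ) / q) (1 / q) (by positivity)
        (by rw [hfr]; gcongr; exact_mod_cast hh1) (by
          rw [hfr, le_sub_iff_add_le, ← add_div, div_le_one hq']
          exact_mod_cast hhq) (fun n _ => by push_cast; ring)
      refine this.trans (le_of_eq ?_)
      field_simp
    have e4 : c * ‖∑ i ∈ s, e ((h : ℝ) / q * i)‖ ≤ c * (2 * q + R) := by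
      have e5 : ‖(Fintype.card G : ℂ) * ∑ i ∈ s, e ((h : ℝ) / q * i)‖ ≤
          ‖(Fintype.card G : ℂ) * (∑ i ∈ s, e ((h : ℝ) / q * i)) -
            ∑ n ∈ range B, e (n * ((h : ℝ) / q))‖ + ‖∑ n ∈ range B, e (n * ((h : ℝ) / q))‖ := by
        have := norm_add_le ((Fintype.card G : ℂ) * (∑ i ∈ s, e ((h : ℝ) / q * i)) -
            ∑ n ∈ range B, e (n * ((h : ℝ) / q))) (∑ n ∈ range B, e (n * ((h : ℝ) / q)))
        rwa [sub_add_cancel] at this
      rw [norm_mul] at e5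
      have e6 : ‖(Fintype.card G : ℂ)‖ = c := by
        rw [hc, Complex.norm_natCast]
      rw [e6] at e5
      have e7 : (0 : ℝ) ≤ 2 * q := by positivity
      nlinarith
    have e8 : ‖∑ i ∈ s, e ((h : ℝ) / q * i)‖ ≤ 2 * q + R := le_of_mul_le_mul_left e4 (by linarith)
    refine e8.trans ?_
    rw [Real.rpow_neg hM0.le, ← ha, ← div_eq_mul_inv, le_div_iff₀ (by linarith)]
    refine le_trans ?_ hkey
    apply mul_le_mul_of_nonneg_right _ (by linarith)
    linarith)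
  rw [hs, mem_filter, mem_range] at hi
  refine ⟨B * m₀ + i, ?_, ?_, ?_, ?_⟩
  · push_cast
    have : (0 : ℝ) ≤ i := Nat.cast_nonneg i
    linarith
  · push_cast
    have : (i : ℝ) ≤ B := by exact_mod_cast hi.1.le
    linarith
  · have h1 : B = b ^ (2 * L) := by rw [hB, pow_mul]
    have h2 := S_split b hb S hS (2 * L) m₀ i (by rw [← h1]; exact hi.1)
    rw [h1, h2, hi.2]
    abel
  · intro q hq
    have := hi2 q hq
    push_cast at this ⊢
    exact this

end Pool.Agent.TH915.PW
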