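import Mathlib

set_option autoImplicit false

/-!
Rational approximations with a denominator between two powers of the scale.
-/

namespace Pool.Agent.TH915.PW

open Filter

/-- At the scale `Z` the number `ξ` has a reduced rational approximation `a / D` of quality
`1 / D ^ 2` with `Z ^ τ ≤ D ≤ Z ^ (1 / 2)`. -/
def GS (ξ τ Z : ℝ) : Prop :=
  ∃ (a : ℤ) (D : ℕ), IsCoprime a (D : ℤ) ∧ Z ^ τ ≤ D ∧ (D : ℝ) ≤ Z ^ (1 / 2 : ℝ) ∧
    |ξ - a / D| ≤ 1 / (D : ℝ) ^ 2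

lemma fract_of_approx {ξ : ℝ} {a : ℤ} {D T : ℕ} (hcop : IsCoprime a (D : ℤ))
    (hap : |ξ - a / D| ≤ 1 / (D : ℝ) ^ 2) (hT : 1 ≤ T) (hTD : 2 * T ≤ D) :
    1 / (2 * (D : ℝ)) ≤ Int.fract ((T : ℝ) * ξ) ∧ Int.fract ((T : ℝ) * ξ) ≤ 1 - 1 / (2 * (D : ℝ)) := by
  have hD0 : (0 : ℝ) < D := by
    have : 0 < D := by omega
    exact_mod_cast this
  have hT0 : (0 : ℝ) < T := by exact_mod_cast hT
  have key : ∀ m : ℤ, 1 / (2 * (D : ℝ)) ≤ |(T : ℝ) * ξ - m| := by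
    intro m
    by_contra hcon
    push Not at hcon
    have h1 : |(T : ℝ) * a - m * D| < 1 := by
      have e1 : (T : ℝ) * a - m * D = D * (((T : ℝ) * ξ - m) - T * (ξ - a / D)) := by
        field_simp
        ring
      rw [e1, abs_mul, abs_of_pos hD0]
      have h2 : |((T : ℝ) * ξ - m) - T * (ξ - a / D)| < 1 / D := by
        refine lt_of_le_of_lt (abs_sub _ _) ?_
        rw [abs_mul, abs_of_pos hT0]
        have h3 : (T : ℝ) * |ξ - a / D| ≤ 1 / (2 * D) := by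
          calc (T : ℝ) * |ξ - a / D| ≤ T * (1 / (D : ℝ) ^ 2) := by gcongr
            _ ≤ (D / 2) * (1 / (D : ℝ) ^ 2) := by
                have : (2 : ℝ) * T ≤ D := by exact_mod_cast hTD
                gcongr
                linarith
            _ = _ := by field_simp
        have h4 : 1 / (D : ℝ) = 1 / (2 * D) + 1 / (2 * D) := by field_simp; norm_num
        rw [h4]
        linarith
      calc (D : ℝ) * |((T : ℝ) * ξ - m) - T * (ξ - a / D)| < D * (1 / D) :=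
            mul_lt_mul_of_pos_left h2 hD0
        _ = 1 := by field_simp
    have h2 : |(T : ℤ) * a - m * D| < 1 := by exact_mod_cast h1
    have h3 : (T : ℤ) * a - m * D = 0 := Int.abs_lt_one_iff.mp h2
    have h4 : (D : ℤ) ∣ (T : ℤ) * a := ⟨m, by linarith⟩
    have h5 : (D : ℤ) ∣ (T : ℤ) := (IsCoprime.symm hcop).dvd_of_dvd_mul_right h4
    have h6 : D ∣ T := by exact_mod_cast h5
    have h7 := Nat.le_of_dvd hT h6
    omega
  have hfl : (⌊(T : ℝ) * ξ⌋ : ℝ) + Int.fract ((T : ℝ) * ξ) = T * ξ := Int.floor_add_fract _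
  have h0 := Int.fract_nonneg ((T : ℝ) * ξ)
  have h1 := Int.fract_lt_one ((T : ℝ) * ξ)
  constructor
  · have := key ⌊(T : ℝ) * ξ⌋
    have e1 : (T : ℝ) * ξ - ⌊(T : ℝ) * ξ⌋ = Int.fract ((T : ℝ) * ξ) := by linarith
    rw [e1, abs_of_nonneg h0] at this
    exact this
  · have := key (⌊(T : ℝ) * ξ⌋ + 1)
    push_cast at this
    have e1 : (T : ℝ) * ξ - (⌊(T : ℝ) * ξ⌋ + 1) = -(1 - Int.fract ((T : ℝ) * ξ)) := by linarith
    rw [e1, abs_neg, abs_of_nonneg (by linarith)] at this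
    linarith

lemma dist_pos {ξ : ℝ} (hξ : Irrational ξ) (K : ℕ) :
    ∃ δ : ℝ, 0 < δ ∧ ∀ k : ℕ, 1 ≤ k → k ≤ K → ∀ m : ℤ, δ ≤ |(k : ℝ) * ξ - m| := by
  induction K with
  | zero => exact ⟨1, one_pos, fun k h1 h2 => by omega⟩
  | succ K ih =>
    obtain ⟨δ, hδ, h⟩ := ih
    set x : ℝ := ((K + 1 : ℕ) : ℝ) * ξ with hx
    have h1 : 0 < |x - round x| := by
      rw [abs_pos, sub_ne_zero]
      intro hcon
      have h2 : Irrational x := by
        rw [hx]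
        exact hξ.natCast_mul (Nat.succ_ne_zero K)
      exact h2 ⟨(round x : ℚ), by rw [hcon]; push_cast; simp⟩
    refine ⟨min δ |x - round x|, lt_min hδ h1, ?_⟩
    intro k hk1 hk2 m
    rcases Nat.lt_or_ge K k with h3 | h3
    · have h4 : k = K + 1 := by omega
      rw [h4]
      exact (min_le_right _ _).trans (round_le x m)
    · exact (min_le_left _ _).trans (h k hk1 h3 m)

lemma approx_of_dirichlet (ξ : ℝ) (n : ℕ) (hn : 0 < n) : ∃ (a : ℤ) (D : ℕ), 0 < D ∧ D ≤ n ∧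
    IsCoprime a (D : ℤ) ∧ |ξ - a / D| ≤ 1 / (D : ℝ) ^ 2 ∧ |ξ - a / D| ≤ 1 / ((n + 1) * D) := by
  obtain ⟨q, h1, h2⟩ := Real.exists_rat_abs_sub_le_and_den_le ξ hn
  have hq : (q : ℝ) = (q.num : ℝ) / (q.den : ℝ) := Rat.cast_def q
  have hD0 : (0 : ℝ) < q.den := by exact_mod_cast q.den_pos
  refine ⟨q.num, q.den, q.den_pos, h2, ?_, ?_, ?_⟩
  · rw [Int.isCoprime_iff_gcd_eq_one]
    exact q.reduced
  · rw [← hq]
    refine h1.trans ?_
    apply one_div_le_one_div_of_le (by positivity)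
    have : (q.den : ℝ) ≤ n := by exact_mod_cast h2
    rw [sq]
    exact mul_le_mul_of_nonneg_right (by linarith) hD0.le
  · rw [← hq]
    exact h1

/-- every irrational number has good scales -/
lemma GS_frequent {ξ : ℝ} (hξ : Irrational ξ) (τ : ℝ) (hτ : τ ≤ 1 / 2) (Z₁ : ℝ) :
    ∃ Z : ℝ, Z₁ ≤ Z ∧ GS ξ τ Z := by
  set K : ℕ := ⌈|Z₁|⌉₊ + 1 with hK
  obtain ⟨δ, hδ, h⟩ := dist_pos hξ K
  obtain ⟨n, hn⟩ := exists_nat_one_div_lt hδ
  obtain ⟨a, D, hD, hDn, hcop, hap, hap2⟩ := approx_of_dirichlet ξ (n + 1) (Nat.succ_pos n)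
  have hD0 : (0 : ℝ) < D := by exact_mod_cast hD
  have hDK : K < D := by
    by_contra hcon
    push Not at hcon
    have h1 := h D hD hcon a
    have h2 : (D : ℝ) * ξ - a = D * (ξ - a / D) := by field_simp
    rw [h2, abs_mul, abs_of_pos hD0] at h1
    have h3 : (D : ℝ) * |ξ - a / D| ≤ 1 / (n + 1) := by
      calc (D : ℝ) * |ξ - a / D| ≤ D * (1 / ((((n + 1 : ℕ) : ℝ) + 1) * D)) := by gcongr
        _ = 1 / (((n + 1 : ℕ) : ℝ) + 1) := by field_simp
        _ ≤ 1 / (n + 1) := by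
            apply one_div_le_one_div_of_le (by positivity)
            push_cast
            linarith
    linarith
  have hKZ : Z₁ ≤ K := by
    rw [hK]
    push_cast
    have := Nat.le_ceil |Z₁|
    linarith [le_abs_self Z₁]
  have hDK' : (K : ℝ) ≤ D := by exact_mod_cast hDK.le
  have hD1 : (1 : ℝ) ≤ D := by exact_mod_cast hD
  refine ⟨(D : ℝ) ^ 2, by nlinarith, a, D, hcop, ?_, ?_, hap⟩
  · calc ((D : ℝ) ^ 2) ^ τ ≤ ((D : ℝ) ^ 2) ^ (1 / 2 : ℝ) :=
          Real.rpow_le_rpow_of_exponent_le (one_le_pow₀ hD1) hτ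
      _ = D := by
          rw [← Real.sqrt_eq_rpow, Real.sqrt_sq hD0.le]
  · rw [← Real.sqrt_eq_rpow, Real.sqrt_sq hD0.le]

/-- all large scales are good for irrational numbers which are not Liouville numbers -/
lemma GS_eventually {ξ : ℝ} (hξ : Irrational ξ) (hL : ¬ Liouville ξ) :
    ∃ τ : ℝ, 0 < τ ∧ τ ≤ 1 / 2 ∧ ∀ᶠ Z : ℝ in atTop, GS ξ τ Z := by
  unfold Liouville at hL
  push Not at hL
  obtain ⟨n, hn⟩ := hL
  obtain ⟨δ, hδ, hδ2⟩ := dist_pos hξ 1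
  refine ⟨1 / (2 * (n + 1)), by positivity, ?_, ?_⟩
  · apply one_div_le_one_div_of_le (by norm_num)
    have : (0 : ℝ) ≤ n := Nat.cast_nonneg n
    linarith
  filter_upwards [eventually_ge_atTop (4 : ℝ), eventually_ge_atTop ((1 / δ) ^ 2)] with Z hZ4 hZδ
  have hZ0 : 0 < Z := by linarith
  have hsq : Z ^ (1 / 2 : ℝ) = √Z := (Real.sqrt_eq_rpow Z).symm
  set N : ℕ := ⌊√Z⌋₊ with hN
  have hs2 : 2 ≤ √Z := by
    rw [show (2 : ℝ) = √4 by rw [show (4 : ℝ) = 2 ^ 2 by norm_num, Real.sqrt_sq (by norm_num)]]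
    exact Real.sqrt_le_sqrt hZ4
  have hN1 : 1 ≤ N := Nat.le_floor (by push_cast; linarith)
  have hNZ : (N : ℝ) ≤ √Z := Nat.floor_le (Real.sqrt_nonneg _)
  have hZN : √Z < N + 1 := Nat.lt_floor_add_one _
  obtain ⟨a, D, hD, hDn, hcop, hap, hap2⟩ := approx_of_dirichlet ξ N hN1
  have hD0 : (0 : ℝ) < D := by exact_mod_cast hD
  have hDN : (D : ℝ) ≤ N := by exact_mod_cast hDn
  refine ⟨a, D, hcop, ?_, by rw [hsq]; linarith, hap⟩
  have hD1 : 1 < D := by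
    by_contra hcon
    have h1 : D = 1 := by omega
    subst h1
    have h2 := hδ2 1 le_rfl le_rfl a
    have h3 : 1 / δ ≤ √Z := by
      rw [← Real.sqrt_sq (by positivity : 0 ≤ 1 / δ)]
      exact Real.sqrt_le_sqrt hZδ
    push_cast at hap2 h2
    rw [div_one, mul_one] at hap2
    rw [one_mul] at h2
    have h4 : 1 / ((N : ℝ) + 1) < δ := by
      rw [div_lt_iff₀ (by positivity)]
      rw [div_le_iff₀ hδ] at h3
      nlinarith
    linarith
  have hne : ξ ≠ a / ((D : ℤ) : ℝ) := by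
    intro hcon
    exact hξ ⟨(a : ℚ) / (D : ℚ), by rw [hcon]; push_cast; rfl⟩
  have h1 := hn a D (by exact_mod_cast hD1) hne
  push_cast at h1
  have h2 : 1 / (D : ℝ) ^ n ≤ 1 / ((N + 1) * D) := h1.trans hap2
  rw [div_le_div_iff₀ (by positivity) (by positivity), one_mul, one_mul] at h2
  have hD1r : (1 : ℝ) ≤ D := by exact_mod_cast hD1.le
  have h3 : √Z ≤ (D : ℝ) ^ (n + 1) := by
    calc √Z ≤ N + 1 := hZN.le
      _ ≤ (N + 1) * D := by nlinarith
      _ ≤ (D : ℝ) ^ n := h2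
      _ ≤ (D : ℝ) ^ (n + 1) := pow_le_pow_right₀ hD1r (Nat.le_succ n)
  have h4 : Z ^ (1 / (2 * ((n : ℝ) + 1))) = (√Z) ^ (1 / ((n : ℝ) + 1)) := by
    rw [Real.sqrt_eq_rpow, ← Real.rpow_mul hZ0.le]
    congr 1
    field_simp
  rw [h4]
  calc (√Z) ^ (1 / ((n : ℝ) + 1)) ≤ ((D : ℝ) ^ (n + 1)) ^ (1 / ((n : ℝ) + 1)) :=
        Real.rpow_le_rpow (Real.sqrt_nonneg _) h3 (by positivity)
    _ = D := by
        rw [← Real.rpow_natCast, ← Real.rpow_mul hD0.le]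
        push_cast
        rw [mul_one_div_cancel (by positivity), Real.rpow_one]

end Pool.Agent.TH915.PW
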