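import Pool.Agent.H469R2.NK.ExpSum

set_option autoImplicit false

/-!
Exponential sums with a smooth phase whose derivative of order `k + 1` is small, positive and
decreasing: `k` Weyl - van der Corput differencing steps and the inequality of Kusmin and Landau
(adapted from `Pool/Agent/H221R2/FB_VdcGen.lean`).
-/

namespace Pool.Agent.TH915.PW

open Finset
open Pool.Agent.H469R2.NK (e norm_e e_add conj_e vdcH kusmin_landau_anti norm_sum_neg Av Av_le
  Cq Cq_pos iterate harm_le)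

/-- hypotheses on the phase -/
structure Hy (k : ℕ) (A B lo hi : ℝ) (φ : ℕ → ℝ → ℝ) : Prop where
  der : ∀ m ≤ k + 1, ∀ t ∈ Set.Icc A B, HasDerivAt (φ m) (φ (m + 1) t) t
  lo : ∀ t ∈ Set.Icc A B, lo ≤ φ (k + 1) t
  hi : ∀ t ∈ Set.Icc A B, φ (k + 1) t ≤ hi
  dec : ∀ t ∈ Set.Icc A B, φ (k + 2) t ≤ 0

/-- iterated differences of the derivatives of the phase -/
noncomputable def ED (φ : ℕ → ℝ → ℝ) : List ℕ → ℕ → ℝ → ℝ
  | [], m, x => φ m x
  | l :: ls, m, x => ED φ ls m (x + l) - ED φ ls m x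

section

variable {k : ℕ} {A B lo hi : ℝ} {φ : ℕ → ℝ → ℝ}

lemma hasDerivAt_ED (h : Hy k A B lo hi φ) (ls : List ℕ) {m : ℕ} (hm : m ≤ k + 1) {x : ℝ}
    (hx : A ≤ x) (hx2 : x + (ls.sum : ℕ) ≤ B) :
    HasDerivAt (ED φ ls m) (ED φ ls (m + 1) x) x := by
  induction ls generalizing x with
  | nil => exact h.der m hm x ⟨hx, by simpa using hx2⟩
  | cons l ls ih =>
    rw [List.sum_cons, Nat.cast_add] at hx2
    have hl : (0 : ℝ) ≤ l := Nat.cast_nonneg l
    have h1 : HasDerivAt (fun y => ED φ ls m (y + l)) (ED φ ls (m + 1) (x + l)) x := by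
      have := ih (x := x + l) (by linarith) (by linarith)
      exact this.comp_add_const x (l : ℝ)
    exact h1.sub (ih hx (by linarith))

/-- mean value theorem for the iterated differences -/
lemma ED_mvt (h : Hy k A B lo hi φ) (ls : List ℕ) : ∀ (m : ℕ) (x : ℝ),
    m + ls.length ≤ k + 2 → A ≤ x → x + (ls.sum : ℕ) ≤ B →
    ∃ ξ ∈ Set.Icc x (x + (ls.sum : ℕ)), ED φ ls m x = (ls.prod : ℕ) * φ (m + ls.length) ξ := by
  induction ls with
  | nil =>
    intro m x _ _ _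
    exact ⟨x, by simp, by simp [ED]⟩
  | cons l ls ih =>
    intro m x h2 hx hx2
    simp only [List.length_cons, List.prod_cons, List.sum_cons] at *
    rw [Nat.cast_add] at hx2
    rcases Nat.eq_zero_or_pos l with rfl | hl
    · refine ⟨x, ⟨le_rfl, ?_⟩, by simp [ED]⟩
      have : (0 : ℝ) ≤ (0 + ls.sum : ℕ) := Nat.cast_nonneg _
      linarith
    have hl' : (0 : ℝ) < l := by exact_mod_cast hl
    have hs0 : (0 : ℝ) ≤ (ls.sum : ℕ) := Nat.cast_nonneg _
    obtain ⟨ξ, hξ, hξ2⟩ := exists_hasDerivAt_eq_slope (ED φ ls m) (ED φ ls (m + 1)) (a := x)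
      (b := x + l) (by linarith)
      (fun y hy => (hasDerivAt_ED h ls (by omega) (by linarith [hy.1])
        (by linarith [hy.2])).continuousAt.continuousWithinAt)
      (fun y hy => hasDerivAt_ED h ls (by omega) (by linarith [hy.1]) (by linarith [hy.2]))
    obtain ⟨ζ, hζ, hζ2⟩ := ih (m + 1) ξ (by omega) (by linarith [hξ.1]) (by linarith [hξ.2])
    refine ⟨ζ, ⟨by linarith [hξ.1, hζ.1], ?_⟩, ?_⟩
    · rw [Nat.cast_add]
      linarith [hξ.2, hζ.2]
    · have e1 : ED φ (l :: ls) m x = l * ED φ ls (m + 1) ξ := by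
        simp only [ED]
        rw [hξ2, add_sub_cancel_left]; field_simp
      rw [e1, hζ2, show m + (ls.length + 1) = m + 1 + ls.length by ring]
      push_cast
      ring

end

/-- the differenced sum -/
noncomputable def SD (φ : ℕ → ℝ → ℝ) (θ : ℝ) (u : ℝ) (L : ℕ) (ls : List ℕ) : ℂ :=
  ∑ n ∈ range (L - ls.sum), e (θ * ED φ ls 0 (u + n))

lemma SD_sq (φ : ℕ → ℝ → ℝ) (θ : ℝ) (u : ℝ) (L H : ℕ) (ls : List ℕ) :
    (H : ℝ) * ‖SD φ θ u L ls‖ ^ 2 ≤
      (L + H) * (L + 2 * ∑ l ∈ Ico 1 H, ‖SD φ θ u L (l :: ls)‖) := by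
  have h := vdcH (fun n => e (θ * ED φ ls 0 (u + (n : ℝ)))) (fun n => (norm_e _).le) (L - ls.sum) H
  have h1 : ∀ l, ∑ n ∈ range (L - ls.sum - l), e (θ * ED φ ls 0 (u + ((n + l : ℕ) : ℝ))) *
      (starRingEnd ℂ) (e (θ * ED φ ls 0 (u + (n : ℝ)))) = SD φ θ u L (l :: ls) := by
    intro l
    unfold SD
    rw [List.sum_cons, show L - (l + ls.sum) = L - ls.sum - l by omega]
    refine sum_congr rfl fun n _ => ?_
    rw [conj_e, ← e_add]
    congr 1
    simp only [ED]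
    push_cast
    rw [show u + n + l = u + (n + l) by ring]
    ring
  simp only [h1] at h
  refine h.trans ?_
  have h2 : ((L - ls.sum : ℕ) : ℝ) ≤ L := by exact_mod_cast Nat.sub_le _ _
  gcongr

/-- last step: Kusmin–Landau -/
lemma SD_le {k : ℕ} {A B lo hi : ℝ} {φ : ℕ → ℝ → ℝ} (hlo : 0 < lo) (θ : ℝ) (hθ : 0 < θ)
    (h : Hy k A B lo hi φ) (u : ℝ) (L : ℕ) (hu : A ≤ u)
    (huL : u + L ≤ B) (ls : List ℕ) (hls : 0 < ls.prod) (hk : ls.length = k)
    (hup : 2 * (θ * (hi * (ls.prod : ℕ))) ≤ 1) :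
    ‖SD φ θ u L ls‖ ≤ 2 / (θ * lo * (ls.prod : ℕ)) := by
  have hP : (0 : ℝ) < (ls.prod : ℕ) := by exact_mod_cast hls
  rcases Nat.lt_or_ge L (ls.sum + 1) with hL | hL
  · unfold SD
    rw [show L - ls.sum = 0 by omega]
    simp only [range_zero, sum_empty, norm_zero]
    positivity
  set τ : ℝ := θ * (lo * (ls.prod : ℕ)) with hτ
  have hτ0 : 0 < τ := by positivity
  have hx1 : ∀ n < L - ls.sum, τ ≤ θ * ED φ (1 :: ls) 0 (u + (n : ℝ)) ∧
      θ * ED φ (1 :: ls) 0 (u + (n : ℝ)) ≤ 1 / 2 := by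
    intro n hn
    have hn0 : (0 : ℝ) ≤ n := Nat.cast_nonneg n
    have hend : u + (n : ℝ) + ((1 :: ls).sum : ℕ) ≤ B := by
      rw [List.sum_cons]
      have h3 : n + (1 + ls.sum) ≤ L := by omega
      have h4 : ((n + (1 + ls.sum) : ℕ) : ℝ) ≤ L := by exact_mod_cast h3
      push_cast at h4 ⊢
      linarith
    obtain ⟨ξ, hξ, h2⟩ := ED_mvt h (1 :: ls) 0 (u + (n : ℝ))
      (by rw [List.length_cons]; omega) (by linarith) hend
    have hξ' : ξ ∈ Set.Icc A B := ⟨by linarith [hξ.1], by linarith [hξ.2]⟩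
    simp only [List.prod_cons, one_mul, List.length_cons, zero_add, hk] at h2
    rw [h2]
    constructor
    · rw [hτ]
      apply mul_le_mul_of_nonneg_left _ hθ.le
      rw [mul_comm lo]
      exact mul_le_mul_of_nonneg_left (h.lo ξ hξ') hP.le
    · have h3 : θ * ((ls.prod : ℕ) * φ (k + 1) ξ) ≤ θ * ((ls.prod : ℕ) * hi) :=
        mul_le_mul_of_nonneg_left (mul_le_mul_of_nonneg_left (h.hi ξ hξ') hP.le) hθ.le
      rw [mul_comm hi] at hup
      linarith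
  have hτ2 : τ ≤ 1 / 2 := (hx1 0 (by omega)).1.trans (hx1 0 (by omega)).2
  have hdiff : ∀ n : ℕ, θ * ED φ ls 0 (u + ((n + 1 : ℕ) : ℝ)) -
      θ * ED φ ls 0 (u + (n : ℝ)) = θ * ED φ (1 :: ls) 0 (u + (n : ℝ)) := by
    intro n
    simp only [ED]
    push_cast
    rw [show u + n + 1 = u + (n + 1) by ring]
    ring
  have hdiff2 : ∀ n, n + 1 < L - ls.sum → θ * ED φ (1 :: ls) 0 (u + ((n + 1 : ℕ) : ℝ)) ≤
      θ * ED φ (1 :: ls) 0 (u + (n : ℝ)) := by
    intro n hn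
    have hn0 : (0 : ℝ) ≤ n := Nat.cast_nonneg n
    have hend : u + (n : ℝ) + ((1 :: 1 :: ls).sum : ℕ) ≤ B := by
      rw [List.sum_cons, List.sum_cons]
      have h3 : n + (1 + (1 + ls.sum)) ≤ L := by omega
      have h4 : ((n + (1 + (1 + ls.sum)) : ℕ) : ℝ) ≤ L := by exact_mod_cast h3
      push_cast at h4 ⊢
      linarith
    obtain ⟨ξ, hξ, h2⟩ := ED_mvt h (1 :: 1 :: ls) 0 (u + (n : ℝ))
      (by rw [List.length_cons, List.length_cons]; omega) (by linarith) hend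
    have hξ' : ξ ∈ Set.Icc A B := ⟨by linarith [hξ.1], by linarith [hξ.2]⟩
    simp only [List.prod_cons, one_mul, List.length_cons, zero_add, hk] at h2
    have h3 : ED φ (1 :: 1 :: ls) 0 (u + (n : ℝ)) ≤ 0 := by
      rw [h2]
      exact mul_nonpos_of_nonneg_of_nonpos hP.le (h.dec ξ hξ')
    have h4 : ED φ (1 :: 1 :: ls) 0 (u + (n : ℝ)) =
        ED φ (1 :: ls) 0 (u + ((n + 1 : ℕ) : ℝ)) - ED φ (1 :: ls) 0 (u + (n : ℝ)) := by
      conv_lhs => rw [ED]
      push_cast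
      rw [show u + n + 1 = u + (n + 1) by ring]
    rw [h4] at h3
    apply mul_le_mul_of_nonneg_left _ hθ.le
    linarith
  have hKL := kusmin_landau_anti (fun n => θ * ED φ ls 0 (u + (n : ℝ))) (L - ls.sum) hτ0
    (fun n hn => by rw [hdiff]; exact (hx1 n hn).1)
    (fun n hn => by rw [hdiff]; linarith [(hx1 n hn).2])
    (fun n hn => by
      have e1 := hdiff n
      have e2 := hdiff (n + 1)
      rw [show n + 1 + 1 = n + 2 by ring] at e2
      have e3 := hdiff2 n hn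
      linarith)
  have hnorm : ‖SD φ θ u L ls‖ =
      ‖∑ n ∈ range (L - ls.sum), e (θ * ED φ ls 0 (u + (n : ℝ)))‖ := rfl
  rw [hnorm]
  refine hKL.trans (le_of_eq ?_)
  rw [hτ]
  ring

/-- The exponential sum bound for positive frequencies. -/
theorem exp_bound {k : ℕ} {A B lo hi : ℝ} {φ : ℕ → ℝ → ℝ} (hlo : 0 < lo) (hhi : 0 ≤ hi) (θ : ℝ)
    (hθ : 0 < θ) (h : Hy k A B lo hi φ) (u : ℝ) (N L H : ℕ) (hN : 1 ≤ N) (hL : L ≤ N)
    (hu : A ≤ u) (huL : u + L ≤ B) (hH : 1 ≤ H) (hHN : H ≤ N)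
    (hup : 2 * (θ * (hi * (H : ℝ) ^ k)) ≤ 1) :
    (‖∑ n ∈ range L, e (θ * φ 0 (u + n))‖ / N) ^ (2 ^ k) ≤
      Cq k * (1 / H + 2 / (θ * lo) / N) := by
  have hN' : (1 : ℝ) ≤ N := by exact_mod_cast hN
  have hH' : (1 : ℝ) ≤ H := by exact_mod_cast hH
  have hL' : (L : ℝ) ≤ N := by exact_mod_cast hL
  have hHN' : (H : ℝ) ≤ N := by exact_mod_cast hHN
  have hstep : ∀ ls : List ℕ, (‖SD φ θ u L ls‖ / N) ^ 2 ≤
      2 / H + 4 * ((∑ l ∈ Ico 1 H, ‖SD φ θ u L (l :: ls)‖ / N) / H) := by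
    intro ls
    have h := SD_sq φ θ u L H ls
    set Sg := ∑ l ∈ Ico 1 H, ‖SD φ θ u L (l :: ls)‖ with hSg
    have hSg0 : 0 ≤ Sg := sum_nonneg fun _ _ => norm_nonneg _
    have h2 : (H : ℝ) * ‖SD φ θ u L ls‖ ^ 2 ≤ (2 * N) * (N + 2 * Sg) := by
      refine h.trans ?_
      have : (L : ℝ) + H ≤ 2 * N := by linarith
      gcongr
    rw [← sum_div, ← hSg]
    have e1 : 2 / (H : ℝ) + 4 * (Sg / N / H) = ((2 * N) * (N + 2 * Sg)) / (H * N ^ 2) := by
      field_simp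
      ring
    rw [e1, div_pow, div_le_div_iff₀ (by positivity) (by positivity)]
    calc ‖SD φ θ u L ls‖ ^ 2 * (H * N ^ 2) = ((H : ℝ) * ‖SD φ θ u L ls‖ ^ 2) * N ^ 2 := by ring
      _ ≤ _ := by gcongr
  have hit := iterate hH (fun ls => ‖SD φ θ u L ls‖ / N) (fun ls => by positivity) hstep k []
  have hSS : ∑ n ∈ range L, e (θ * φ 0 (u + n)) = SD φ θ u L [] := by
    unfold SD
    simp only [List.sum_nil, Nat.sub_zero]
    rfl
  rw [hSS]
  refine hit.trans ?_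
  have hC := Cq_pos k
  gcongr
  have h1 := Av_le (H := H) (T := fun ls => ‖SD φ θ u L ls‖ / N)
    (κ := 2 / (θ * lo) / N) k (by
      intro ls hlen hent
      have hpos : 0 < ls.prod := List.prod_pos fun l hl => (hent l hl).1
      have hle : ls.prod ≤ H ^ k := by
        have := List.prod_le_pow_card ls H (fun l hl => (hent l hl).2.le)
        rwa [hlen] at this
      have hle' : ((ls.prod : ℕ) : ℝ) ≤ (H : ℝ) ^ k := by exact_mod_cast hle
      have h1 := SD_le hlo θ hθ h u L hu huL ls hpos hlen (by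
        refine le_trans ?_ hup
        gcongr)
      have hP : (0 : ℝ) < (ls.prod : ℕ) := by exact_mod_cast hpos
      calc ‖SD φ θ u L ls‖ / N ≤ (2 / (θ * lo * (ls.prod : ℕ))) / N := by
            gcongr
        _ = _ := by field_simp) k [] (by simp) (by simp)
  have h2 : (∑ l ∈ Ico 1 H, (1 : ℝ) / l) / H ≤ 1 := by
    rw [div_le_one (by linarith)]
    have : ∑ l ∈ Ico 1 H, (1 : ℝ) / l ≤ ∑ l ∈ Ico 1 H, (1 : ℝ) := by
      apply Finset.sum_le_sum
      intro l hl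
      rw [mem_Ico] at hl
      rw [div_le_one (by exact_mod_cast hl.1)]
      exact_mod_cast hl.1
    refine this.trans ?_
    rw [sum_const, nsmul_eq_mul, mul_one, Nat.card_Ico]
    exact_mod_cast Nat.sub_le _ _
  have h3 : ((∑ l ∈ Ico 1 H, (1 : ℝ) / l) / H) ^ k ≤ 1 := by
    apply pow_le_one₀ _ h2
    positivity
  have h4 : 0 ≤ 2 / (θ * lo) / (N : ℝ) := by positivity
  calc Av H (fun ls => ‖SD φ θ u L ls‖ / N) k [] ≤
        2 / (θ * lo) / N * ((∑ l ∈ Ico 1 H, (1 : ℝ) / l) / H) ^ k / (([] : List ℕ).prod : ℕ) := h1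
    _ = 2 / (θ * lo) / N * ((∑ l ∈ Ico 1 H, (1 : ℝ) / l) / H) ^ k := by simp
    _ ≤ 2 / (θ * lo) / N * 1 := by gcongr
    _ = _ := by ring

end Pool.Agent.TH915.PW
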