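import Pool.Agent.TH915.PW.Dioph
import Pool.Agent.W147.PS.Scale

set_option autoImplicit false

/-!
Small rational multiples of a number with a good rational approximation are on the minor arcs.
-/

namespace Pool.Agent.TH915.PW

open Filter
open Pool.Agent.W147.PS (ev_pow)

lemma dist_of_approx {ξ : ℝ} {a : ℤ} {D T : ℕ} (hcop : IsCoprime a (D : ℤ))
    (hap : |ξ - a / D| ≤ 1 / (D : ℝ) ^ 2) (hT : 1 ≤ T) (hTD : 2 * T ≤ D) (m : ℤ) :
    1 / (2 * (D : ℝ)) ≤ |(T : ℝ) * ξ - m| := by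
  obtain ⟨h1, h2⟩ := fract_of_approx hcop hap hT hTD
  set x : ℝ := (T : ℝ) * ξ with hx
  have hfl : (⌊x⌋ : ℝ) + Int.fract x = x := Int.floor_add_fract x
  rcases le_or_gt m ⌊x⌋ with h | h
  · have h3 : (m : ℝ) ≤ ⌊x⌋ := by exact_mod_cast h
    rw [abs_of_nonneg (by linarith [Int.fract_nonneg x])]
    linarith
  · have h3 : (⌊x⌋ : ℝ) + 1 ≤ m := by exact_mod_cast h
    rw [abs_of_nonpos (by linarith [Int.fract_lt_one x])]
    linarith

/-- the frequencies `h ξ / q + j / d` are on the minor arcs -/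
lemma freq_approx (τ η η₂ : ℝ) (hη : 0 < η) (hη₂ : 0 < η₂) (h1 : 4 * η + η₂ < τ)
    (h2 : η + η₂ < 1 / 2) (d : ℕ) (hd : 1 ≤ d) :
    ∀ᶠ Z : ℝ in atTop, ∀ ξ : ℝ, GS ξ τ Z → ∀ h q : ℕ, 1 ≤ h → (h : ℝ) ≤ Z ^ (4 * η) → 1 ≤ q →
      (q : ℝ) ≤ Z ^ η → ∀ j : ℤ, ∃ (c : ℤ) (D : ℕ), IsCoprime c (D : ℤ) ∧ Z ^ η₂ ≤ D ∧
        (D : ℝ) ≤ Z ^ (1 - η₂) ∧ |(h : ℝ) / q * ξ + j / d - c / D| ≤ 1 / (D : ℝ) ^ 2 := by
  have hd0 : (0 : ℝ) < d := by exact_mod_cast hd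
  filter_upwards [eventually_ge_atTop (1 : ℝ), ev_pow (4 * η + η₂) τ (2 * d) h1,
    ev_pow (1 / 2) (1 - η₂ - η) (4 * d) (by linarith),
    (tendsto_rpow_atTop (show (0 : ℝ) < 1 - η₂ by linarith)).eventually_ge_atTop 1]
    with Z hZ1 hp1 hp2 hp3
  intro ξ hGS h q hh hhZ hq hqZ j
  obtain ⟨a, D₀, hcop, hD1, hD2, hap⟩ := hGS
  have hZ0 : 0 < Z := by linarith
  have hq0 : (0 : ℝ) < q := by exact_mod_cast hq
  have hh0 : (0 : ℝ) < h := by exact_mod_cast hh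
  have hD₀0 : (0 : ℝ) < D₀ := lt_of_lt_of_le (by positivity) hD1
  set n : ℕ := ⌊Z ^ (1 - η₂)⌋₊ with hn
  have hn1 : 0 < n := Nat.floor_pos.mpr hp3
  have hn2 : (n : ℝ) ≤ Z ^ (1 - η₂) := Nat.floor_le (by positivity)
  have hn3 : Z ^ (1 - η₂) < n + 1 := Nat.lt_floor_add_one _
  obtain ⟨c, D, hD, hDn, hcop2, hap2, hap3⟩ := approx_of_dirichlet ((h : ℝ) / q * ξ + j / d) n hn1
  have hD0 : (0 : ℝ) < D := by exact_mod_cast hD
  have hDn' : (D : ℝ) ≤ n := by exact_mod_cast hDn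
  refine ⟨c, D, hcop2, ?_, by linarith, hap2⟩
  by_contra hcon
  push Not at hcon
  set T : ℕ := h * d * D with hT
  have hT1 : 1 ≤ T := by
    have : 0 < h * d * D := by positivity
    exact this
  have hTD : 2 * T ≤ D₀ := by
    have h3 : ((2 * T : ℕ) : ℝ) ≤ D₀ := by
      rw [hT]
      push_cast
      calc 2 * ((h : ℝ) * d * D) ≤ 2 * (Z ^ (4 * η) * d * Z ^ η₂) := by gcongr
        _ = 2 * d * (Z ^ (4 * η) * Z ^ η₂) := by ring
        _ = 2 * d * Z ^ (4 * η + η₂) := by rw [Real.rpow_add hZ0]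
        _ ≤ Z ^ τ := hp1
        _ ≤ D₀ := hD1
    exact_mod_cast h3
  have h4 := dist_of_approx hcop hap hT1 hTD (q * d * c - j * q * D)
  have h5 : (T : ℝ) * ξ - ((q * d * c - j * q * D : ℤ) : ℝ) =
      q * d * D * ((h : ℝ) / q * ξ + j / d - c / D) := by
    rw [hT]
    push_cast
    field_simp
    ring
  rw [h5, abs_mul, abs_of_pos (by positivity)] at h4
  have h6 : (q : ℝ) * d * D * |(h : ℝ) / q * ξ + j / d - c / D| ≤ q * d / (n + 1) := by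
    calc (q : ℝ) * d * D * |(h : ℝ) / q * ξ + j / d - c / D| ≤
        q * d * D * (1 / ((n + 1) * D)) := by gcongr
      _ = q * d / (n + 1) := by field_simp
  have h7 : (q : ℝ) * d / (n + 1) < 1 / (2 * D₀) := by
    rw [div_lt_div_iff₀ (by positivity) (by positivity), one_mul]
    have h8 : (q : ℝ) * d * (2 * D₀) ≤ 2 * d * (Z ^ η * Z ^ (1 / 2 : ℝ)) := by
      calc (q : ℝ) * d * (2 * D₀) = 2 * d * (q * D₀) := by ring
        _ ≤ _ := by gcongr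
    have h9 : 4 * d * (Z ^ η * Z ^ (1 / 2 : ℝ)) ≤ Z ^ (1 - η₂) := by
      calc 4 * d * (Z ^ η * Z ^ (1 / 2 : ℝ)) = Z ^ η * (4 * d * Z ^ (1 / 2 : ℝ)) := by ring
        _ ≤ Z ^ η * Z ^ (1 - η₂ - η) := by gcongr
        _ = Z ^ (1 - η₂) := by rw [← Real.rpow_add hZ0]; congr 1; ring
    have h10 : 0 < Z ^ (1 - η₂) := by positivity
    nlinarith
  linarith

end Pool.Agent.TH915.PW
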