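import Pool.Agent.TH915.PW.Power

set_option autoImplicit false

/-!
Generalised polynomials `∑ a_x t ^ x` whose leading exponent is not an integer satisfy the
assumptions of `smooth_main`.
-/

namespace Pool.Agent.TH915.PW

open Finset Filter
open Pool.Agent.W147.PS (ff ff_compare ev_pow)

/-- the lower terms are small -/
lemma lower_small (F : Finset ℝ) (a : ℝ → ℝ) (c : ℝ) (hF : ∀ x ∈ F, x < c) (m : ℕ) (η : ℝ)
    (hη : 0 < η) : ∀ᶠ t : ℝ in atTop, |∑ x ∈ F, pw (a x) x m t| ≤ η * t ^ (c - m) := by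
  have h1 : ∀ x ∈ F, ∀ᶠ t : ℝ in atTop, |pw (a x) x m t| ≤ η / (F.card + 1) * t ^ (c - m) := by
    intro x hx
    have hxc := hF x hx
    set D : ℝ := |a x * ∏ j ∈ range m, (x - j)| with hD
    filter_upwards [ev_pow (x - m) (c - m) (D * ((F.card + 1) / η)) (by linarith),
      eventually_gt_atTop (0 : ℝ)] with t h1 h2
    unfold pw
    rw [abs_mul, abs_of_pos (Real.rpow_pos_of_pos h2 _), ← hD]
    have h3 : (0 : ℝ) < F.card + 1 := by positivity
    rw [div_mul_eq_mul_div, le_div_iff₀ h3]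
    have h4 : D * t ^ (x - m) * (F.card + 1) = η * (D * ((F.card + 1) / η) * t ^ (x - m)) := by
      field_simp
    rw [h4]
    exact mul_le_mul_of_nonneg_left h1 hη.le
  have h2 := (Filter.eventually_all_finset F).mpr h1
  filter_upwards [h2, eventually_gt_atTop (0 : ℝ)] with t ht ht0
  calc |∑ x ∈ F, pw (a x) x m t| ≤ ∑ x ∈ F, |pw (a x) x m t| := Finset.abs_sum_le_sum_abs _ _
    _ ≤ ∑ x ∈ F, η / (F.card + 1) * t ^ (c - m) := Finset.sum_le_sum ht
    _ = F.card * (η / (F.card + 1)) * t ^ (c - m) := by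
        rw [sum_const, nsmul_eq_mul]; ring
    _ ≤ η * t ^ (c - m) := by
        apply mul_le_mul_of_nonneg_right _ (Real.rpow_nonneg ht0.le _)
        rw [mul_div_assoc', div_le_iff₀ (by positivity)]
        nlinarith

/-- record gaps around the values of generalised polynomials with non-integral leading exponent -/
theorem genpoly_main (F : Finset ℝ) (a : ℝ → ℝ) (c : ℝ) (hcF : c ∈ F) (hmax : ∀ x ∈ F, x ≤ c)
    (hac : 0 < a c) (hc : 0 < c) (hcn : ∀ m : ℕ, c ≠ m) :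
    ∃ κ : ℝ, 0 < κ ∧ ∃ δ : ℝ, 0 < δ ∧ ∃ M₀ : ℝ, ∀ M : ℝ, M₀ ≤ M → ∃ n : ℕ, M < n ∧
      (n : ℝ) ≤ M + M ^ (1 - δ) ∧ ∀ q : ℕ, q.Prime →
        κ * ff M < |(q : ℝ) - ∑ x ∈ F, a x * (n : ℝ) ^ x| := by
  set k : ℕ := ⌊c⌋₊ with hk
  have hk1 : (k : ℝ) ≤ c := Nat.floor_le hc.le
  have hk1' : (k : ℝ) < c := lt_of_le_of_ne hk1 (hcn k).symm
  have hk2 : c < k + 1 := Nat.lt_floor_add_one _
  set β : ℝ := c - k with hβ
  have hβ0 : 0 < β := by linarith
  have hβ1 : β < 1 := by linarith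
  set ε : ℝ := min β (1 - β) / 2 with hε
  have hmin0 : 0 < min β (1 - β) := lt_min hβ0 (by linarith)
  have hε0 : 0 < ε := by positivity
  have hεβ : ε < β := by
    have := min_le_left β (1 - β)
    linarith
  have hεβ' : ε < 1 - β := by
    have := min_le_right β (1 - β)
    linarith
  set G : Finset ℝ := F.erase c with hG
  have hGlt : ∀ x ∈ G, x < c := by
    intro x hx
    rw [hG, Finset.mem_erase] at hx
    exact lt_of_le_of_ne (hmax x hx.2) hx.1
  set φ : ℕ → ℝ → ℝ := fun m t => ∑ x ∈ F, pw (a x) x m t with hφ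
  have hsplit : ∀ m t, φ m t = pw (a c) c m t + ∑ x ∈ G, pw (a x) x m t := by
    intro m t
    rw [hφ, hG]
    exact (Finset.add_sum_erase F (fun x => pw (a x) x m t) hcF).symm
  set C : ℝ := a c * ∏ j ∈ range (k + 1), (c - j) with hC
  have hC0 : 0 < C := by
    rw [hC]
    apply mul_pos hac
    apply prod_pos
    intro j hj
    have h1 : j ≤ k := Nat.lt_succ_iff.mp (mem_range.mp hj)
    have h2 : (j : ℝ) ≤ k := by exact_mod_cast h1
    linarith
  have e1 : ∀ t, pw (a c) c (k + 1) t = C * t ^ (c - ((k + 1 : ℕ) : ℝ)) := fun t => rfl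
  have e2 : ∀ t, pw (a c) c (k + 2) t = -(C * (1 - β)) * t ^ (c - ((k + 2 : ℕ) : ℝ)) := by
    intro t
    unfold pw
    rw [prod_range_succ, hC, hβ]
    push_cast
    ring
  have hev : ∀ᶠ t : ℝ in atTop, t ^ (ε - 1) ≤ φ (k + 1) t ∧ φ (k + 1) t ≤ t ^ (-ε) ∧
      φ (k + 2) t ≤ 0 ∧ 0 < t := by
    filter_upwards [ev_pow (ε - 1) (β - 1) (2 / C) (by linarith),
      ev_pow (β - 1) (-ε) (2 * C) (by linarith),
      lower_small G a c hGlt (k + 1) (C / 2) (by positivity),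
      lower_small G a c hGlt (k + 2) (C * (1 - β)) (mul_pos hC0 (by linarith)),
      eventually_gt_atTop (0 : ℝ)] with t h1 h2 h3 h4 h5
    have e3 : c - ((k + 1 : ℕ) : ℝ) = β - 1 := by push_cast; rw [hβ]; ring
    rw [hsplit, hsplit, e1, e2]
    rw [e3] at h3 ⊢
    have hp := Real.rpow_pos_of_pos h5 (β - 1)
    have h3' := abs_le.mp h3
    have h4' := abs_le.mp h4
    refine ⟨?_, ?_, ?_, h5⟩
    · have h6 : t ^ (ε - 1) ≤ C / 2 * t ^ (β - 1) := by
        calc t ^ (ε - 1) = C / 2 * (2 / C * t ^ (ε - 1)) := by field_simp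
          _ ≤ _ := mul_le_mul_of_nonneg_left h1 (by positivity)
      linarith [h3'.1]
    · nlinarith [h3'.2]
    · linarith [h4'.2]
  obtain ⟨t₁, ht₁⟩ := eventually_atTop.mp hev
  obtain ⟨κ, hκ, δ, hδ, M₀, h⟩ := smooth_main k ε hε0 φ t₁
    (fun m _ t ht => by
      have ht0 := (ht₁ t ht).2.2.2
      have := HasDerivAt.fun_sum (u := F) (fun x _ => pw_der (a x) x m t ht0)
      exact this)
    (fun t ht => (ht₁ t ht).1) (fun t ht => (ht₁ t ht).2.1) (fun t ht => (ht₁ t ht).2.2.1)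
  refine ⟨κ, hκ, δ, hδ, M₀, fun M hM => ?_⟩
  obtain ⟨n, h1, h2, h3⟩ := h M hM
  refine ⟨n, h1, h2, fun q hq => ?_⟩
  have h4 := h3 q hq
  have e3 : φ 0 n = ∑ x ∈ F, a x * (n : ℝ) ^ x := by
    rw [hφ]
    apply Finset.sum_congr rfl
    intro x _
    unfold pw
    simp
  rwa [e3] at h4

end Pool.Agent.TH915.PW
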