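import Pool.Agent.TH915.PW.Crit
import Pool.Agent.W147.PS.Scale

set_option autoImplicit false

/-! The covering criterion for families of integers, from exponential sums over the rationals `h / q`. -/

namespace Pool.Agent.TH915.PW

open Finset Filter
open Pool.Agent.H469R2.NK (e norm_e e_add)
open Pool.Agent.W147.PS (ff ff_compare ev_pow)

/-- residue classes from exponential sums -/
lemma class_le {ι : Type*} (s : Finset ι) (v : ι → ℤ) (q : ℕ) (hq : 1 ≤ q) (E : ℝ) (hE0 : 0 ≤ E)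
    (hE : ∀ h : ℕ, 1 ≤ h → h < q → ‖∑ i ∈ s, e ((h : ℝ) / q * v i)‖ ≤ E) (r : ℤ) :
    |((s.filter (fun i => (q : ℤ) ∣ v i - r)).card : ℝ) - s.card / q| ≤ E := by
  classical
  have hq0 : 0 < q := hq
  have hq' : (0 : ℝ) < q := by exact_mod_cast hq0
  have hqc : (q : ℝ) ≠ 0 := hq'.ne'
  -- the character sum of one integer
  have h1 : ∀ m : ℤ, ∑ h ∈ range q, e (m * ((h : ℝ) / q)) = if (q : ℤ) ∣ m then (q : ℂ) else 0 := by
    intro m
    split_ifs with hm
    · obtain ⟨t, rfl⟩ := hm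
      have : ∀ h ∈ range q, e (((q : ℤ) * t : ℤ) * ((h : ℝ) / q)) = 1 := by
        intro h _
        have e1 : (((q : ℤ) * t : ℤ) : ℝ) * ((h : ℝ) / q) = ((t * h : ℤ) : ℝ) := by
          push_cast
          field_simp
        rw [e1]
        exact e_int _
      rw [sum_congr rfl this]
      simp
    · exact sum_char q hq0 m hm
  have h2 : ∑ h ∈ range q, e (-(r : ℝ) * ((h : ℝ) / q)) * ∑ i ∈ s, e ((h : ℝ) / q * v i) =
      (q : ℂ) * ((s.filter (fun i => (q : ℤ) ∣ v i - r)).card : ℂ) := by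
    have : ∀ h ∈ range q, e (-(r : ℝ) * ((h : ℝ) / q)) * ∑ i ∈ s, e ((h : ℝ) / q * v i) =
        ∑ i ∈ s, e (((v i - r : ℤ) : ℝ) * ((h : ℝ) / q)) := by
      intro h _
      rw [mul_sum]
      refine sum_congr rfl fun i _ => ?_
      rw [← e_add]
      congr 1
      push_cast
      ring
    rw [sum_congr rfl this, sum_comm, sum_congr rfl (fun i _ => h1 (v i - r)), ← sum_filter,
      sum_const, nsmul_eq_mul, mul_comm]
  have h3 : ∑ h ∈ range q, e (-(r : ℝ) * ((h : ℝ) / q)) * ∑ i ∈ s, e ((h : ℝ) / q * v i) =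
      (s.card : ℂ) + ∑ h ∈ Ico 1 q, e (-(r : ℝ) * ((h : ℝ) / q)) * ∑ i ∈ s, e ((h : ℝ) / q * v i) := by
    rw [range_eq_Ico, sum_eq_sum_Ico_succ_bot hq0]
    congr 1
    have e0 : e 0 = 1 := by simpa using e_int 0
    simp [e0]
  have h4 : ‖∑ h ∈ Ico 1 q, e (-(r : ℝ) * ((h : ℝ) / q)) * ∑ i ∈ s, e ((h : ℝ) / q * v i)‖ ≤ q * E := by
    refine (norm_sum_le _ _).trans ?_
    calc _ ≤ ∑ h ∈ Ico 1 q, E := by
          refine sum_le_sum fun h hh => ?_
          rw [mem_Ico] at hh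
          rw [norm_mul, norm_e, one_mul]
          exact hE h hh.1 hh.2
      _ ≤ q * E := by
          rw [sum_const, Nat.card_Ico, nsmul_eq_mul]
          refine mul_le_mul_of_nonneg_right ?_ hE0
          exact_mod_cast Nat.sub_le _ _
  have h5 : (q : ℂ) * ((s.filter (fun i => (q : ℤ) ∣ v i - r)).card : ℂ) - s.card =
      ∑ h ∈ Ico 1 q, e (-(r : ℝ) * ((h : ℝ) / q)) * ∑ i ∈ s, e ((h : ℝ) / q * v i) := by
    rw [← h2, h3]
    ring
  have h6 : |(q : ℝ) * ((s.filter (fun i => (q : ℤ) ∣ v i - r)).card : ℝ) - s.card| ≤ q * E := by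
    rw [← h5] at h4
    have h7 : ((q : ℂ) * ((s.filter (fun i => (q : ℤ) ∣ v i - r)).card : ℂ) - s.card) =
        (((q : ℝ) * ((s.filter (fun i => (q : ℤ) ∣ v i - r)).card : ℝ) - s.card : ℝ) : ℂ) := by
      push_cast
      ring
    rw [h7, Complex.norm_real, Real.norm_eq_abs] at h4
    exact h4
  have h8 : ((s.filter (fun i => (q : ℤ) ∣ v i - r)).card : ℝ) - s.card / q =
      ((q : ℝ) * ((s.filter (fun i => (q : ℤ) ∣ v i - r)).card : ℝ) - s.card) / q := by
    field_simp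
  rw [h8, abs_div, abs_of_pos hq', div_le_iff₀ hq']
  linarith

/-- A finite family of integers whose exponential sums at the small rationals `h / q` save a
power of `M` has a member without primes at distance `κ log M (log₂ M)² log₄ M / (log₃ M)²`. -/
theorem crit_int (η : ℝ) (h0 : 0 < η) (h1 : η ≤ 1) : ∃ κ : ℝ, 0 < κ ∧ ∀ᶠ M : ℝ in atTop,
    ∀ (ι : Type) (s : Finset ι) (v : ι → ℤ), s.Nonempty → (∀ i ∈ s, M ≤ v i) →
    (∀ q h : ℕ, (q : ℝ) ≤ M ^ η → 1 ≤ h → h < q →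
      ‖∑ i ∈ s, e ((h : ℝ) / q * v i)‖ ≤ s.card * M ^ (-η)) →
    ∃ i ∈ s, ∀ q : ℕ, q.Prime → κ * ff M < |(q : ℝ) - v i| := by
  obtain ⟨κ, hκ, X₀, hc⟩ := crit
  refine ⟨κ * (η / 32), by positivity, ?_⟩
  filter_upwards [ff_compare η h0 h1, (tendsto_rpow_atTop h0).eventually_ge_atTop (max X₀ 1),
    eventually_ge_atTop (1 : ℝ), Pool.Agent.H256R2.SC.ev_log_sq, ev_pow (1 / 10) 1 4 (by norm_num)]
    with M hM hMX hM1 hlog hM10
  intro ι s v hs hv hE
  have hM0 : 0 < M := by linarith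
  obtain ⟨hfl, hcr⟩ := hc (M ^ η) ((le_max_left _ _).trans hMX)
  have hX1 : 1 ≤ M ^ η := (le_max_right _ _).trans hMX
  have hXM : M ^ η ≤ M := by
    calc M ^ η ≤ M ^ (1 : ℝ) := Real.rpow_le_rpow_of_exponent_le hM1 h1
      _ = M := Real.rpow_one M
  have hpX : (M ^ η) ^ (1 / 10 : ℝ) ≤ M / 4 := by
    rw [Real.rpow_one] at hM10
    have : (M ^ η) ^ (1 / 10 : ℝ) ≤ M ^ (1 / 10 : ℝ) :=
      Real.rpow_le_rpow (by positivity) hXM (by norm_num)
    linarith
  have hN : (0 : ℝ) < s.card := by exact_mod_cast hs.card_pos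
  obtain ⟨i, hi, hi2⟩ := hcr ι s v hs (by
    intro q hq hqX r
    refine (class_le s v q hq (s.card * M ^ (-η)) (by positivity) ?_ r).trans ?_
    · intro h hh1 hh2
      apply hE q h _ hh1 hh2
      refine hqX.trans ?_
      calc (M ^ η) ^ (2 / 5 : ℝ) ≤ (M ^ η) ^ (1 : ℝ) :=
            Real.rpow_le_rpow_of_exponent_le hX1 (by norm_num)
        _ = _ := Real.rpow_one _
    · apply mul_le_mul_of_nonneg_left _ hN.le
      rw [← Real.rpow_mul hM0.le]
      apply Real.rpow_le_rpow_of_exponent_le hM1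
      linarith)
  have h5 := (hM.2 (M ^ η) le_rfl (by
    calc M ^ η ≤ M ^ (2 : ℝ) := Real.rpow_le_rpow_of_exponent_le hM1 (by linarith)
      _ = M ^ 2 := by norm_num)).1
  have h6 : κ * (η / 32) * ff M ≤ κ * Pool.Agent.H256R2.SC.ff (M ^ η) := by
    calc κ * (η / 32) * ff M = κ * (η / 32 * ff M) := by ring
      _ ≤ _ := mul_le_mul_of_nonneg_left h5 hκ.le
  refine ⟨i, hi, fun q hq => ?_⟩
  by_contra hcon
  push Not at hcon
  obtain ⟨p, hp, hpX', hpd⟩ := hi2 q (by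
    push_cast
    linarith)
  have h7 : p = q := (Nat.prime_dvd_prime_iff_eq hp hq).mp (by exact_mod_cast hpd)
  rw [h7] at hpX'
  have h8 := hv i hi
  have h9 := (abs_le.mp hcon).1
  have h10 : (Real.log (M ^ η)) ^ 2 ≤ (Real.log M) ^ 2 := by
    rw [Real.log_rpow hM0]
    have := Real.log_nonneg hM1
    apply pow_le_pow_left₀ (by positivity)
    nlinarith
  linarith

end Pool.Agent.TH915.PW
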