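import Pool.Agent.TH915.PW.Scaled
import Pool.Agent.TH915.PW.Exp

set_option autoImplicit false

/-!
Record prime-free neighbourhoods of the values of smooth functions of non-integral order.
-/

namespace Pool.Agent.TH915.PW

open Finset Filter
open Pool.Agent.H469R2.NK (e norm_e e_add Cq Cq_pos)
open Pool.Agent.W147.PS (ff ff_compare ev_pow)

/-- growth of the primitive -/
lemma grow (ε : ℝ) (hε : 0 < ε) (f f' : ℝ → ℝ)
    (hder : ∀ᶠ t : ℝ in atTop, HasDerivAt f (f' t) t)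
    (hlow : ∀ᶠ t : ℝ in atTop, t ^ (ε - 1) ≤ f' t) :
    ∀ᶠ t : ℝ in atTop, t ^ (ε / 2) ≤ f t := by
  obtain ⟨t₁, ht₁⟩ := eventually_atTop.mp (hder.and (hlow.and (eventually_ge_atTop (1 : ℝ))))
  have ht1 : 1 ≤ t₁ := (ht₁ t₁ le_rfl).2.2
  set g : ℝ → ℝ := fun t => f t - t ^ ε / ε with hg
  have hgd : ∀ t, t₁ ≤ t → HasDerivAt g (f' t - t ^ (ε - 1)) t := by
    intro t ht
    have h1 := (ht₁ t ht).1
    have h2 : HasDerivAt (fun t : ℝ => t ^ ε / ε) (ε * t ^ (ε - 1) / ε) t :=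
      (Real.hasDerivAt_rpow_const (Or.inl (by linarith : t ≠ 0))).div_const ε
    have h3 := h1.sub h2
    rwa [mul_div_cancel_left₀ _ hε.ne'] at h3
  have hmono : MonotoneOn g (Set.Ici t₁) := by
    apply monotoneOn_of_deriv_nonneg (convex_Ici t₁)
    · intro t ht
      exact (hgd t ht).continuousAt.continuousWithinAt
    · intro t ht
      rw [interior_Ici] at ht
      exact (hgd t (le_of_lt ht)).differentiableAt.differentiableWithinAt
    · intro t ht
      rw [interior_Ici] at ht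
      rw [(hgd t (le_of_lt ht)).deriv]
      have := (ht₁ t (le_of_lt ht)).2.1
      linarith
  have hev : ∀ᶠ t : ℝ in atTop, 2 * ε * t ^ (ε / 2) ≤ t ^ ε := ev_pow _ _ _ (by linarith)
  have hev2 : ∀ᶠ t : ℝ in atTop, 2 * ε * |g t₁| ≤ t ^ ε :=
    (tendsto_rpow_atTop hε).eventually_ge_atTop _
  filter_upwards [hev, hev2, eventually_ge_atTop t₁] with t h1 h2 h3
  have h4 := hmono (Set.mem_Ici.mpr le_rfl) (Set.mem_Ici.mpr h3) h3
  have h5 : f t = g t + t ^ ε / ε := by rw [hg]; ring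
  have h6 : -|g t₁| ≤ g t₁ := neg_abs_le _
  have h7 : t ^ (ε / 2) + |g t₁| ≤ t ^ ε / ε := by
    rw [le_div_iff₀ hε]
    nlinarith
  linarith

/-- the assumptions imply growth of the function -/
lemma grow_all (k : ℕ) (ε : ℝ) (hε : 0 < ε) (hε1 : ε ≤ 1) (φ : ℕ → ℝ → ℝ) (t₀ : ℝ)
    (hder : ∀ m ≤ k + 1, ∀ t, t₀ ≤ t → HasDerivAt (φ m) (φ (m + 1) t) t)
    (hlow : ∀ t, t₀ ≤ t → t ^ (ε - 1) ≤ φ (k + 1) t) :
    ∀ j ≤ k, ∀ᶠ t : ℝ in atTop, t ^ (ε / 2) ≤ φ (k - j) t := by
  intro j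
  induction j with
  | zero =>
    intro _
    apply grow ε hε (φ k) (φ (k + 1))
    · filter_upwards [eventually_ge_atTop t₀] with t ht
      exact hder k (by omega) t ht
    · filter_upwards [eventually_ge_atTop t₀] with t ht
      exact hlow t ht
  | succ j ih =>
    intro hj
    have h1 := ih (by omega)
    apply grow ε hε (φ (k - (j + 1))) (φ (k - j))
    · filter_upwards [eventually_ge_atTop t₀] with t ht
      have := hder (k - (j + 1)) (by omega) t ht
      rwa [show k - (j + 1) + 1 = k - j by omega] at this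
    · filter_upwards [h1, eventually_ge_atTop (1 : ℝ)] with t ht ht1
      exact (Real.rpow_le_rpow_of_exponent_le ht1 (by linarith)).trans ht

lemma root_le (x y : ℝ) (k : ℕ) (hx : 0 ≤ x) (h : x ^ (2 ^ k) ≤ y) : x ≤ y ^ ((1 : ℝ) / 2 ^ k) := by
  have h1 : x = (x ^ (2 ^ k)) ^ ((1 : ℝ) / 2 ^ k) := by
    rw [← Real.rpow_natCast, ← Real.rpow_mul hx]
    push_cast
    rw [mul_one_div_cancel (by positivity), Real.rpow_one]
  rw [h1]
  exact Real.rpow_le_rpow (by positivity) h (by positivity)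

set_option maxHeartbeats 4000000 in
/-- the main theorem for smooth functions -/
theorem smooth_main (k : ℕ) (ε : ℝ) (hε : 0 < ε) (φ : ℕ → ℝ → ℝ) (t₀ : ℝ)
    (hder : ∀ m ≤ k + 1, ∀ t, t₀ ≤ t → HasDerivAt (φ m) (φ (m + 1) t) t)
    (hlow : ∀ t, t₀ ≤ t → t ^ (ε - 1) ≤ φ (k + 1) t)
    (hup : ∀ t, t₀ ≤ t → φ (k + 1) t ≤ t ^ (-ε))
    (hdec : ∀ t, t₀ ≤ t → φ (k + 2) t ≤ 0) :
    ∃ κ : ℝ, 0 < κ ∧ ∃ δ : ℝ, 0 < δ ∧ ∃ M₀ : ℝ, ∀ M : ℝ, M₀ ≤ M → ∃ n : ℕ, M < n ∧
      (n : ℝ) ≤ M + M ^ (1 - δ) ∧ ∀ q : ℕ, q.Prime → κ * ff M < |(q : ℝ) - φ 0 n| := by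
  have hε2 : ε ≤ 1 / 2 := by
    have h1 := (hlow (max t₀ 2) (le_max_left _ _)).trans (hup (max t₀ 2) (le_max_left _ _))
    have h2 : (1 : ℝ) < max t₀ 2 := lt_of_lt_of_le (by norm_num) (le_max_right _ _)
    have h3 := (Real.rpow_le_rpow_left_iff h2).mp h1
    linarith
  have hgr := grow_all k ε hε (by linarith) φ t₀ hder hlow k le_rfl
  rw [Nat.sub_self] at hgr
  set σ : ℝ := ε / (4 * (k + 1)) with hσ
  have hk0 : (0 : ℝ) ≤ k := Nat.cast_nonneg k
  have hσ0 : 0 < σ := by positivity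
  have hσε : σ ≤ ε / 4 := by
    rw [hσ]
    apply div_le_div_of_nonneg_left hε.le (by norm_num)
    linarith
  have hσk : σ * k ≤ ε / 4 := by
    have : σ * (4 * (k + 1)) = ε := by rw [hσ]; field_simp
    nlinarith
  set δ' : ℝ := σ / 2 ^ k with hδ'
  have hδ'0 : 0 < δ' := by positivity
  have h2k : (1 : ℝ) ≤ 2 ^ k := one_le_pow₀ (by norm_num)
  have hδ'σ : δ' ≤ σ := div_le_self hσ0.le h2k
  set δ : ℝ := δ' / 3 with hδ
  have hδ0 : 0 < δ := by positivity
  set η : ℝ := δ' / 12 with hη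
  have hη0 : 0 < η := by positivity
  have hη4 : 4 * η = δ' / 3 := by rw [hη]; ring
  obtain ⟨κ, hκ, hcrit⟩ := crit_scaled η hη0 (by linarith)
  have hCq := Cq_pos k
  set C₁ : ℝ := (Cq k * 14) ^ ((1 : ℝ) / 2 ^ k) with hC₁
  have hC₁0 : 0 < C₁ := by positivity
  obtain ⟨M₁, hM₁⟩ := eventually_atTop.mp hgr
  refine ⟨κ, hκ, δ, hδ0, ?_⟩
  apply eventually_atTop.mp
  filter_upwards [hcrit, eventually_ge_atTop (4 : ℝ), eventually_ge_atTop t₀,
    eventually_ge_atTop M₁, eventually_ge_atTop (2 * t₀),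
    ev_pow (1 - δ' ) (1 - 2 * δ' / 3) (2 * C₁) (by linarith),
    ev_pow (-(ε / 2)) 0 8 (by linarith),
    (tendsto_rpow_atTop (show (0 : ℝ) < 1 - δ by linarith)).eventually_ge_atTop 2,
    (tendsto_rpow_atTop hσ0).eventually_ge_atTop 2,
    ev_pow (1 - δ) 1 2 (by linarith), ev_pow σ 1 2 (by linarith)]
    with M hcr hM4 hMt hMM hM2t hp1 hp2 hp3 hp4 hp5 hp6
  have hM0 : 0 < M := by linarith
  have hM1 : 1 ≤ M := by linarith
  rw [Real.rpow_one] at hp5 hp6
  set N : ℕ := ⌊M⌋₊ with hN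
  have hNM : (N : ℝ) ≤ M := Nat.floor_le hM0.le
  have hMN : M < N + 1 := Nat.lt_floor_add_one _
  have hN2 : M / 2 ≤ N := by linarith
  have hN1 : 1 ≤ N := Nat.le_floor (by simpa using hM1)
  have hN1r : (1 : ℝ) ≤ N := by exact_mod_cast hN1
  have hNt : t₀ ≤ N := by linarith
  set L : ℕ := ⌊M ^ (1 - δ)⌋₊ with hL
  have hLM : (L : ℝ) ≤ M ^ (1 - δ) := Nat.floor_le (by positivity)
  have hML : M ^ (1 - δ) / 2 ≤ L := by
    have := Nat.lt_floor_add_one (M ^ (1 - δ))
    linarith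
  have hLN : L ≤ N := by
    have : (L : ℝ) ≤ N := by linarith
    exact_mod_cast this
  have hLpos : 0 < L := by
    have : (0 : ℝ) < L := by linarith
    exact_mod_cast this
  set H : ℕ := ⌊M ^ σ⌋₊ with hH
  have hHM : (H : ℝ) ≤ M ^ σ := Nat.floor_le (by positivity)
  have hMH : M ^ σ / 2 ≤ H := by
    have := Nat.lt_floor_add_one (M ^ σ)
    linarith
  have hH1 : 1 ≤ H := by
    have : (0 : ℝ) < H := by linarith
    exact_mod_cast this
  have hHN : H ≤ N := by
    have : (H : ℝ) ≤ N := by linarith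
    exact_mod_cast this
  -- the phase
  have hHy : Hy k (N : ℝ) (3 * N) ((3 * N : ℝ) ^ (ε - 1)) ((N : ℝ) ^ (-ε)) φ := by
    refine ⟨?_, ?_, ?_, ?_⟩
    · intro m hm t ht
      exact hder m hm t (hNt.trans ht.1)
    · intro t ht
      refine le_trans ?_ (hlow t (hNt.trans ht.1))
      apply Real.rpow_le_rpow_of_nonpos (by linarith [ht.1]) ht.2 (by linarith)
    · intro t ht
      refine (hup t (hNt.trans ht.1)).trans ?_
      apply Real.rpow_le_rpow_of_nonpos (by linarith) ht.1 (by linarith)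
    · intro t ht
      exact hdec t (hNt.trans ht.1)
  have hlo0 : 0 < (3 * N : ℝ) ^ (ε - 1) := by positivity
  obtain ⟨i, hi, hi2⟩ := hcr ℕ (range L) (fun n => φ 0 ((N : ℝ) + 1 + n))
    (by rw [Finset.nonempty_range_iff]; omega) (by
      intro n _
      have hn0 : (0 : ℝ) ≤ n := Nat.cast_nonneg n
      have h1 := hM₁ ((N : ℝ) + 1 + n) (by linarith)
      refine le_trans ?_ h1
      calc M ^ η ≤ M ^ (ε / 2) := Real.rpow_le_rpow_of_exponent_le hM1 (by linarith)
        _ ≤ _ := Real.rpow_le_rpow hM0.le (by linarith) (by linarith)) (by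
      intro q h hq hqX hh hhX
      have hq0 : (0 : ℝ) < q := by exact_mod_cast hq
      have hh1 : (1 : ℝ) ≤ h := by exact_mod_cast hh
      have hq1 : (1 : ℝ) ≤ q := by exact_mod_cast hq
      set θ : ℝ := (h : ℝ) / q with hθ
      have hθ0 : 0 < θ := by positivity
      have hθup : θ ≤ M ^ (4 * η) := (div_le_self (by linarith) hq1).trans hhX
      have hθlow : 1 / θ ≤ M ^ η := by
        rw [hθ, one_div_div]
        exact (div_le_self hq0.le hh1).trans hqX
      have h3N : (N : ℝ) ^ (-ε) ≤ 2 * M ^ (-ε) := by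
        have h1 : (N : ℝ) ^ (-ε) ≤ (M / 2) ^ (-ε) :=
          Real.rpow_le_rpow_of_nonpos (by linarith) hN2 (by linarith)
        refine h1.trans ?_
        rw [Real.div_rpow hM0.le (by norm_num), div_eq_mul_inv, mul_comm]
        apply mul_le_mul_of_nonneg_right _ (by positivity)
        rw [← Real.rpow_neg (by norm_num), neg_neg]
        calc (2 : ℝ) ^ ε ≤ (2 : ℝ) ^ (1 : ℝ) :=
              Real.rpow_le_rpow_of_exponent_le (by norm_num) (by linarith)
          _ = 2 := Real.rpow_one 2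
      have hHk : (H : ℝ) ^ k ≤ M ^ (σ * k) := by
        calc (H : ℝ) ^ k ≤ (M ^ σ) ^ k := pow_le_pow_left₀ (Nat.cast_nonneg _) hHM k
          _ = M ^ (σ * k) := by rw [← Real.rpow_natCast, ← Real.rpow_mul hM0.le]
      have hcond : 2 * (θ * ((N : ℝ) ^ (-ε) * (H : ℝ) ^ k)) ≤ 1 := by
        calc 2 * (θ * ((N : ℝ) ^ (-ε) * (H : ℝ) ^ k)) ≤
            2 * (M ^ (4 * η) * ((2 * M ^ (-ε)) * M ^ (σ * k))) := by gcongr
          _ = 4 * (M ^ (4 * η) * M ^ (-ε) * M ^ (σ * k)) := by ring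
          _ = 4 * M ^ (4 * η + -ε + σ * k) := by
              rw [Real.rpow_add hM0, Real.rpow_add hM0]
          _ ≤ 4 * M ^ (-(ε / 2)) := by
              apply mul_le_mul_of_nonneg_left _ (by norm_num)
              apply Real.rpow_le_rpow_of_exponent_le hM1
              linarith
          _ ≤ 1 := by
              rw [Real.rpow_zero] at hp2
              linarith
      have hexp := exp_bound hlo0 (by positivity) θ hθ0 hHy ((N : ℝ) + 1) N L H hN1 hLN
        (by linarith) (by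
          have : (L : ℝ) ≤ N := by exact_mod_cast hLN
          linarith) hH1 hHN hcond
      have hb : Cq k * (1 / H + 2 / (θ * (3 * N : ℝ) ^ (ε - 1)) / N) ≤
          (Cq k * 14) * M ^ (-σ) := by
        have e1 : 1 / (H : ℝ) ≤ 2 * M ^ (-σ) := by
          rw [Real.rpow_neg hM0.le, div_le_iff₀ (by linarith : (0 : ℝ) < H)]
          have h5 : (0 : ℝ) < M ^ σ := by positivity
          calc (1 : ℝ) = 2 * (M ^ σ)⁻¹ * (M ^ σ / 2) := by field_simp
            _ ≤ _ := by gcongr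
        have e2 : 2 / (θ * (3 * N : ℝ) ^ (ε - 1)) / N ≤ 12 * M ^ (-σ) := by
          have e3 : 2 / (θ * (3 * N : ℝ) ^ (ε - 1)) / N =
              2 * (1 / θ) * (3 * N : ℝ) ^ (1 - ε) * (1 / N) := by
            rw [show (1 : ℝ) - ε = -(ε - 1) by ring, Real.rpow_neg (by positivity)]
            field_simp
          rw [e3]
          have e4 : (3 * N : ℝ) ^ (1 - ε) ≤ 3 * M ^ (1 - ε) := by
            calc (3 * N : ℝ) ^ (1 - ε) ≤ (3 * M) ^ (1 - ε) :=
                  Real.rpow_le_rpow (by positivity) (by linarith) (by linarith)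
              _ = 3 ^ (1 - ε) * M ^ (1 - ε) := Real.mul_rpow (by norm_num) hM0.le
              _ ≤ 3 * M ^ (1 - ε) := by
                  apply mul_le_mul_of_nonneg_right _ (by positivity)
                  calc (3 : ℝ) ^ (1 - ε) ≤ 3 ^ (1 : ℝ) :=
                        Real.rpow_le_rpow_of_exponent_le (by norm_num) (by linarith)
                    _ = 3 := Real.rpow_one 3
          have e5 : 1 / (N : ℝ) ≤ 2 * M ^ (-1 : ℝ) := by
            rw [Real.rpow_neg_one, div_le_iff₀ (by linarith : (0 : ℝ) < N)]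
            calc (1 : ℝ) = 2 * M⁻¹ * (M / 2) := by field_simp
              _ ≤ _ := by gcongr
          calc 2 * (1 / θ) * (3 * N : ℝ) ^ (1 - ε) * (1 / N) ≤
              2 * M ^ η * (3 * M ^ (1 - ε)) * (2 * M ^ (-1 : ℝ)) := by gcongr
            _ = 12 * (M ^ η * M ^ (1 - ε) * M ^ (-1 : ℝ)) := by ring
            _ = 12 * M ^ (η + (1 - ε) + -1) := by
                rw [Real.rpow_add hM0, Real.rpow_add hM0]
            _ ≤ 12 * M ^ (-σ) := by
                apply mul_le_mul_of_nonneg_left _ (by norm_num)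
                apply Real.rpow_le_rpow_of_exponent_le hM1
                linarith
        calc Cq k * (1 / H + 2 / (θ * (3 * N : ℝ) ^ (ε - 1)) / N) ≤
            Cq k * (2 * M ^ (-σ) + 12 * M ^ (-σ)) := by gcongr
          _ = _ := by ring
      have hroot := root_le _ _ k (by positivity) (hexp.trans hb)
      have hr2 : ((Cq k * 14) * M ^ (-σ)) ^ ((1 : ℝ) / 2 ^ k) = C₁ * M ^ (-δ') := by
        rw [Real.mul_rpow (by positivity) (by positivity), ← Real.rpow_mul hM0.le, hC₁, hδ']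
        congr 2
        ring
      rw [hr2, div_le_iff₀ (by linarith : (0 : ℝ) < N)] at hroot
      have hcard : ((range L).card : ℝ) = L := by rw [card_range]
      rw [hcard]
      have hfin : C₁ * M ^ (-δ') * N ≤ L * M ^ (-(4 * η)) := by
        calc C₁ * M ^ (-δ') * N ≤ C₁ * M ^ (-δ') * M := by gcongr
          _ = C₁ * M ^ (1 - δ') := by
              rw [mul_assoc]
              congr 1
              rw [sub_eq_neg_add, Real.rpow_add hM0, Real.rpow_one]
          _ ≤ M ^ (1 - 2 * δ' / 3) / 2 := by linarith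
          _ = (M ^ (1 - δ) / 2) * M ^ (-(4 * η)) := by
              rw [hη4, div_mul_eq_mul_div, ← Real.rpow_add hM0, hδ]
              congr 2
              ring
          _ ≤ _ := by gcongr
      exact hroot.trans hfin)
  refine ⟨N + 1 + i, ?_, ?_, ?_⟩
  · push_cast
    have hn0 : (0 : ℝ) ≤ i := Nat.cast_nonneg i
    linarith
  · rw [Finset.mem_range] at hi
    have : ((N + 1 + i : ℕ) : ℝ) ≤ ((N + L : ℕ) : ℝ) := by exact_mod_cast (by omega)
    push_cast at this ⊢
    linarith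
  · intro q hq
    have := hi2 q hq
    push_cast
    exact this

end Pool.Agent.TH915.PW
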