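import Pool.Agent.TH915.PW.Scaled
import Pool.Agent.TH915.PW.Smooth
import Pool.Agent.TH915.PW.ExpC
import Pool.Agent.TH915.PW.Dioph

set_option autoImplicit false

/-!
Record prime-free neighbourhoods of the values of real polynomials with an irrational coefficient.
-/

namespace Pool.Agent.TH915.PW

open Finset Filter
open Pool.Agent.H469R2.NK (e norm_e e_add Cq Cq_pos)
open Pool.Agent.W147.PS (ff ff_compare ev_pow)

lemma iter_top (g : Polynomial ℝ) (k : ℕ) (hg : g.natDegree ≤ k) (x : ℝ) :
    (Polynomial.derivative^[k] g).eval x = k.factorial * g.coeff k := by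
  have h1 : (Polynomial.derivative^[k] g).natDegree = 0 := by
    have := Polynomial.natDegree_iterate_derivative g k
    omega
  rw [Polynomial.eq_C_of_natDegree_eq_zero h1, Polynomial.eval_C,
    Polynomial.coeff_iterate_derivative, zero_add, Nat.descFactorial_self, nsmul_eq_mul]

lemma poly_phase (g : Polynomial ℝ) (k : ℕ) (hg : g.natDegree ≤ k + 1) (s w b A B : ℝ) :
    Hy k A B (s * b ^ (k + 1) * ((k + 1).factorial * g.coeff (k + 1)))
      (s * b ^ (k + 1) * ((k + 1).factorial * g.coeff (k + 1)))
      (fun i t => s * b ^ i * (Polynomial.derivative^[i] g).eval (w + b * t)) := by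
  refine ⟨?_, ?_, ?_, ?_⟩
  · intro m _ t _
    have h1 : HasDerivAt (fun t : ℝ => w + b * t) b t := by
      simpa using ((hasDerivAt_id t).const_mul b).const_add w
    have h2 := ((Polynomial.derivative^[m] g).hasDerivAt (w + b * t)).comp t h1
    have h3 := h2.const_mul (s * b ^ m)
    rw [← Function.iterate_succ_apply' Polynomial.derivative m g] at h3
    refine h3.congr_deriv ?_
    rw [pow_succ]
    ring
  · intro t _
    rw [iter_top g (k + 1) hg]
  · intro t _
    rw [iter_top g (k + 1) hg]
  · intro t _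
    have : Polynomial.derivative^[k + 2] g = 0 :=
      Polynomial.iterate_derivative_eq_zero (by omega)
    rw [this]
    simp

/-- clearing the denominators of the rational part -/
lemma clear_den (d : ℕ) (r : ℕ → ℚ) : ∃ b : ℕ, 0 < b ∧ ∃ κ : ℕ → ℤ, ∀ i ∈ range d,
    (b : ℝ) * (r i : ℝ) = κ i := by
  refine ⟨∏ i ∈ range d, (r i).den, Finset.prod_pos fun i _ => (r i).den_pos, ?_⟩
  have h : ∀ i : ℕ, ∃ m : ℤ, i ∈ range d → ((∏ i ∈ range d, (r i).den : ℕ) : ℝ) * (r i : ℝ) = m := by
    intro i
    by_cases hi : i ∈ range d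
    · obtain ⟨c, hc⟩ := Finset.dvd_prod_of_mem (fun i => (r i).den) hi
      refine ⟨c * (r i).num, fun _ => ?_⟩
      rw [hc]
      have h1 : ((r i).den : ℝ) * (r i : ℝ) = (r i).num := by
        have := Rat.den_mul_eq_num (r i)
        exact_mod_cast this
      push_cast
      calc ((r i).den : ℝ) * c * (r i : ℝ) = c * (((r i).den : ℝ) * (r i : ℝ)) := by ring
        _ = _ := by rw [h1]
    · exact ⟨0, fun h => absurd h hi⟩
  choose κ hκ using h
  exact ⟨κ, fun i hi => hκ i hi⟩

/-- splitting off the rational part of high degree -/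
lemma split_poly (f : Polynomial ℝ) (j : ℕ) (hrat : ∀ i, j < i → ∃ r : ℚ, f.coeff i = r) :
    ∃ (g : Polynomial ℝ) (b : ℕ) (F : Polynomial ℤ), g.natDegree ≤ j ∧ g.coeff j = f.coeff j ∧
      0 < b ∧ ∀ n : ℤ, f.eval (n : ℝ) = g.eval (n : ℝ) + (F.eval n : ℤ) / b := by
  classical
  have hr : ∀ i : ℕ, ∃ r : ℚ, j < i → f.coeff i = r := by
    intro i
    by_cases h : j < i
    · obtain ⟨r, hr⟩ := hrat i h
      exact ⟨r, fun _ => hr⟩
    · exact ⟨0, fun h' => absurd h' h⟩
  choose r hr using hr
  obtain ⟨b, hb, κ, hκ⟩ := clear_den (f.natDegree + 1) r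
  have hb0 : (b : ℝ) ≠ 0 := by exact_mod_cast hb.ne'
  refine ⟨∑ i ∈ range (j + 1), Polynomial.monomial i (f.coeff i), b,
    ∑ i ∈ (range (f.natDegree + 1)).filter (fun i => j < i), Polynomial.monomial i (κ i),
    ?_, ?_, hb, ?_⟩
  · apply Polynomial.natDegree_sum_le_of_forall_le
    intro i hi
    exact (Polynomial.natDegree_monomial_le _).trans (Nat.lt_succ_iff.mp (mem_range.mp hi))
  · rw [Polynomial.finsetSum_coeff]
    simp only [Polynomial.coeff_monomial]
    rw [Finset.sum_ite_eq' (range (j + 1)) j (fun i => f.coeff i), if_pos (by simp)]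
  · intro n
    rw [Polynomial.eval_eq_sum_range, Polynomial.eval_finsetSum, Polynomial.eval_finsetSum]
    simp only [Polynomial.eval_monomial]
    push_cast
    rw [Finset.sum_div]
    have h1 : ∑ i ∈ (range (f.natDegree + 1)).filter (fun i => j < i), (κ i : ℝ) * (n : ℝ) ^ i / b =
        ∑ i ∈ (range (f.natDegree + 1)).filter (fun i => j < i), f.coeff i * (n : ℝ) ^ i := by
      apply Finset.sum_congr rfl
      intro i hi
      rw [Finset.mem_filter] at hi
      rw [hr i hi.2, ← hκ i hi.1]
      field_simp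
    rw [h1]
    have h2 : ∑ i ∈ range (j + 1), f.coeff i * (n : ℝ) ^ i =
        ∑ i ∈ (range (f.natDegree + 1)).filter (fun i => ¬ j < i), f.coeff i * (n : ℝ) ^ i := by
      symm
      apply Finset.sum_subset
      · intro i hi
        rw [Finset.mem_filter] at hi
        rw [mem_range]
        omega
      · intro i hi hi'
        rw [Finset.mem_filter, mem_range] at hi'
        rw [mem_range] at hi
        have : f.natDegree < i := by omega
        rw [Polynomial.coeff_eq_zero_of_natDegree_lt this, zero_mul]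
    rw [h2, ← Finset.sum_filter_add_sum_filter_not (range (f.natDegree + 1)) (fun i => j < i)
      (fun i => f.coeff i * (n : ℝ) ^ i)]
    ring

/-- splitting a sum into residue classes -/
lemma norm_split (G : ℕ → ℂ) (L B : ℕ) (hB : 0 < B) (T : ℝ)
    (h : ∀ r < B, ‖∑ m ∈ range ((L + (B - 1 - r)) / B), G (r + B * m)‖ ≤ T) :
    ‖∑ n ∈ range L, G n‖ ≤ B * T := by
  have h1 : ∑ n ∈ range L, G n = ∑ r ∈ range B, ∑ n ∈ (range L).filter (fun n => n % B = r), G n := by
    rw [Finset.sum_fiberwise_of_maps_to]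
    intro n _
    exact mem_range.mpr (Nat.mod_lt _ hB)
  rw [h1]
  refine (norm_sum_le _ _).trans ?_
  have h2 : ∀ r ∈ range B, ‖∑ n ∈ (range L).filter (fun n => n % B = r), G n‖ ≤ T := by
    intro r hr
    rw [mem_range] at hr
    refine le_trans (le_of_eq ?_) (h r hr)
    congr 1
    symm
    apply Finset.sum_nbij' (fun m => r + B * m) (fun n => n / B)
    · intro m hm
      rw [mem_range, Nat.lt_div_iff_mul_lt hB] at hm
      rw [Finset.mem_filter, mem_range, Nat.add_mul_mod_self_left, Nat.mod_eq_of_lt hr]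
      refine ⟨?_, rfl⟩
      have := Nat.mul_comm m B
      omega
    · intro n hn
      rw [Finset.mem_filter, mem_range] at hn
      rw [mem_range, Nat.lt_div_iff_mul_lt hB]
      have h3 := Nat.div_add_mod n B
      rw [hn.2] at h3
      have := Nat.mul_comm (n / B) B
      omega
    · intro m _
      rw [Nat.add_mul_div_left _ _ hB, Nat.div_eq_of_lt hr, zero_add]
    · intro n hn
      rw [Finset.mem_filter] at hn
      have h3 := Nat.div_add_mod n B
      rw [hn.2] at h3
      omega
    · intro m _
      rfl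
  refine (Finset.sum_le_sum h2).trans ?_
  rw [sum_const, card_range, nsmul_eq_mul]

end Pool.Agent.TH915.PW
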