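import Pool.Agent.TH915.PW.Poly

set_option autoImplicit false

/-!
Record prime-free neighbourhoods of the values of real polynomials with an irrational coefficient:
the theorem at a good scale and the final statements.
-/

namespace Pool.Agent.TH915.PW

open Finset Filter
open Pool.Agent.H469R2.NK (e norm_e e_add Cq Cq_pos)
open Pool.Agent.W147.PS (ff ff_compare ev_pow)

lemma poly_grow (f : Polynomial ℝ) (hlc : 0 < f.leadingCoeff) (hd : 1 ≤ f.natDegree) :
    ∀ᶠ t : ℝ in atTop, t ^ (1 / 2 : ℝ) ≤ f.eval t := by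
  have h1 := (Polynomial.isEquivalent_atTop_lead f).isLittleO.def (show (0 : ℝ) < 1 / 2 by norm_num)
  filter_upwards [h1, eventually_ge_atTop (1 : ℝ),
    ev_pow (1 / 2) 1 (2 / f.leadingCoeff) (by norm_num)] with t h2 h3 h4
  rw [Real.rpow_one] at h4
  have h5 : 0 ≤ f.leadingCoeff * t ^ f.natDegree := by positivity
  simp only [Pi.sub_apply, Real.norm_eq_abs] at h2
  rw [abs_of_nonneg h5] at h2
  have h6 := (abs_le.mp h2).1
  have h7 : t ≤ t ^ f.natDegree := le_self_pow₀ h3 (by omega)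
  have h8 : f.leadingCoeff * t ≤ f.leadingCoeff * t ^ f.natDegree :=
    mul_le_mul_of_nonneg_left h7 hlc.le
  have h9 : t ^ (1 / 2 : ℝ) ≤ f.leadingCoeff * t / 2 := by
    calc t ^ (1 / 2 : ℝ) = f.leadingCoeff / 2 * (2 / f.leadingCoeff * t ^ (1 / 2 : ℝ)) := by
          field_simp
      _ ≤ f.leadingCoeff / 2 * t := by gcongr
      _ = _ := by ring
  linarith

set_option maxHeartbeats 4000000 in
/-- the theorem at a good scale -/
theorem poly_scale (f : Polynomial ℝ) (hlc : 0 < f.leadingCoeff) (hd : 1 ≤ f.natDegree) (k : ℕ)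
    (hrat : ∀ i, k + 1 < i → ∃ r : ℚ, f.coeff i = r) (τ : ℝ) (hτ0 : 0 < τ) (hτ1 : τ ≤ 1 / 2) :
    ∃ κ : ℝ, 0 < κ ∧ ∀ᶠ Z : ℝ in atTop, GS (f.coeff (k + 1)) τ Z → ∀ M : ℝ, Z ≤ M →
      ∃ n : ℕ, M < n ∧ (n : ℝ) ≤ M + Z ∧ ∀ q : ℕ, q.Prime → κ * ff Z < |(q : ℝ) - f.eval (n : ℝ)| := by
  obtain ⟨g, b, F, hgd, hgj, hb, hfg⟩ := split_poly f (k + 1) hrat
  have hb0 : (0 : ℝ) < b := by exact_mod_cast hb
  have hk0 : (0 : ℝ) ≤ k := Nat.cast_nonneg k
  set σ : ℝ := τ / (8 * (k + 1)) with hσ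
  have hσ0 : 0 < σ := by positivity
  have hσk1 : σ * (k + 1) = τ / 8 := by rw [hσ]; field_simp
  have hσk : σ * k ≤ τ / 8 := by nlinarith
  set δ' : ℝ := σ / 2 ^ k with hδ'
  have hδ'0 : 0 < δ' := by positivity
  have h2k : (1 : ℝ) ≤ 2 ^ k := one_le_pow₀ (by norm_num)
  have hδ'σ : δ' ≤ σ := div_le_self hσ0.le h2k
  set η : ℝ := δ' / 12 with hη
  have hη0 : 0 < η := by positivity
  have hη4 : 4 * η = δ' / 3 := by rw [hη]; ring
  have hησ : η ≤ σ / 12 := by rw [hη]; linarith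
  have hσ8 : σ ≤ τ / 8 := by nlinarith
  have hηk : η * k ≤ τ / 96 := by nlinarith
  obtain ⟨κ, hκ, hcrit⟩ := crit_scaled η hη0 (by linarith)
  have hCq := Cq_pos k
  set C₁ : ℝ := (Cq k * 3) ^ ((1 : ℝ) / 2 ^ k) with hC₁
  have hC₁0 : 0 < C₁ := by positivity
  set CT : ℝ := (b : ℝ) ^ (k + 1) * (k + 1).factorial with hCT
  have hCT0 : 0 < CT := by positivity
  obtain ⟨t₁, ht₁⟩ := eventually_atTop.mp (poly_grow f hlc hd)
  refine ⟨κ, hκ, ?_⟩
  filter_upwards [hcrit, eventually_ge_atTop (4 : ℝ), eventually_ge_atTop t₁,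
    ev_pow (τ / 2) τ (2 * CT) (by linarith), ev_pow σ (1 - η) (2 * b) (by linarith),
    ev_pow (σ * k + η - 1 / 2) (-σ) (8 * b) (by linarith),
    (tendsto_rpow_atTop hσ0).eventually_ge_atTop 2,
    ev_pow η 1 (2 * b) (by linarith), ev_pow (-δ') (-(δ' / 3)) (2 * C₁) (by linarith)]
    with Z hcr hZ4 hZt hp1 hp2 hp3 hp4 hp5 hp6
  rintro ⟨a, D, hcop, hD1, hD2, hap⟩ M hM
  have hZ0 : 0 < Z := by linarith
  have hZ1 : 1 ≤ Z := by linarith
  have hM0 : 0 < M := by linarith
  rw [Real.rpow_one] at hp5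
  have hDpos : (0 : ℝ) < D := lt_of_lt_of_le (by positivity) hD1
  set L : ℕ := ⌊Z⌋₊ with hL
  have hLZ : (L : ℝ) ≤ Z := Nat.floor_le hZ0.le
  have hZL : Z / 2 ≤ L := by
    have := Nat.lt_floor_add_one Z
    linarith
  have hLpos : 0 < L := by
    have : (0 : ℝ) < L := by linarith
    exact_mod_cast this
  set u₀ : ℕ := ⌊M⌋₊ + 1 with hu₀
  have hu1 : M < u₀ := by
    rw [hu₀]
    push_cast
    exact Nat.lt_floor_add_one M
  have hu2 : (u₀ : ℝ) ≤ M + 1 := by
    rw [hu₀]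
    push_cast
    have := Nat.floor_le hM0.le
    linarith
  set H : ℕ := ⌊Z ^ σ⌋₊ with hH
  have hHZ : (H : ℝ) ≤ Z ^ σ := Nat.floor_le (by positivity)
  have hZH : Z ^ σ / 2 ≤ H := by
    have := Nat.lt_floor_add_one (Z ^ σ)
    linarith
  have hH1 : 1 ≤ H := by
    have : (0 : ℝ) < H := by linarith
    exact_mod_cast this
  have hHk : (H : ℝ) ^ k ≤ Z ^ (σ * k) := by
    calc (H : ℝ) ^ k ≤ (Z ^ σ) ^ k := pow_le_pow_left₀ (Nat.cast_nonneg _) hHZ k
      _ = Z ^ (σ * k) := by rw [← Real.rpow_natCast, ← Real.rpow_mul hZ0.le]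
  obtain ⟨i, hi, hi2⟩ := hcr ℕ (range L) (fun n => f.eval ((u₀ : ℝ) + n))
    (by rw [Finset.nonempty_range_iff]; omega) (by
      intro n _
      have hn0 : (0 : ℝ) ≤ n := Nat.cast_nonneg n
      have h1 := ht₁ ((u₀ : ℝ) + n) (by linarith)
      refine le_trans ?_ h1
      calc Z ^ η ≤ Z ^ (1 / 2 : ℝ) := Real.rpow_le_rpow_of_exponent_le hZ1 (by linarith)
        _ ≤ _ := Real.rpow_le_rpow hZ0.le (by linarith) (by norm_num)) (by
      intro q h hq hqX hh hhX
      have hq0 : (0 : ℝ) < q := by exact_mod_cast hq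
      have hh1 : (1 : ℝ) ≤ h := by exact_mod_cast hh
      have hq1 : (1 : ℝ) ≤ q := by exact_mod_cast hq
      set B : ℕ := b * q with hB
      have hBpos : 0 < B := Nat.mul_pos hb (by omega)
      have hBr : (B : ℝ) = b * q := by rw [hB]; push_cast; rfl
      have hB0 : (0 : ℝ) < B := by exact_mod_cast hBpos
      have hBZ : (B : ℝ) ≤ b * Z ^ η := by rw [hBr]; gcongr
      have hBL : (B : ℝ) ≤ L := by linarith
      set N : ℕ := L / B + 1 with hN
      have hN1 : 1 ≤ N := Nat.le_add_left 1 _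
      have hNr : (L : ℝ) / B ≤ N := by
        have h1 : L < B * N := by
          rw [hN]
          exact Nat.lt_mul_div_succ L hBpos
        rw [div_le_iff₀ hB0, mul_comm]
        exact_mod_cast h1.le
      have hN0 : (0 : ℝ) < N := by exact_mod_cast hN1
      have hNlow : Z ^ (1 - η) / (2 * b) ≤ N := by
        refine le_trans ?_ hNr
        rw [div_le_div_iff₀ (by positivity) hB0]
        have h1 : Z ^ (1 - η) * Z ^ η = Z := by
          rw [← Real.rpow_add hZ0]
          simp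
        calc Z ^ (1 - η) * B ≤ Z ^ (1 - η) * (b * Z ^ η) := by gcongr
          _ = b * (Z ^ (1 - η) * Z ^ η) := by ring
          _ = b * Z := by rw [h1]
          _ ≤ L * (2 * b) := by nlinarith
      have hHN : H ≤ N := by
        have h1 : (H : ℝ) ≤ N := by
          refine hHZ.trans (le_trans ?_ hNlow)
          rw [le_div_iff₀ (by positivity)]
          linarith
        exact_mod_cast h1
      have hBN : (B : ℝ) * N ≤ 2 * L := by
        have h1 : B * N ≤ L + B := by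
          rw [hN, mul_add, mul_one]
          have := Nat.mul_div_le L B
          omega
        have h2 : (B : ℝ) * N ≤ L + B := by exact_mod_cast h1
        linarith
      -- the sum over a residue class
      have hres : ∀ r < B, ‖∑ m ∈ range ((L + (B - 1 - r)) / B),
          e ((h : ℝ) / q * f.eval ((u₀ : ℝ) + ((r + B * m : ℕ) : ℝ)))‖ ≤ N * (C₁ * Z ^ (-δ')) := by
        intro r hr
        set Lr : ℕ := (L + (B - 1 - r)) / B with hLr
        have hLrN : Lr ≤ N := by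
          rw [hLr, hN, ← Nat.add_div_right _ hBpos]
          apply Nat.div_le_div_right
          omega
        set w : ℤ := (u₀ : ℤ) + r with hw
        have hterm : ∀ m ∈ range Lr, e ((h : ℝ) / q * f.eval ((u₀ : ℝ) + ((r + B * m : ℕ) : ℝ))) =
            e ((h : ℝ) / q * g.eval ((w : ℝ) + B * (m : ℝ))) * e ((h : ℝ) / (q * b) * (F.eval w : ℤ)) := by
          intro m _
          have h1 := hfg (w + B * m)
          have h2 : (((w + B * m : ℤ)) : ℝ) = (u₀ : ℝ) + ((r + B * m : ℕ) : ℝ) := by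
            rw [hw]; push_cast; ring
          rw [h2] at h1
          rw [h1]
          have h3 : (u₀ : ℝ) + ((r + B * m : ℕ) : ℝ) = (w : ℝ) + B * (m : ℝ) := by
            rw [hw]; push_cast; ring
          obtain ⟨K, hK⟩ := Polynomial.sub_dvd_eval_sub (w + B * m) w F
          have h4 : (F.eval (w + (B : ℤ) * m) : ℤ) = F.eval w + (B : ℤ) * m * K := by
            have : w + (B : ℤ) * m - w = (B : ℤ) * m := by ring
            rw [this] at hK
            linarith
          rw [h3, h4]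
          have h5 : (h : ℝ) / q * (g.eval ((w : ℝ) + B * (m : ℝ)) +
              (((F.eval w + (B : ℤ) * m * K : ℤ)) : ℝ) / b) =
              (h : ℝ) / q * g.eval ((w : ℝ) + B * (m : ℝ)) + (h : ℝ) / (q * b) * (F.eval w : ℤ) +
                ((h * m * K : ℤ) : ℝ) := by
            push_cast
            rw [hBr]
            field_simp
            ring
          rw [h5, e_add, e_add, e_int, mul_one]
        rw [sum_congr rfl hterm, ← sum_mul, norm_mul, norm_e, mul_one]
        -- the phase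
        set φ : ℕ → ℝ → ℝ := fun i t => (h : ℝ) / q * (B : ℝ) ^ i *
          (Polynomial.derivative^[i] g).eval ((w : ℝ) + B * t) with hφ
        have hHy := poly_phase g k hgd ((h : ℝ) / q) (w : ℝ) (B : ℝ) 0 Lr
        rw [← hφ] at hHy
        set c : ℝ := (h : ℝ) / q * (B : ℝ) ^ (k + 1) * ((k + 1).factorial * g.coeff (k + 1)) with hc
        have hcT : c = ((h * b ^ (k + 1) * q ^ k * (k + 1).factorial : ℕ) : ℝ) * f.coeff (k + 1) := by
          rw [hc, hgj, hBr]
          push_cast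
          rw [mul_pow, pow_succ (q : ℝ) k]
          field_simp
        have hexp := exp_boundC hHy 0 N Lr H hN1 hLrN le_rfl (by simp) hH1 hHN (1 / (2 * (D : ℝ)))
          (by positivity) (by
            intro P hP1 hP2
            rw [hcT, ← mul_assoc, ← Nat.cast_mul]
            apply fract_of_approx hcop hap
            · have h1 : 0 < h := by omega
              have h2 : 0 < q := by omega
              have h3 : 0 < P := by omega
              exact Nat.one_le_iff_ne_zero.mpr (by positivity)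
            · have h1 : ((2 * (P * (h * b ^ (k + 1) * q ^ k * (k + 1).factorial)) : ℕ) : ℝ) ≤ D := by
                push_cast
                have h2 : (P : ℝ) ≤ Z ^ (σ * k) := by
                  have : (P : ℝ) ≤ (H : ℝ) ^ k := by exact_mod_cast hP2
                  exact this.trans hHk
                have h3 : (q : ℝ) ^ k ≤ Z ^ (η * k) := by
                  calc (q : ℝ) ^ k ≤ (Z ^ η) ^ k := pow_le_pow_left₀ hq0.le hqX k
                    _ = Z ^ (η * k) := by rw [← Real.rpow_natCast, ← Real.rpow_mul hZ0.le]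
                calc 2 * ((P : ℝ) * (h * (b : ℝ) ^ (k + 1) * (q : ℝ) ^ k * (k + 1).factorial)) =
                    2 * CT * (P * h * (q : ℝ) ^ k) := by rw [hCT]; ring
                  _ ≤ 2 * CT * (Z ^ (σ * k) * Z ^ (4 * η) * Z ^ (η * k)) := by gcongr
                  _ = 2 * CT * Z ^ (σ * k + 4 * η + η * k) := by
                      rw [Real.rpow_add hZ0, Real.rpow_add hZ0]
                  _ ≤ 2 * CT * Z ^ (τ / 2) := by
                      apply mul_le_mul_of_nonneg_left _ (by positivity)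
                      apply Real.rpow_le_rpow_of_exponent_le hZ1
                      linarith
                  _ ≤ Z ^ τ := hp1
                  _ ≤ D := hD1
              exact_mod_cast h1)
        have hb2 : Cq k * (1 / H + 2 * (H : ℝ) ^ k / (1 / (2 * (D : ℝ)) * N)) ≤
            (Cq k * 3) * Z ^ (-σ) := by
          have e1 : 1 / (H : ℝ) ≤ 2 * Z ^ (-σ) := by
            rw [Real.rpow_neg hZ0.le, div_le_iff₀ (by linarith : (0 : ℝ) < H)]
            have h5 : (0 : ℝ) < Z ^ σ := by positivity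
            calc (1 : ℝ) = 2 * (Z ^ σ)⁻¹ * (Z ^ σ / 2) := by field_simp
              _ ≤ _ := by gcongr
          have e2 : 2 * (H : ℝ) ^ k / (1 / (2 * (D : ℝ)) * N) ≤ Z ^ (-σ) := by
            have e3 : 2 * (H : ℝ) ^ k / (1 / (2 * (D : ℝ)) * N) = 4 * (D * (H : ℝ) ^ k) * (1 / N) := by
              field_simp
              norm_num
            rw [e3]
            have e4 : 1 / (N : ℝ) ≤ 2 * b * Z ^ (η - 1) := by
              have h1 : 1 / (N : ℝ) ≤ 1 / (Z ^ (1 - η) / (2 * b)) :=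
                one_div_le_one_div_of_le (by positivity) hNlow
              refine h1.trans (le_of_eq ?_)
              rw [one_div_div, show η - 1 = -(1 - η) by ring, Real.rpow_neg hZ0.le, div_eq_mul_inv]
            calc 4 * (D * (H : ℝ) ^ k) * (1 / N) ≤
                4 * (Z ^ (1 / 2 : ℝ) * Z ^ (σ * k)) * (2 * b * Z ^ (η - 1)) := by gcongr
              _ = 8 * b * (Z ^ (σ * k) * Z ^ (η - 1) * Z ^ (1 / 2 : ℝ)) := by ring
              _ = 8 * b * Z ^ (σ * k + η - 1 / 2) := by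
                  rw [← Real.rpow_add hZ0, ← Real.rpow_add hZ0]
                  congr 2
                  ring
              _ ≤ _ := hp3
          calc _ ≤ Cq k * (2 * Z ^ (-σ) + Z ^ (-σ)) := by gcongr
            _ = _ := by ring
        have hroot := root_le _ _ k (by positivity) (hexp.trans hb2)
        have hr2 : ((Cq k * 3) * Z ^ (-σ)) ^ ((1 : ℝ) / 2 ^ k) = C₁ * Z ^ (-δ') := by
          rw [Real.mul_rpow (by positivity) (by positivity), ← Real.rpow_mul hZ0.le, hC₁, hδ']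
          congr 2
          ring
        rw [hr2, div_le_iff₀ hN0] at hroot
        have hsum : ∑ m ∈ range Lr, e (φ 0 (0 + (m : ℝ))) =
            ∑ m ∈ range Lr, e ((h : ℝ) / q * g.eval ((w : ℝ) + B * (m : ℝ))) := by
          refine sum_congr rfl fun m _ => ?_
          rw [hφ]
          simp
        rw [hsum] at hroot
        linarith
      have hall := norm_split (fun n => e ((h : ℝ) / q * f.eval ((u₀ : ℝ) + (n : ℝ)))) L B hBpos
        (N * (C₁ * Z ^ (-δ'))) hres
      have hcard : ((range L).card : ℝ) = L := by rw [card_range]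
      rw [hcard]
      refine hall.trans ?_
      calc (B : ℝ) * (N * (C₁ * Z ^ (-δ'))) = (B * N) * (C₁ * Z ^ (-δ')) := by ring
        _ ≤ (2 * L) * (C₁ * Z ^ (-δ')) := by gcongr
        _ = L * (2 * C₁ * Z ^ (-δ')) := by ring
        _ ≤ L * Z ^ (-(4 * η)) := by rw [hη4]; gcongr)
  refine ⟨u₀ + i, ?_, ?_, ?_⟩
  · push_cast
    have hn0 : (0 : ℝ) ≤ i := Nat.cast_nonneg i
    linarith
  · rw [Finset.mem_range] at hi
    have h1 : u₀ + i ≤ ⌊M⌋₊ + L := by omega
    have h2 : ((u₀ + i : ℕ) : ℝ) ≤ ((⌊M⌋₊ + L : ℕ) : ℝ) := by exact_mod_cast h1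
    push_cast at h2 ⊢
    have := Nat.floor_le hM0.le
    linarith
  · intro q hq
    have := hi2 q hq
    push_cast
    exact this

/-- the largest index of an irrational coefficient -/
lemma top_irrational (f : Polynomial ℝ) (h : ∃ i, 1 ≤ i ∧ Irrational (f.coeff i)) :
    ∃ k, Irrational (f.coeff (k + 1)) ∧ (∀ i, k + 1 < i → ∃ r : ℚ, f.coeff i = r) ∧
      1 ≤ f.natDegree := by
  classical
  obtain ⟨i₀, hi₀, hirr⟩ := h
  have hle : ∀ i, Irrational (f.coeff i) → i ≤ f.natDegree := by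
    intro i hi
    by_contra hcon
    push Not at hcon
    rw [Polynomial.coeff_eq_zero_of_natDegree_lt hcon] at hi
    exact hi ⟨0, by simp⟩
  set m := Nat.findGreatest (fun i => Irrational (f.coeff i)) f.natDegree with hm
  have h1 : Irrational (f.coeff m) := Nat.findGreatest_spec (P := fun i => Irrational (f.coeff i))
    (hle i₀ hirr) hirr
  have h2 : i₀ ≤ m := Nat.le_findGreatest (hle i₀ hirr) hirr
  obtain ⟨k, hk⟩ : ∃ k, m = k + 1 := ⟨m - 1, by omega⟩
  refine ⟨k, by rw [← hk]; exact h1, ?_, by have := hle m h1; omega⟩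
  intro i hi
  by_contra hcon
  have h3 : Irrational (f.coeff i) := by
    rintro ⟨r, hr⟩
    exact hcon ⟨r, hr.symm⟩
  have h4 : i ≤ m := Nat.le_findGreatest (hle i h3) h3
  omega

/-- polynomials with an irrational coefficient: infinitely many scales -/
theorem poly_irrational (f : Polynomial ℝ) (hlc : 0 < f.leadingCoeff)
    (h : ∃ i, 1 ≤ i ∧ Irrational (f.coeff i)) :
    ∃ κ : ℝ, 0 < κ ∧ ∀ Z₁ : ℝ, ∃ Z : ℝ, Z₁ ≤ Z ∧ ∀ M : ℝ, Z ≤ M →
      ∃ n : ℕ, M < n ∧ (n : ℝ) ≤ M + Z ∧ ∀ q : ℕ, q.Prime → κ * ff Z < |(q : ℝ) - f.eval (n : ℝ)| := by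
  obtain ⟨k, hk, hrat, hd⟩ := top_irrational f h
  obtain ⟨κ, hκ, hev⟩ := poly_scale f hlc hd k hrat (1 / 2) (by norm_num) le_rfl
  obtain ⟨Z₀, hZ₀⟩ := eventually_atTop.mp hev
  refine ⟨κ, hκ, fun Z₁ => ?_⟩
  obtain ⟨Z, hZ, hGS⟩ := GS_frequent hk (1 / 2) le_rfl (max Z₀ Z₁)
  exact ⟨Z, (le_max_right _ _).trans hZ, hZ₀ Z ((le_max_left _ _).trans hZ) hGS⟩

/-- polynomials with an irrational coefficient and no Liouville coefficient: all large scales -/
theorem poly_diophantine (f : Polynomial ℝ) (hlc : 0 < f.leadingCoeff)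
    (h : ∃ i, 1 ≤ i ∧ Irrational (f.coeff i)) (hL : ∀ i, 1 ≤ i → ¬ Liouville (f.coeff i)) :
    ∃ κ : ℝ, 0 < κ ∧ ∃ Z₀ : ℝ, ∀ Z : ℝ, Z₀ ≤ Z → ∀ M : ℝ, Z ≤ M →
      ∃ n : ℕ, M < n ∧ (n : ℝ) ≤ M + Z ∧ ∀ q : ℕ, q.Prime → κ * ff Z < |(q : ℝ) - f.eval (n : ℝ)| := by
  obtain ⟨k, hk, hrat, hd⟩ := top_irrational f h
  obtain ⟨τ, hτ0, hτ1, hGS⟩ := GS_eventually hk (hL (k + 1) (by omega))
  obtain ⟨κ, hκ, hev⟩ := poly_scale f hlc hd k hrat τ hτ0 hτ1
  refine ⟨κ, hκ, ?_⟩
  apply eventually_atTop.mp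
  filter_upwards [hGS, hev] with Z h1 h2
  exact h2 h1

/-- the set of good scales is unbounded, and contains all large numbers if no coefficient of
positive degree is a Liouville number -/
theorem poly_both (f : Polynomial ℝ) (hlc : 0 < f.leadingCoeff)
    (h : ∃ i, 1 ≤ i ∧ Irrational (f.coeff i)) :
    ∃ κ : ℝ, 0 < κ ∧
      (∀ Z₁ : ℝ, ∃ Z : ℝ, Z₁ ≤ Z ∧ ∀ M : ℝ, Z ≤ M →
        ∃ n : ℕ, M < n ∧ (n : ℝ) ≤ M + Z ∧ ∀ q : ℕ, q.Prime →
          κ * ff Z < |(q : ℝ) - f.eval (n : ℝ)|) ∧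
      ((∀ i, 1 ≤ i → ¬ Liouville (f.coeff i)) → ∃ Z₀ : ℝ, ∀ Z : ℝ, Z₀ ≤ Z → ∀ M : ℝ, Z ≤ M →
        ∃ n : ℕ, M < n ∧ (n : ℝ) ≤ M + Z ∧ ∀ q : ℕ, q.Prime →
          κ * ff Z < |(q : ℝ) - f.eval (n : ℝ)|) := by
  by_cases hL : ∀ i, 1 ≤ i → ¬ Liouville (f.coeff i)
  · obtain ⟨κ, hκ, Z₀, hZ₀⟩ := poly_diophantine f hlc h hL
    exact ⟨κ, hκ, fun Z₁ => ⟨max Z₀ Z₁, le_max_right _ _, hZ₀ _ (le_max_left _ _)⟩,
      fun _ => ⟨Z₀, hZ₀⟩⟩
  · obtain ⟨κ, hκ, hZ⟩ := poly_irrational f hlc h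
    exact ⟨κ, hκ, hZ, fun hL' => absurd hL' hL⟩

end Pool.Agent.TH915.PW
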