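import Pool.Agent.TH915.PW.Smooth

set_option autoImplicit false

/-!
The powers `α t ^ c`, `c > 0` not an integer, satisfy the assumptions of `smooth_main`.
-/

namespace Pool.Agent.TH915.PW

open Finset Filter
open Pool.Agent.W147.PS (ff ff_compare ev_pow)

/-- the derivatives of `α t ^ c` -/
noncomputable def pw (α c : ℝ) (m : ℕ) (t : ℝ) : ℝ :=
  α * (∏ j ∈ range m, (c - j)) * t ^ (c - m)

lemma pw_der (α c : ℝ) (m : ℕ) (t : ℝ) (ht : 0 < t) : HasDerivAt (pw α c m) (pw α c (m + 1) t) t := by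
  have h1 : HasDerivAt (fun t : ℝ => t ^ (c - m)) ((c - m) * t ^ (c - m - 1)) t :=
    Real.hasDerivAt_rpow_const (Or.inl ht.ne')
  have h2 := h1.const_mul (α * ∏ j ∈ range m, (c - j))
  have e1 : pw α c (m + 1) t = α * (∏ j ∈ range m, (c - j)) * ((c - m) * t ^ (c - m - 1)) := by
    unfold pw
    rw [prod_range_succ]
    push_cast
    rw [show c - (m + 1 : ℝ) = c - m - 1 by ring]
    ring
  rw [e1]
  exact h2

/-- record gaps around `α n ^ c`, `c > 0` not an integer -/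
theorem power_main (α c : ℝ) (hα : 0 < α) (hc : 0 < c) (hcn : ∀ m : ℕ, c ≠ m) :
    ∃ κ : ℝ, 0 < κ ∧ ∃ δ : ℝ, 0 < δ ∧ ∃ M₀ : ℝ, ∀ M : ℝ, M₀ ≤ M → ∃ n : ℕ, M < n ∧
      (n : ℝ) ≤ M + M ^ (1 - δ) ∧ ∀ q : ℕ, q.Prime → κ * ff M < |(q : ℝ) - α * (n : ℝ) ^ c| := by
  set k : ℕ := ⌊c⌋₊ with hk
  have hk1 : (k : ℝ) ≤ c := Nat.floor_le hc.le
  have hk1' : (k : ℝ) < c := lt_of_le_of_ne hk1 (hcn k).symm
  have hk2 : c < k + 1 := Nat.lt_floor_add_one _
  set β : ℝ := c - k with hβ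
  have hβ0 : 0 < β := by linarith
  have hβ1 : β < 1 := by linarith
  set ε : ℝ := min β (1 - β) / 2 with hε
  have hmin0 : 0 < min β (1 - β) := lt_min hβ0 (by linarith)
  have hε0 : 0 < ε := by positivity
  have hεβ : ε < β := by
    have := min_le_left β (1 - β)
    linarith
  have hεβ' : ε < 1 - β := by
    have := min_le_right β (1 - β)
    linarith
  set C : ℝ := α * ∏ j ∈ range (k + 1), (c - j) with hC
  have hC0 : 0 < C := by
    rw [hC]
    apply mul_pos hα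
    apply prod_pos
    intro j hj
    have h1 : j ≤ k := Nat.lt_succ_iff.mp (mem_range.mp hj)
    have h2 : (j : ℝ) ≤ k := by exact_mod_cast h1
    linarith
  have hev : ∀ᶠ t : ℝ in atTop, t ^ (ε - 1) ≤ pw α c (k + 1) t ∧ pw α c (k + 1) t ≤ t ^ (-ε) := by
    filter_upwards [ev_pow (ε - 1) (β - 1) (1 / C) (by linarith), ev_pow (β - 1) (-ε) C (by linarith),
      eventually_gt_atTop (0 : ℝ)] with t h1 h2 h3
    have e1 : pw α c (k + 1) t = C * t ^ (β - 1) := by
      unfold pw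
      rw [hC, hβ]
      push_cast
      congr 2
      ring
    rw [e1]
    refine ⟨?_, h2⟩
    rw [one_div, inv_mul_le_iff₀ hC0] at h1
    exact h1
  obtain ⟨t₁, ht₁⟩ := eventually_atTop.mp hev
  obtain ⟨κ, hκ, δ, hδ, M₀, h⟩ := smooth_main k ε hε0 (pw α c) (max t₁ 1)
    (fun m _ t ht => pw_der α c m t (by
      have := (le_max_right t₁ 1).trans ht
      linarith))
    (fun t ht => (ht₁ t ((le_max_left _ _).trans ht)).1)
    (fun t ht => (ht₁ t ((le_max_left _ _).trans ht)).2)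
    (fun t ht => by
      have ht1 : 1 ≤ t := (le_max_right _ _).trans ht
      unfold pw
      rw [prod_range_succ]
      have h1 : α * ((∏ j ∈ range (k + 1), (c - j)) * (c - ((k + 1 : ℕ) : ℝ))) =
          C * (c - ((k + 1 : ℕ) : ℝ)) := by rw [hC]; ring
      rw [h1]
      apply mul_nonpos_of_nonpos_of_nonneg _ (by positivity)
      apply mul_nonpos_of_nonneg_of_nonpos hC0.le
      push_cast
      linarith)
  refine ⟨κ, hκ, δ, hδ, M₀, fun M hM => ?_⟩
  obtain ⟨n, h1, h2, h3⟩ := h M hM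
  refine ⟨n, h1, h2, fun q hq => ?_⟩
  have h4 := h3 q hq
  have e1 : pw α c 0 n = α * (n : ℝ) ^ c := by
    unfold pw
    simp
  rwa [e1] at h4

end Pool.Agent.TH915.PW
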