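import Pool.Agent.TH915.PW.PrimeMain

set_option autoImplicit false

/-! Final statements for `α p + β`. -/

namespace Pool.Agent.TH915.PW

open Finset Filter
open Pool.Agent.W147.PS (ff ff_compare ev_pow)

/-- infinitely many primes -/
theorem primes_irrational (α : ℝ) (hα : 0 < α) (hirr : Irrational α) (β : ℝ) (d : ℕ) (hd : 0 < d)
    (r : ℕ) (hr : r.Coprime d) : ∃ κ : ℝ, 0 < κ ∧
    {p : ℕ | p.Prime ∧ p ≡ r [MOD d] ∧
      ∀ q : ℕ, q.Prime → κ * ff p < |(q : ℝ) - (α * p + β)|}.Infinite := by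
  obtain ⟨κ, hκ, hev⟩ := primes_scale α hα β d hd r hr 1 one_pos le_rfl (1 / 2) (by norm_num) le_rfl
  obtain ⟨Z₀, hZ₀⟩ := eventually_atTop.mp hev
  obtain ⟨Z₁, hZ₁⟩ := eventually_atTop.mp (ff_compare (1 / 2) (by norm_num) (by norm_num))
  refine ⟨κ * (1 / 2 / 32), by positivity, ?_⟩
  rw [Set.infinite_iff_exists_gt]
  intro n
  obtain ⟨Z, hZ, hGS⟩ := GS_frequent hirr (1 / 2) le_rfl (max (max Z₀ Z₁) (max (n : ℝ) 2))
  have h0 : Z₀ ≤ Z := ((le_max_left _ _).trans (le_max_left _ _)).trans hZ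
  have h1 : Z₁ ≤ Z := ((le_max_right _ _).trans (le_max_left _ _)).trans hZ
  have h2 : (n : ℝ) ≤ Z := ((le_max_left _ _).trans (le_max_right _ _)).trans hZ
  have h3 : 2 ≤ Z := ((le_max_right _ _).trans (le_max_right _ _)).trans hZ
  obtain ⟨p, hp, hpr, hZp, hpZ, hgap⟩ := hZ₀ Z h0 hGS
  refine ⟨p, ⟨hp, hpr, fun q hq => lt_of_le_of_lt ?_ (hgap q hq)⟩, ?_⟩
  · have h4 := ((hZ₁ p (by linarith)).2 Z (by
      rw [← Real.sqrt_eq_rpow]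
      rw [Real.sqrt_le_left (by linarith)]
      nlinarith) (by nlinarith)).1
    calc κ * (1 / 2 / 32) * ff p = κ * (1 / 2 / 32 * ff p) := by ring
      _ ≤ _ := mul_le_mul_of_nonneg_left h4 hκ.le
  · have : (n : ℝ) < p := by linarith
    exact_mod_cast this

/-- all large scales -/
theorem primes_diophantine (α : ℝ) (hα : 0 < α) (hirr : Irrational α) (hL : ¬ Liouville α) (β : ℝ)
    (d : ℕ) (hd : 0 < d) (r : ℕ) (hr : r.Coprime d) (ε : ℝ) (hε : 0 < ε) :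
    ∃ κ : ℝ, 0 < κ ∧ ∃ Z₀ : ℝ, ∀ Z : ℝ, Z₀ ≤ Z → ∃ p : ℕ, p.Prime ∧ p ≡ r [MOD d] ∧
      Z < p ∧ (p : ℝ) ≤ (1 + ε) * Z ∧
        ∀ q : ℕ, q.Prime → κ * ff Z < |(q : ℝ) - (α * p + β)| := by
  obtain ⟨τ, hτ0, hτ1, hGS⟩ := GS_eventually hirr hL
  obtain ⟨κ, hκ, hev⟩ := primes_scale α hα β d hd r hr (min ε 1) (lt_min hε one_pos)
    (min_le_right _ _) τ hτ0 hτ1
  refine ⟨κ, hκ, ?_⟩
  apply eventually_atTop.mp
  filter_upwards [hGS, hev, eventually_ge_atTop (1 : ℝ)] with Z h1 h2 h3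
  obtain ⟨p, hp, hpr, hZp, hpZ, hgap⟩ := h2 h1
  refine ⟨p, hp, hpr, hZp, hpZ.trans ?_, hgap⟩
  have := min_le_left ε 1
  apply mul_le_mul_of_nonneg_right _ (by linarith)
  linarith

/-- the set of good scales is unbounded, and contains all large numbers if `α` is not a Liouville
number -/
theorem primes_both (α : ℝ) (hα : 0 < α) (hirr : Irrational α) (β : ℝ) (d : ℕ) (hd : 0 < d)
    (r : ℕ) (hr : r.Coprime d) (ε : ℝ) (hε : 0 < ε) :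
    ∃ κ : ℝ, 0 < κ ∧
      (∀ Z₁ : ℝ, ∃ Z : ℝ, Z₁ ≤ Z ∧ ∃ p : ℕ, p.Prime ∧ p ≡ r [MOD d] ∧
        Z < p ∧ (p : ℝ) ≤ (1 + ε) * Z ∧
          ∀ q : ℕ, q.Prime → κ * ff Z < |(q : ℝ) - (α * p + β)|) ∧
      (¬ Liouville α → ∃ Z₀ : ℝ, ∀ Z : ℝ, Z₀ ≤ Z → ∃ p : ℕ, p.Prime ∧ p ≡ r [MOD d] ∧
        Z < p ∧ (p : ℝ) ≤ (1 + ε) * Z ∧
          ∀ q : ℕ, q.Prime → κ * ff Z < |(q : ℝ) - (α * p + β)|) := by
  by_cases hL : Liouville α
  · obtain ⟨κ, hκ, hev⟩ := primes_scale α hα β d hd r hr (min ε 1) (lt_min hε one_pos)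
      (min_le_right _ _) (1 / 2) (by norm_num) le_rfl
    obtain ⟨Z₀, hZ₀⟩ := eventually_atTop.mp hev
    refine ⟨κ, hκ, fun Z₁ => ?_, fun h => absurd hL h⟩
    obtain ⟨Z, hZ, hGS⟩ := GS_frequent hirr (1 / 2) le_rfl (max (max Z₀ Z₁) 1)
    have h0 : Z₀ ≤ Z := ((le_max_left _ _).trans (le_max_left _ _)).trans hZ
    have h1 : Z₁ ≤ Z := ((le_max_right _ _).trans (le_max_left _ _)).trans hZ
    have h2 : 1 ≤ Z := (le_max_right _ _).trans hZ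
    obtain ⟨p, hp, hpr, hZp, hpZ, hgap⟩ := hZ₀ Z h0 hGS
    refine ⟨Z, h1, p, hp, hpr, hZp, hpZ.trans ?_, hgap⟩
    have := min_le_left ε 1
    apply mul_le_mul_of_nonneg_right _ (by linarith)
    linarith
  · obtain ⟨κ, hκ, Z₀, hZ₀⟩ := primes_diophantine α hα hirr hL β d hd r hr ε hε
    exact ⟨κ, hκ, fun Z₁ => ⟨max Z₀ Z₁, le_max_right _ _, hZ₀ _ (le_max_left _ _)⟩,
      fun _ => ⟨Z₀, hZ₀⟩⟩

end Pool.Agent.TH915.PW
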