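import Pool.Agent.TH915.PW.Disc

set_option autoImplicit false

/-!
Passing from sums with the von Mangoldt function to sums over the primes of a residue class.
-/

namespace Pool.Agent.TH915.PW

open Finset
open Pool.Agent.H469R2.NK (e norm_e e_add e_zero)

/-- partial summation -/
lemma abel_bound (w : ℕ → ℝ) (a : ℕ → ℂ) (m : ℕ) (E : ℝ)
    (hw0 : ∀ n, m < n → 0 ≤ w n) (hw : ∀ n, m < n → w (n + 1) ≤ w n) (n : ℕ) (hmn : m < n)
    (hA : ∀ t, m < t → t ≤ n → ‖∑ i ∈ Ioc m t, a i‖ ≤ E) :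
    ‖∑ i ∈ Ioc m n, (w i : ℂ) * a i‖ ≤ w (m + 1) * E := by
  have key : ∀ j : ℕ, m + 1 + j ≤ n →
      ‖∑ i ∈ Ioc m (m + 1 + j), (w i : ℂ) * a i -
        (w (m + 1 + j) : ℂ) * ∑ i ∈ Ioc m (m + 1 + j), a i‖ ≤ (w (m + 1) - w (m + 1 + j)) * E := by
    intro j
    induction j with
    | zero =>
      intro _
      simp
    | succ j ih =>
      intro hj
      have h1 := ih (by omega)
      have h2 := hA (m + 1 + j) (by omega) (by omega)
      have e1 : ∑ i ∈ Ioc m (m + 1 + (j + 1)), (w i : ℂ) * a i =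
          ∑ i ∈ Ioc m (m + 1 + j), (w i : ℂ) * a i + (w (m + 1 + (j + 1)) : ℂ) * a (m + 1 + (j + 1)) := by
        rw [show m + 1 + (j + 1) = (m + 1 + j) + 1 by ring, sum_Ioc_succ_top (by omega)]
      have e2 : ∑ i ∈ Ioc m (m + 1 + (j + 1)), a i =
          ∑ i ∈ Ioc m (m + 1 + j), a i + a (m + 1 + (j + 1)) := by
        rw [show m + 1 + (j + 1) = (m + 1 + j) + 1 by ring, sum_Ioc_succ_top (by omega)]
      set S := ∑ i ∈ Ioc m (m + 1 + j), (w i : ℂ) * a i with hS
      set A := ∑ i ∈ Ioc m (m + 1 + j), a i with hAdef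
      have e3 : S + (w (m + 1 + (j + 1)) : ℂ) * a (m + 1 + (j + 1)) -
          (w (m + 1 + (j + 1)) : ℂ) * (A + a (m + 1 + (j + 1))) =
          (S - (w (m + 1 + j) : ℂ) * A) +
            (((w (m + 1 + j) - w (m + 1 + (j + 1)) : ℝ)) : ℂ) * A := by
        push_cast
        ring
      rw [e1, e2, e3]
      have h3 : 0 ≤ w (m + 1 + j) - w (m + 1 + (j + 1)) := by
        have := hw (m + 1 + j) (by omega)
        rw [show m + 1 + j + 1 = m + 1 + (j + 1) by ring] at this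
        linarith
      calc _ ≤ ‖S - (w (m + 1 + j) : ℂ) * A‖ +
            ‖(((w (m + 1 + j) - w (m + 1 + (j + 1)) : ℝ)) : ℂ) * A‖ := norm_add_le _ _
        _ ≤ (w (m + 1) - w (m + 1 + j)) * E + (w (m + 1 + j) - w (m + 1 + (j + 1))) * E := by
            rw [norm_mul, Complex.norm_real, Real.norm_of_nonneg h3]
            gcongr
        _ = _ := by ring
  obtain ⟨j, rfl⟩ : ∃ j, n = m + 1 + j := ⟨n - (m + 1), by omega⟩
  have h1 := key j le_rfl
  have h2 := hA (m + 1 + j) (by omega) le_rfl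
  have h3 := hw0 (m + 1 + j) (by omega)
  have e1 : ∑ i ∈ Ioc m (m + 1 + j), (w i : ℂ) * a i =
      (∑ i ∈ Ioc m (m + 1 + j), (w i : ℂ) * a i -
        (w (m + 1 + j) : ℂ) * ∑ i ∈ Ioc m (m + 1 + j), a i) +
        (w (m + 1 + j) : ℂ) * ∑ i ∈ Ioc m (m + 1 + j), a i := by ring
  rw [e1]
  calc _ ≤ _ := norm_add_le _ _
    _ ≤ (w (m + 1) - w (m + 1 + j)) * E + w (m + 1 + j) * E := by
        rw [norm_mul, Complex.norm_real, Real.norm_of_nonneg h3]
        gcongr
    _ = _ := by ring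

/-- the terms of a residue class -/
lemma class_bound (S : Finset ℕ) (G : ℕ → ℂ) (d : ℕ) (hd : 0 < d) (r : ℕ) (E : ℝ)
    (h : ∀ j < d, ‖∑ n ∈ S, G n * e ((j : ℝ) / d * n)‖ ≤ E) :
    ‖∑ n ∈ S.filter (fun n => n ≡ r [MOD d]), G n‖ ≤ E := by
  have hd0 : (d : ℝ) ≠ 0 := by exact_mod_cast hd.ne'
  have hdc : (d : ℂ) ≠ 0 := by exact_mod_cast hd.ne'
  have key : (d : ℂ) * ∑ n ∈ S.filter (fun n => n ≡ r [MOD d]), G n =
      ∑ j ∈ range d, e (-((j : ℝ) / d * r)) * ∑ n ∈ S, G n * e ((j : ℝ) / d * n) := by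
    have h1 : ∀ j ∈ range d, e (-((j : ℝ) / d * r)) * ∑ n ∈ S, G n * e ((j : ℝ) / d * n) =
        ∑ n ∈ S, G n * e ((((n : ℤ) - (r : ℤ) : ℤ) : ℝ) * ((j : ℝ) / d)) := by
      intro j _
      rw [mul_sum]
      refine sum_congr rfl fun n _ => ?_
      rw [mul_left_comm, ← e_add]
      congr 2
      push_cast
      ring
    rw [sum_congr rfl h1, sum_comm]
    have h2 : ∀ n ∈ S, ∑ j ∈ range d, G n * e ((((n : ℤ) - (r : ℤ) : ℤ) : ℝ) * ((j : ℝ) / d)) =
        if n ≡ r [MOD d] then (d : ℂ) * G n else 0 := by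
      intro n _
      rw [← mul_sum]
      split_ifs with hn
      · obtain ⟨K, hK⟩ := (Nat.modEq_iff_dvd.mp hn.symm)
        have h3 : ∀ j ∈ range d, e ((((n : ℤ) - (r : ℤ) : ℤ) : ℝ) * ((j : ℝ) / d)) = 1 := by
          intro j _
          rw [hK]
          have : ((((d : ℤ) * K : ℤ)) : ℝ) * ((j : ℝ) / d) = ((K * j : ℤ) : ℝ) := by
            push_cast
            field_simp
          rw [this, e_int]
        rw [sum_congr rfl h3, sum_const, card_range, nsmul_eq_mul, mul_one, mul_comm]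
      · rw [sum_char d hd, mul_zero]
        intro hdvd
        exact hn (Nat.modEq_iff_dvd.mpr hdvd).symm
    rw [sum_congr rfl h2, ← sum_filter, ← mul_sum]
  have h3 : (d : ℝ) * ‖∑ n ∈ S.filter (fun n => n ≡ r [MOD d]), G n‖ ≤ d * E := by
    have h4 : ‖(d : ℂ) * ∑ n ∈ S.filter (fun n => n ≡ r [MOD d]), G n‖ ≤ d * E := by
      rw [key]
      refine (norm_sum_le _ _).trans ?_
      have h5 : ∀ j ∈ range d, ‖e (-((j : ℝ) / d * r)) * ∑ n ∈ S, G n * e ((j : ℝ) / d * n)‖ ≤ E := by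
        intro j hj
        rw [norm_mul, norm_e, one_mul]
        exact h j (mem_range.mp hj)
      refine (sum_le_sum h5).trans ?_
      rw [sum_const, card_range, nsmul_eq_mul]
    rwa [norm_mul, Complex.norm_natCast] at h4
  have hd1 : (0 : ℝ) < d := by exact_mod_cast hd
  exact le_of_mul_le_mul_left h3 hd1

/-- from the von Mangoldt function to the primes -/
lemma prime_bound (m t : ℕ) (ht : 1 ≤ t) (f : ℕ → ℂ) (hf : ∀ n, ‖f n‖ ≤ 1) (E : ℝ)
    (h : ‖∑ n ∈ Ioc m t, ((ArithmeticFunction.vonMangoldt n : ℝ) : ℂ) * f n‖ ≤ E) :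
    ‖∑ n ∈ Ioc m t, (((if n.Prime then Real.log n else 0 : ℝ)) : ℂ) * f n‖ ≤
      E + 2 * √(t : ℝ) * Real.log t := by
  classical
  have e1 : ∑ n ∈ Ioc m t, (((if n.Prime then Real.log n else 0 : ℝ)) : ℂ) * f n =
      ∑ n ∈ Ioc m t, ((ArithmeticFunction.vonMangoldt n : ℝ) : ℂ) * f n -
        ∑ n ∈ Ioc m t, (((ArithmeticFunction.vonMangoldt n -
          (if n.Prime then Real.log n else 0) : ℝ)) : ℂ) * f n := by
    rw [← sum_sub_distrib]
    refine sum_congr rfl fun n _ => ?_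
    push_cast
    ring
  have h2 : ‖∑ n ∈ Ioc m t, (((ArithmeticFunction.vonMangoldt n -
          (if n.Prime then Real.log n else 0) : ℝ)) : ℂ) * f n‖ ≤ 2 * √(t : ℝ) * Real.log t := by
    refine (norm_sum_le _ _).trans ?_
    have h3 : ∀ n ∈ Ioc m t, ‖(((ArithmeticFunction.vonMangoldt n -
          (if n.Prime then Real.log n else 0) : ℝ)) : ℂ) * f n‖ ≤
          if ¬ n.Prime then ArithmeticFunction.vonMangoldt n else 0 := by
      intro n _
      rw [norm_mul, Complex.norm_real]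
      by_cases hp : n.Prime
      · rw [if_pos hp, ArithmeticFunction.vonMangoldt_apply_prime hp, sub_self, norm_zero,
          zero_mul, if_neg (by simpa using hp)]
      · rw [if_neg hp, sub_zero, if_pos hp, Real.norm_of_nonneg ArithmeticFunction.vonMangoldt_nonneg]
        exact mul_le_of_le_one_right ArithmeticFunction.vonMangoldt_nonneg (hf n)
    refine (sum_le_sum h3).trans ?_
    rw [← sum_filter]
    have h4 := Chebyshev.psi_sub_theta_eq_sum_not_prime (t : ℝ)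
    have h5 := Chebyshev.psi_sub_theta_le (x := (t : ℝ)) (by exact_mod_cast ht)
    rw [h4, Nat.floor_natCast] at h5
    refine le_trans ?_ h5
    apply sum_le_sum_of_subset_of_nonneg
    · intro n hn
      rw [mem_filter, mem_Ioc] at hn ⊢
      exact ⟨⟨by omega, hn.1.2⟩, hn.2⟩
    · intro n _ _
      exact ArithmeticFunction.vonMangoldt_nonneg
  rw [e1]
  exact (norm_sub_le _ _).trans (add_le_add h h2)

end Pool.Agent.TH915.PW
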