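import Pool.Agent.TH915.PW.Scaled
import Pool.Agent.TH915.PW.Freq
import Pool.Agent.TH915.PW.PrimeSum
import Pool.Agent.TH915.PW.APCount
import Pool.Agent.W110.HV.Vino

set_option autoImplicit false

/-!
Record prime-free neighbourhoods of `α p + β`, `p` prime in a residue class, `α` irrational.
-/

namespace Pool.Agent.TH915.PW

open Finset Filter
open Pool.Agent.H469R2.NK (e norm_e e_add)
open Pool.Agent.W147.PS (ff ff_compare ev_pow)

lemma ee_eq_e (x : ℝ) : Pool.Agent.Helper112.ee x = e x := by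
  unfold Pool.Agent.Helper112.ee e
  congr 1
  push_cast
  ring

/-- sums with the von Mangoldt function over `(m₀, t]` -/
lemma mangoldt_sum (τ : ℝ) (hτ0 : 0 < τ) (hτ1 : τ ≤ 1 / 2) (d : ℕ) (hd : 1 ≤ d) :
    ∀ᶠ Z : ℝ in atTop, ∀ ξ : ℝ, GS ξ τ Z → ∀ h q : ℕ, 1 ≤ h → (h : ℝ) ≤ Z ^ (4 * (τ / 100)) →
      1 ≤ q → (q : ℝ) ≤ Z ^ (τ / 100) → ∀ j : ℤ, ∀ t : ℕ, ⌊Z⌋₊ ≤ t → (t : ℝ) ≤ 2 * Z →
      ‖∑ n ∈ Ioc ⌊Z⌋₊ t, ((ArithmeticFunction.vonMangoldt n : ℝ) : ℂ) *
        e (((h : ℝ) / q * ξ + j / d) * n)‖ ≤ 4 * Z ^ (1 - 9 / 20 * (τ / 8)) := by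
  obtain ⟨N0, hN0⟩ := Pool.Agent.W110.HV.vino (τ / 8) (by positivity) (by linarith)
  filter_upwards [freq_approx τ (τ / 100) (τ / 4) (by positivity) (by positivity) (by linarith)
      (by linarith) d hd, eventually_ge_atTop (4 : ℝ), eventually_ge_atTop (2 * (N0 : ℝ)),
    ev_pow (τ / 8) (τ / 4) 2 (by linarith), ev_pow (1 - τ / 4) (1 - τ / 8) 2 (by linarith)]
    with Z hfr hZ4 hZN hp1 hp2
  intro ξ hGS h q hh hhZ hq hqZ j t ht1 ht2
  have hZ0 : 0 < Z := by linarith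
  have hZ1 : 1 ≤ Z := by linarith
  obtain ⟨c, D, hcop, hD1, hD2, hap⟩ := hfr ξ hGS h q hh hhZ hq hqZ j
  set β : ℝ := (h : ℝ) / q * ξ + j / d with hβ
  have hm₀ : Z / 2 ≤ (⌊Z⌋₊ : ℝ) := by
    have := Nat.lt_floor_add_one Z
    linarith
  have hone : ∀ N : ℕ, Z / 2 ≤ N → (N : ℝ) ≤ 2 * Z →
      ‖∑ n ∈ Icc 1 N, ((ArithmeticFunction.vonMangoldt n : ℝ) : ℂ) * e (β * n)‖ ≤
        2 * Z ^ (1 - 9 / 20 * (τ / 8)) := by
    intro N hN1 hN2
    have hNpos : (0 : ℝ) < N := by linarith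
    have h1 := hN0 N (by
      have : (N0 : ℝ) ≤ N := by linarith
      exact_mod_cast this) D (by
        refine le_trans ?_ hD1
        calc (N : ℝ) ^ (τ / 8) ≤ (2 * Z) ^ (τ / 8) :=
              Real.rpow_le_rpow hNpos.le hN2 (by positivity)
          _ = 2 ^ (τ / 8) * Z ^ (τ / 8) := Real.mul_rpow (by norm_num) hZ0.le
          _ ≤ 2 * Z ^ (τ / 8) := by
              apply mul_le_mul_of_nonneg_right _ (by positivity)
              calc (2 : ℝ) ^ (τ / 8) ≤ 2 ^ (1 : ℝ) :=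
                    Real.rpow_le_rpow_of_exponent_le (by norm_num) (by linarith)
                _ = 2 := Real.rpow_one 2
          _ ≤ _ := hp1) (by
        refine hD2.trans ?_
        calc Z ^ (1 - τ / 4) ≤ Z ^ (1 - τ / 8) / 2 := by linarith
          _ ≤ (Z / 2) ^ (1 - τ / 8) := by
              rw [Real.div_rpow hZ0.le (by norm_num)]
              apply div_le_div_of_nonneg_left (by positivity) (by positivity)
              calc (2 : ℝ) ^ (1 - τ / 8) ≤ 2 ^ (1 : ℝ) :=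
                    Real.rpow_le_rpow_of_exponent_le (by norm_num) (by linarith)
                _ = 2 := Real.rpow_one 2
          _ ≤ _ := Real.rpow_le_rpow (by positivity) hN1 (by linarith)) c hcop β hap
    have h2 : ∑ n ∈ Icc 1 N, ((ArithmeticFunction.vonMangoldt n : ℝ) : ℂ) * e (β * n) =
        ∑ n ∈ Icc 1 N, ((ArithmeticFunction.vonMangoldt n : ℝ) : ℂ) *
          Pool.Agent.Helper112.ee ((n : ℝ) * β) := by
      refine sum_congr rfl fun n _ => ?_
      rw [ee_eq_e, mul_comm β]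
    rw [h2]
    refine h1.trans ?_
    calc (N : ℝ) ^ (1 - 9 / 20 * (τ / 8)) ≤ (2 * Z) ^ (1 - 9 / 20 * (τ / 8)) :=
          Real.rpow_le_rpow hNpos.le hN2 (by linarith)
      _ = 2 ^ (1 - 9 / 20 * (τ / 8)) * Z ^ (1 - 9 / 20 * (τ / 8)) :=
          Real.mul_rpow (by norm_num) hZ0.le
      _ ≤ _ := by
          apply mul_le_mul_of_nonneg_right _ (by positivity)
          calc (2 : ℝ) ^ (1 - 9 / 20 * (τ / 8)) ≤ 2 ^ (1 : ℝ) :=
                Real.rpow_le_rpow_of_exponent_le (by norm_num) (by linarith)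
            _ = 2 := Real.rpow_one 2
  have e1 : ∑ n ∈ Ioc ⌊Z⌋₊ t, ((ArithmeticFunction.vonMangoldt n : ℝ) : ℂ) * e (β * n) =
      ∑ n ∈ Icc 1 t, ((ArithmeticFunction.vonMangoldt n : ℝ) : ℂ) * e (β * n) -
        ∑ n ∈ Icc 1 ⌊Z⌋₊, ((ArithmeticFunction.vonMangoldt n : ℝ) : ℂ) * e (β * n) := by
    have e2 : Finset.Icc 1 t = Finset.Icc 1 ⌊Z⌋₊ ∪ Ioc ⌊Z⌋₊ t := by
      ext k
      simp only [Finset.mem_union, Finset.mem_Icc, Finset.mem_Ioc]
      omega
    have e3 : Disjoint (Finset.Icc 1 ⌊Z⌋₊) (Ioc ⌊Z⌋₊ t) := by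
      rw [Finset.disjoint_left]
      intro k hk hk'
      rw [Finset.mem_Icc] at hk
      rw [Finset.mem_Ioc] at hk'
      omega
    rw [e2, Finset.sum_union e3]
    ring
  rw [e1]
  have h1 := hone t (hm₀.trans (by exact_mod_cast ht1)) ht2
  have h2 := hone ⌊Z⌋₊ hm₀ (by
    have := Nat.floor_le hZ0.le
    linarith)
  calc _ ≤ _ := norm_sub_le _ _
    _ ≤ 2 * Z ^ (1 - 9 / 20 * (τ / 8)) + 2 * Z ^ (1 - 9 / 20 * (τ / 8)) := add_le_add h1 h2
    _ = _ := by ring

set_option maxHeartbeats 4000000 in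
/-- the theorem at a good scale -/
theorem primes_scale (α : ℝ) (hα : 0 < α) (β₀ : ℝ) (d : ℕ) (hd : 0 < d) (r : ℕ)
    (hr : r.Coprime d) (ε : ℝ) (hε : 0 < ε) (hε1 : ε ≤ 1) (τ : ℝ) (hτ0 : 0 < τ) (hτ1 : τ ≤ 1 / 2) :
    ∃ κ : ℝ, 0 < κ ∧ ∀ᶠ Z : ℝ in atTop, GS α τ Z → ∃ p : ℕ, p.Prime ∧ p ≡ r [MOD d] ∧
      Z < p ∧ (p : ℝ) ≤ (1 + ε) * Z ∧ ∀ q : ℕ, q.Prime → κ * ff Z < |(q : ℝ) - (α * p + β₀)| := by
  classical
  obtain ⟨κ, hκ, hcrit⟩ := crit_scaled (τ / 100) (by positivity) (by linarith)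
  have hlogev : ∀ᶠ Z : ℝ in atTop, Real.log (2 * Z) ≤ Z ^ (1 / 4 : ℝ) := by
    have e1 := (isLittleO_log_rpow_atTop (show (0 : ℝ) < 1 / 8 by norm_num)).def
      (show (0 : ℝ) < 1 by norm_num)
    have e2 : Tendsto (fun Z : ℝ => 2 * Z) atTop atTop := tendsto_id.const_mul_atTop (by norm_num)
    filter_upwards [e2.eventually e1, eventually_ge_atTop (1 : ℝ),
      ev_pow (1 / 8) (1 / 4) (2 ^ (1 / 8 : ℝ)) (by norm_num)] with Z e3 e4 e5
    rw [Real.norm_eq_abs, Real.norm_eq_abs, abs_of_nonneg (Real.log_nonneg (by linarith)),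
      abs_of_nonneg (by positivity), one_mul, Real.mul_rpow (by norm_num) (by linarith)] at e3
    linarith
  refine ⟨κ, hκ, ?_⟩
  filter_upwards [hcrit, mangoldt_sum τ hτ0 hτ1 d hd,
    card_primes d hd r hr ε (τ / 1000) hε hε1 (by positivity), hlogev,
    eventually_ge_atTop (4 : ℝ), ev_pow (3 / 4) (1 - 9 / 20 * (τ / 8)) 4 (by linarith),
    ev_pow (1 - 9 / 20 * (τ / 8)) (1 - τ / 1000 - 4 * (τ / 100)) 5 (by linarith),
    ev_pow (τ / 100) 1 (2 / α) (by linarith), eventually_ge_atTop (|β₀| * (2 / α))]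
    with Z hcr hvm hcard hlog hZ4 hp1 hp2 hp3 hp4
  intro hGS
  rw [Real.rpow_one] at hp3
  have hZ0 : 0 < Z := by linarith
  have hZ1 : 1 ≤ Z := by linarith
  set m₀ : ℕ := ⌊Z⌋₊ with hm₀
  set m₁ : ℕ := ⌊(1 + ε) * Z⌋₊ with hm₁
  have hm04 : 4 ≤ m₀ := Nat.le_floor (by exact_mod_cast hZ4)
  have hm1' : (m₁ : ℝ) ≤ (1 + ε) * Z := Nat.floor_le (by positivity)
  have hm1 : (m₁ : ℝ) ≤ 2 * Z := by nlinarith
  set Q : Finset ℕ := (Ioc m₀ m₁).filter (fun p => p.Prime ∧ p ≡ r [MOD d]) with hQ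
  have hQpos : (0 : ℝ) < Q.card := lt_of_lt_of_le (by positivity) hcard
  have hQne : Q.Nonempty := by
    rw [← Finset.card_pos]
    exact_mod_cast hQpos
  have hQmem : ∀ p ∈ Q, p.Prime ∧ p ≡ r [MOD d] ∧ Z < p ∧ (p : ℝ) ≤ (1 + ε) * Z := by
    intro p hp
    rw [hQ, Finset.mem_filter, Finset.mem_Ioc] at hp
    refine ⟨hp.2.1, hp.2.2, ?_, ?_⟩
    · exact (Nat.floor_lt hZ0.le).mp hp.1.1
    · have : (p : ℝ) ≤ m₁ := by exact_mod_cast hp.1.2
      linarith
  have hm01 : m₀ < m₁ := by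
    obtain ⟨p, hp⟩ := hQne
    rw [hQ, Finset.mem_filter, Finset.mem_Ioc] at hp
    omega
  obtain ⟨p, hp, hp2'⟩ := hcr ℕ Q (fun p => α * p + β₀) hQne (by
      intro p hp
      have h1 := (hQmem p hp).2.2.1
      have h2 : -|β₀| ≤ β₀ := neg_abs_le _
      have h3 : Z ^ (τ / 100) ≤ α / 2 * Z := by
        calc Z ^ (τ / 100) = α / 2 * (2 / α * Z ^ (τ / 100)) := by field_simp
          _ ≤ _ := by gcongr
      have h4 : |β₀| ≤ α / 2 * Z := by
        calc |β₀| = α / 2 * (|β₀| * (2 / α)) := by field_simp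
          _ ≤ _ := by gcongr
      nlinarith) (by
      intro q h hq hqZ hh hhZ
      have e0 : ∀ p ∈ Q, e ((h : ℝ) / q * (α * p + β₀)) =
          e ((h : ℝ) / q * α * p) * e ((h : ℝ) / q * β₀) := by
        intro p _
        rw [← e_add]
        congr 1
        ring
      rw [sum_congr rfl e0, ← sum_mul, norm_mul, norm_e, mul_one]
      set E : ℝ := 5 * Z ^ (1 - 9 / 20 * (τ / 8)) with hE
      have hE0 : 0 ≤ E := by positivity
      set G : ℕ → ℂ := fun n => (((if n.Prime then Real.log n else 0 : ℝ)) : ℂ) *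
        e ((h : ℝ) / q * α * n) with hG
      have hcls : ∀ t : ℕ, m₀ ≤ t → t ≤ m₁ →
          ‖∑ n ∈ (Ioc m₀ t).filter (fun n => n ≡ r [MOD d]), G n‖ ≤ E := by
        intro t ht1 ht2
        have htr : (t : ℝ) ≤ 2 * Z := by
          have : (t : ℝ) ≤ m₁ := by exact_mod_cast ht2
          linarith
        have ht0 : 1 ≤ t := by omega
        have htlog : 2 * √(t : ℝ) * Real.log t ≤ Z ^ (1 - 9 / 20 * (τ / 8)) := by
          have h7 : √(t : ℝ) ≤ 2 * Z ^ (1 / 2 : ℝ) := by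
            rw [← Real.sqrt_eq_rpow]
            calc √(t : ℝ) ≤ √(2 ^ 2 * Z) := Real.sqrt_le_sqrt (by linarith)
              _ = 2 * √Z := by rw [Real.sqrt_mul (by norm_num), Real.sqrt_sq (by norm_num)]
          have h8 : Real.log (t : ℝ) ≤ Z ^ (1 / 4 : ℝ) := by
            refine le_trans ?_ hlog
            apply Real.log_le_log _ htr
            exact_mod_cast ht0
          have h9 : 0 ≤ Real.log (t : ℝ) := Real.log_nonneg (by exact_mod_cast ht0)
          calc 2 * √(t : ℝ) * Real.log t ≤ 2 * (2 * Z ^ (1 / 2 : ℝ)) * Z ^ (1 / 4 : ℝ) := by gcongr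
            _ = 4 * (Z ^ (1 / 2 : ℝ) * Z ^ (1 / 4 : ℝ)) := by ring
            _ = 4 * Z ^ (3 / 4 : ℝ) := by rw [← Real.rpow_add hZ0]; norm_num
            _ ≤ _ := hp1
        apply class_bound (Ioc m₀ t) G d hd r E
        intro j _
        have h1 := hvm α hGS h q hh hhZ hq hqZ (j : ℤ) t ht1 htr
        have h2 := prime_bound m₀ t ht0 (fun n => e (((h : ℝ) / q * α + ((j : ℤ) : ℝ) / d) * n))
          (fun n => (norm_e _).le) _ h1
        have h3 : ∑ n ∈ Ioc m₀ t, G n * e ((j : ℝ) / d * n) =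
            ∑ n ∈ Ioc m₀ t, (((if n.Prime then Real.log n else 0 : ℝ)) : ℂ) *
              e (((h : ℝ) / q * α + ((j : ℤ) : ℝ) / d) * n) := by
          refine sum_congr rfl fun n _ => ?_
          rw [hG]
          simp only
          rw [mul_assoc, ← e_add]
          congr 2
          push_cast
          ring
        rw [h3]
        refine h2.trans ?_
        rw [hE]
        linarith
      set a : ℕ → ℂ := fun n => if n ≡ r [MOD d] then G n else 0 with ha
      set w : ℕ → ℝ := fun n => (Real.log n)⁻¹ with hw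
      have hlogpos : ∀ n : ℕ, m₀ < n → 1 ≤ Real.log n := by
        intro n hn
        rw [Real.le_log_iff_exp_le (by
          have : 0 < n := by omega
          exact_mod_cast this)]
        have h1 := Real.exp_one_lt_d9
        have h2 : (5 : ℝ) ≤ n := by exact_mod_cast (by omega : 5 ≤ n)
        linarith
      have hab := abel_bound w a m₀ E (fun n hn => by
          have := hlogpos n hn
          rw [hw]
          positivity) (fun n hn => by
          have h1 := hlogpos n hn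
          rw [hw]
          simp only
          apply inv_anti₀ (by linarith)
          apply Real.log_le_log
          · have : 0 < n := by omega
            exact_mod_cast this
          · push_cast
            linarith) m₁ hm01 (fun t ht1 ht2 => by
          have h1 := hcls t ht1.le ht2
          rw [sum_filter] at h1
          exact h1)
      have hsum : ∑ p ∈ Q, e ((h : ℝ) / q * α * p) = ∑ i ∈ Ioc m₀ m₁, (w i : ℂ) * a i := by
        rw [hQ, sum_filter]
        refine sum_congr rfl fun n hn => ?_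
        have hn0 := hlogpos n (Finset.mem_Ioc.mp hn).1
        rw [ha, hw, hG]
        simp only
        by_cases h1 : n ≡ r [MOD d]
        · by_cases h2 : n.Prime
          · rw [if_pos ⟨h2, h1⟩, if_pos h1, if_pos h2, ← mul_assoc]
            rw [← Complex.ofReal_mul, inv_mul_cancel₀ (by linarith), Complex.ofReal_one, one_mul]
          · rw [if_neg (fun h3 => h2 h3.1), if_pos h1, if_neg h2]
            simp
        · rw [if_neg (fun h3 => h1 h3.2), if_neg h1, mul_zero]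
      rw [hsum]
      refine hab.trans ?_
      have hw1 : w (m₀ + 1) ≤ 1 := by
        rw [hw]
        exact inv_le_one_of_one_le₀ (hlogpos (m₀ + 1) (by omega))
      calc w (m₀ + 1) * E ≤ 1 * E := mul_le_mul_of_nonneg_right hw1 hE0
        _ = 5 * Z ^ (1 - 9 / 20 * (τ / 8)) := by rw [one_mul]
        _ ≤ Z ^ (1 - τ / 1000 - 4 * (τ / 100)) := hp2
        _ = Z ^ (1 - τ / 1000) * Z ^ (-(4 * (τ / 100))) := by
            rw [← Real.rpow_add hZ0]; congr 1
        _ ≤ _ := by gcongr)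
  obtain ⟨h1, h2, h3, h4⟩ := hQmem p hp
  exact ⟨p, h1, h2, h3, h4, hp2'⟩

end Pool.Agent.TH915.PW
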