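import Pool.Agent.TH915.PW.Crit
import Pool.Agent.W147.PS.Scale

set_option autoImplicit false

/-! The criterion at the scale `X = M ^ η`. -/

namespace Pool.Agent.TH915.PW

open Finset Filter
open Pool.Agent.H469R2.NK (e norm_e e_add)
open Pool.Agent.W147.PS (ff ff_compare ev_pow)

/-- A finite family of real numbers whose exponential sums at the small rationals `h / q` save a
power of `M` has a member without primes at distance `κ log M (log₂ M)² log₄ M / (log₃ M)²`. -/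
theorem crit_scaled (η : ℝ) (h0 : 0 < η) (h1 : η ≤ 1) : ∃ κ : ℝ, 0 < κ ∧ ∀ᶠ M : ℝ in atTop,
    ∀ (ι : Type) (s : Finset ι) (a : ι → ℝ), s.Nonempty → (∀ i ∈ s, M ^ η ≤ a i) →
    (∀ q h : ℕ, 1 ≤ q → (q : ℝ) ≤ M ^ η → 1 ≤ h → (h : ℝ) ≤ M ^ (4 * η) →
      ‖∑ i ∈ s, e ((h : ℝ) / q * a i)‖ ≤ s.card * M ^ (-(4 * η))) →
    ∃ i ∈ s, ∀ q : ℕ, q.Prime → κ * ff M < |(q : ℝ) - a i| := by
  obtain ⟨κ, hκ, X₀, hc⟩ := crit_exp
  refine ⟨κ * (η / 32), by positivity, ?_⟩
  filter_upwards [ff_compare η h0 h1, (tendsto_rpow_atTop h0).eventually_ge_atTop X₀,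
    eventually_ge_atTop (1 : ℝ)] with M hM hMX hM1
  intro ι s a hs ha hE
  have hM0 : 0 < M := by linarith
  have h4 : (M ^ η) ^ 4 = M ^ (4 * η) := by
    rw [← Real.rpow_natCast, ← Real.rpow_mul hM0.le]
    congr 1
    push_cast
    ring
  obtain ⟨i, hi, hi2⟩ := hc (M ^ η) hMX ι s a hs ha (by
    intro q h hq hqX hh hhX
    have := hE q h hq (hqX.trans (by
      rw [← Real.rpow_mul hM0.le]
      apply Real.rpow_le_rpow_of_exponent_le hM1
      linarith)) hh (by rw [← h4]; exact hhX)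
    refine this.trans (le_of_eq ?_)
    rw [← Real.rpow_mul hM0.le]
    congr 2
    ring)
  refine ⟨i, hi, fun q hq => lt_of_le_of_lt ?_ (hi2 q hq)⟩
  have h5 := (hM.2 (M ^ η) le_rfl (by
    calc M ^ η ≤ M ^ (2 : ℝ) := Real.rpow_le_rpow_of_exponent_le hM1 (by linarith)
      _ = M ^ 2 := by norm_num)).1
  calc κ * (η / 32) * ff M = κ * (η / 32 * ff M) := by ring
    _ ≤ _ := mul_le_mul_of_nonneg_left h5 hκ.le

end Pool.Agent.TH915.PW
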